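import Mathlib

/-!
Definitions of the problem: admissible pairs, Funk and Hilbert distance, ordinary and
convexified Hilbert packing numbers.
-/

namespace Pool.Agent.Work.MP_0e72ae_gt

open scoped RealInnerProductSpace

/-- Euclidean space of dimension `d`. -/
abbrev E (d : ℕ) : Type := EuclideanSpace ℝ (Fin d)

variable {d : ℕ}

/-- A convex body: compact, convex, with nonempty interior. -/
def IsConvexBody (K : Set (E d)) : Prop :=
  IsCompact K ∧ Convex ℝ K ∧ (interior K).Nonempty

/-- An admissible pair: convex bodies with `0 ∈ int G` and `G ⊆ int K`. -/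
def Admissible (G K : Set (E d)) : Prop :=
  IsConvexBody G ∧ IsConvexBody K ∧ (0 : E d) ∈ interior G ∧ G ⊆ interior K

/-- The polar body. -/
def polarBody (K : Set (E d)) : Set (E d) := {y | ∀ x ∈ K, ⟪x, y⟫ ≤ 1}

/-- The affine function `f_y(x) = 1 - ⟨y, x⟩`. -/
noncomputable def fy (y x : E d) : ℝ := 1 - ⟪y, x⟫

/-- The Funk distance: the supremum over `y` in the polar body of `log (f_y x₁ / f_y x₂)`. -/
noncomputable def funk (K : Set (E d)) (x₁ x₂ : E d) : ℝ :=
  sSup ((fun y => Real.log (fy y x₁ / fy y x₂)) '' polarBody K)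

/-- The Hilbert distance. -/
noncomputable def hilbertDist (K : Set (E d)) (x₁ x₂ : E d) : ℝ :=
  (funk K x₁ x₂ + funk K x₂ x₁) / 2

/-- The Hilbert distance from a point to a set. -/
noncomputable def hilbertInf (K : Set (E d)) (x : E d) (C : Set (E d)) : ℝ :=
  sInf ((fun c => hilbertDist K x c) '' C)

/-- The ordinary Hilbert packing number: the largest `N` for which some `N` points of `G` have
pairwise Hilbert distance at least `α`. -/
noncomputable def packing (G K : Set (E d)) (α : ℝ) : ℕ :=
  sSup {N : ℕ | ∃ x : Fin N → E d, (∀ i, x i ∈ G) ∧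
    ∀ i j, i < j → α ≤ hilbertDist K (x i) (x j)}

/-- The convexified Hilbert packing number: the largest `N` for which some `N` points of `G`
have each point after the first at Hilbert distance at least `α` from the convex hull of the
earlier points. -/
noncomputable def convPacking (G K : Set (E d)) (α : ℝ) : ℕ :=
  sSup {N : ℕ | ∃ x : Fin N → E d, (∀ i, x i ∈ G) ∧
    ∀ j : Fin N, 0 < j.val → α ≤ hilbertInf K (x j) (convexHull ℝ (x '' {i | i < j}))}

end Pool.Agent.Work.MP_0e72ae_gt
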