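import Mathlib
import Pool.Agent.Work.MP_0e72ae_gt.Defs

-- merged part: Pool.Agent.Work.MP_0e72ae_gt.Abstract1
section
/-!
Abstract part of the quasi-polynomial comparison between ordinary and convexified packing:
a cone of positive functions on a type, good lists, trees.
-/

namespace Pool.Agent.Work.MP_0e72ae_gt

open Finset

/-- A cone of positive functions containing the constants. -/
structure PCone (X : Type) where
  F : Set (X → ℝ)
  pos : ∀ f ∈ F, ∀ x, 0 < f x
  add : ∀ f ∈ F, ∀ g ∈ F, (fun x => f x + g x) ∈ F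
  smul : ∀ f ∈ F, ∀ c : ℝ, 0 < c → (fun x => c * f x) ∈ F
  one : (fun _ => (1 : ℝ)) ∈ F

variable {X : Type}

lemma PCone.const (C : PCone X) {c : ℝ} (hc : 0 < c) : (fun _ : X => c) ∈ C.F := by
  have := C.smul _ C.one c hc
  simpa using this

/-- A point with two functions. -/
structure Tr (X : Type) where
  x : X
  U : X → ℝ
  W : X → ℝ

/-- The later triple `q` separates its point from the point of the earlier triple `p`. -/
def Rel (u : ℝ) (p q : Tr X) : Prop := u * (q.U p.x * q.W q.x) ≤ q.U q.x * q.W p.x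

def Good (C : PCone X) (u : ℝ) (l : List (Tr X)) : Prop :=
  (∀ t ∈ l, t.U ∈ C.F ∧ t.W ∈ C.F) ∧ l.Pairwise (Rel u)

def Bound (C : PCone X) (u : ℝ) (m : ℕ) : Prop := ∀ l, Good C u l → l.length ≤ m

lemma Bound.mono {C : PCone X} {u v : ℝ} {m : ℕ} (h : Bound C u m) (huv : u ≤ v) :
    Bound C v m := by
  intro l hl
  refine h l ⟨hl.1, ?_⟩
  refine List.Pairwise.imp_of_mem ?_ hl.2
  intro p q _ hq hr
  unfold Rel at *
  have h1 := C.pos _ (hl.1 q hq).1 p.x
  have h2 := C.pos _ (hl.1 q hq).2 q.x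
  have : u * (q.U p.x * q.W q.x) ≤ v * (q.U p.x * q.W q.x) :=
    mul_le_mul_of_nonneg_right huv (by positivity)
  linarith

def Close (C : PCone X) (r : ℝ) (x y : X) : Prop := ∀ f ∈ C.F, f x ≤ r * f y ∧ f y ≤ r * f x

lemma Close.symm {C : PCone X} {r : ℝ} {x y : X} (h : Close C r x y) : Close C r y x :=
  fun f hf => ⟨(h f hf).2, (h f hf).1⟩

lemma Close.refl (C : PCone X) {r : ℝ} (hr : 1 ≤ r) (x : X) : Close C r x x := by
  intro f hf
  have := C.pos f hf x
  constructor <;> linarith only [hr, this, mul_nonneg_of_nonpos_of_nonpos (Mathlib.Tactic.Linarith.sub_nonpos_of_le hr) (le_of_lt (Mathlib.Tactic.Linarith.sub_neg_of_lt this))]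

lemma Close.mono {C : PCone X} {r s : ℝ} {x y : X} (h : Close C r x y) (hrs : r ≤ s) :
    Close C s x y := by
  intro f hf
  have h1 := C.pos f hf x
  have h2 := C.pos f hf y
  obtain ⟨a, b⟩ := h f hf
  constructor <;> linarith only [a, hrs, h2, b, h1, mul_nonneg_of_nonpos_of_nonpos (Mathlib.Tactic.Linarith.sub_nonpos_of_le hrs) (le_of_lt (Mathlib.Tactic.Linarith.sub_neg_of_lt h2)), mul_nonneg_of_nonpos_of_nonpos (Mathlib.Tactic.Linarith.sub_nonpos_of_le hrs) (le_of_lt (Mathlib.Tactic.Linarith.sub_neg_of_lt h1))]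

lemma Close.trans {C : PCone X} {r : ℝ} (hr : 0 ≤ r) {x y z : X} (h : Close C r x y)
    (h' : Close C r y z) : Close C (r * r) x z := by
  intro f hf
  obtain ⟨a, b⟩ := h f hf
  obtain ⟨c, d⟩ := h' f hf
  constructor
  · calc f x ≤ r * f y := a
      _ ≤ r * (r * f z) := mul_le_mul_of_nonneg_left c hr
      _ = r * r * f z := by ring
  · calc f z ≤ r * f y := d
      _ ≤ r * (r * f x) := mul_le_mul_of_nonneg_left b hr
      _ = r * r * f x := by ring

/-- Greedy selection. -/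
lemma greedy {ι : Type} (r : ι → ι → Prop) (B : ℕ) :
    ∀ (m : ℕ) (S : Finset ι),
      (∀ x ∈ S, ∀ T ⊆ S, (∀ s ∈ T, ¬ r x s) → T.card ≤ B) → m * B < S.card →
      ∃ l : List ι, l.length = m + 1 ∧ (∀ x ∈ l, x ∈ S) ∧ l.Pairwise r := by
  classical
  intro m
  induction m with
  | zero =>
    intro S _ hS
    obtain ⟨x, hx⟩ := Finset.card_pos.mp (by omega : 0 < S.card)
    exact ⟨[x], rfl, by simpa using hx, by simp⟩
  | succ m ih =>
    intro S hB hS
    obtain ⟨x, hx⟩ := Finset.card_pos.mp (by omega : 0 < S.card)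
    have h1 : (S.filter (fun s => ¬ r x s)).card ≤ B :=
      hB x hx _ (Finset.filter_subset _ _) (fun s hs => (Finset.mem_filter.mp hs).2)
    have h2 := Finset.card_filter_add_card_filter_not (s := S) (fun s => r x s)
    obtain ⟨l, hl, hmem, hp⟩ := ih (S.filter (fun s => r x s))
      (fun y hy T hT hs => hB y (Finset.mem_filter.mp hy).1 T
        (hT.trans (Finset.filter_subset _ _)) hs)
      (by
        have : (m + 1) * B = m * B + B := by ring
        omega)
    refine ⟨x :: l, by simp [hl], ?_, ?_⟩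
    · intro y hy
      rcases List.mem_cons.mp hy with rfl | hy
      · exact hx
      · exact (Finset.mem_filter.mp (hmem y hy)).1
    · exact List.Pairwise.cons (fun y hy => (Finset.mem_filter.mp (hmem y hy)).2) hp

/-- Trees of splittings with margin `k`. -/
def Tree (C : PCone X) (k : ℝ) : ℕ → Set X → Prop
  | 0, S => S.Nonempty
  | L + 1, S => ∃ f ∈ C.F, Tree C k L (S ∩ {x | k ≤ f x}) ∧ Tree C k L (S ∩ {x | f x ≤ 1})

lemma Tree.subset {C : PCone X} {k : ℝ} :
    ∀ {L : ℕ} {S T : Set X}, Tree C k L S → S ⊆ T → Tree C k L T := by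
  intro L
  induction L with
  | zero => intro S T h hST; exact Set.Nonempty.mono hST h
  | succ L ih =>
    intro S T h hST
    obtain ⟨f, hf, h1, h2⟩ := h
    exact ⟨f, hf, ih h1 (Set.inter_subset_inter_left _ hST),
      ih h2 (Set.inter_subset_inter_left _ hST)⟩

lemma Tree.pred {C : PCone X} {k : ℝ} {L : ℕ} {S : Set X} (h : Tree C k (L + 1) S) :
    Tree C k L S := by
  obtain ⟨f, _, h1, _⟩ := h
  exact h1.subset Set.inter_subset_left

lemma Tree.of_le {C : PCone X} {k : ℝ} {L L' : ℕ} {S : Set X} (h : Tree C k L S)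
    (hL : L' ≤ L) : Tree C k L' S := by
  induction hL with
  | refl => exact h
  | step _ ih => exact ih h.pred

lemma Tree.nonempty {C : PCone X} {k : ℝ} {L : ℕ} {S : Set X} (h : Tree C k L S) :
    S.Nonempty := h.of_le (Nat.zero_le L)

/-- Lexicographic order of the leaves. -/
lemma tropical_aux {C : PCone X} {k : ℝ} :
    ∀ {L : ℕ} {S : Set X}, Tree C k L S →
      ∃ l : List (X × (X → ℝ)), l.length = 2 ^ L ∧
        (∀ p ∈ l, p.1 ∈ S ∧ p.2 ∈ C.F ∧ p.2 p.1 ≤ L + 1) ∧
        l.Pairwise (fun p q => k ≤ q.2 p.1) := by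
  intro L
  induction L with
  | zero =>
    intro S h
    obtain ⟨x, hx⟩ := h
    refine ⟨[(x, fun _ => 1)], rfl, ?_, by simp⟩
    intro p hp
    simp only [List.mem_singleton] at hp
    subst hp
    exact ⟨hx, C.one, by simp⟩
  | succ L ih =>
    intro S h
    obtain ⟨f, hf, h1, h2⟩ := h
    obtain ⟨l1, hl1, hm1, hp1⟩ := ih h1
    obtain ⟨l2, hl2, hm2, hp2⟩ := ih h2
    refine ⟨l1 ++ l2.map (fun p => (p.1, fun x => p.2 x + f x)), ?_, ?_, ?_⟩
    · simp [hl1, hl2, pow_succ]; ring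
    · intro p hp
      rcases List.mem_append.mp hp with hp | hp
      · obtain ⟨a, b, c⟩ := hm1 p hp
        refine ⟨a.1, b, ?_⟩
        push_cast; linarith only [c]
      · obtain ⟨q, hq, rfl⟩ := List.mem_map.mp hp
        obtain ⟨a, b, c⟩ := hm2 q hq
        refine ⟨a.1, C.add _ b _ hf, ?_⟩
        have : f q.1 ≤ 1 := a.2
        push_cast; linarith
    · rw [List.pairwise_append]
      refine ⟨hp1, ?_, ?_⟩
      · rw [List.pairwise_map]
        refine hp2.imp ?_
        intro p q hpq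
        have := C.pos f hf p.1
        simp only
        linarith
      · intro p hp q hq
        obtain ⟨q', hq', rfl⟩ := List.mem_map.mp hq
        have h3 : k ≤ f p.1 := (hm1 p hp).1.2
        have := C.pos _ (hm2 q' hq').2.1 p.1
        simp only
        linarith

lemma tropical {C : PCone X} {u : ℝ} (hu : 1 < u) {m L : ℕ} {S : Set X} (hb : Bound C u m)
    (h : Tree C (u ^ 4) L S) (hL : (L : ℝ) + 1 ≤ u ^ 3) : 2 ^ L ≤ m := by
  obtain ⟨l, hl, hm, hp⟩ := tropical_aux h
  have := hb (l.map (fun p => ⟨p.1, fun _ => 1, p.2⟩)) ⟨?_, ?_⟩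
  · simpa [hl] using this
  · intro t ht
    obtain ⟨p, hp', rfl⟩ := List.mem_map.mp ht
    exact ⟨C.one, (hm p hp').2.1⟩
  · rw [List.pairwise_map]
    refine List.Pairwise.imp_of_mem ?_ hp
    intro p q _ hq hpq
    unfold Rel
    simp only
    have h1 := (hm q hq).2.2
    have : u * q.2 q.1 ≤ u * u ^ 3 := mul_le_mul_of_nonneg_left (h1.trans hL) (by linarith only [hu])
    calc u * (1 * q.2 q.1) = u * q.2 q.1 := by ring
      _ ≤ u * u ^ 3 := this
      _ = u ^ 4 := by ring
      _ ≤ 1 * q.2 p.1 := by linarith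

end Pool.Agent.Work.MP_0e72ae_gt
end

-- merged part: Pool.Agent.Work.MP_0e72ae_gt.Abstract2
section
/-!
The dichotomy (balanced split or outliers) and the martingale estimate.
-/

namespace Pool.Agent.Work.MP_0e72ae_gt

open Finset

variable {X : Type}

def Sep (C : PCone X) (r : ℝ) (P : Finset X) : Prop :=
  ∀ x ∈ P, ∀ y ∈ P, x ≠ y → ¬ Close C r x y

lemma Sep.subset {C : PCone X} {r : ℝ} {P Q : Finset X} (h : Sep C r P) (hQ : Q ⊆ P) :
    Sep C r Q := fun x hx y hy => h x (hQ hx) y (hQ hy)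

open Classical in
/-- The `k`-th smallest value. -/
lemma exists_kth (P : Finset X) (f : X → ℝ) (k : ℕ) (hk1 : 1 ≤ k) (hk : k ≤ P.card) :
    ∃ x ∈ P, k ≤ (P.filter (fun s => f s ≤ f x)).card ∧
      (P.filter (fun s => f s < f x)).card < k := by
  have hP : P.Nonempty := Finset.card_pos.mp (by omega)
  obtain ⟨z, hz, hzmax⟩ := Finset.exists_max_image P f hP
  let A := P.filter (fun x => k ≤ (P.filter (fun s => f s ≤ f x)).card)
  have hA : A.Nonempty := by
    refine ⟨z, Finset.mem_filter.mpr ⟨hz, ?_⟩⟩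
    rw [Finset.filter_true_of_mem (fun s hs => hzmax s hs)]
    exact hk
  obtain ⟨x, hx, hxmin⟩ := Finset.exists_min_image A f hA
  obtain ⟨hxP, hxk⟩ := Finset.mem_filter.mp hx
  refine ⟨x, hxP, hxk, ?_⟩
  by_contra hcon
  push Not at hcon
  have hne : (P.filter (fun s => f s < f x)).Nonempty := Finset.card_pos.mp (by omega)
  obtain ⟨y, hy, hymax⟩ := Finset.exists_max_image _ f hne
  obtain ⟨hyP, hyx⟩ := Finset.mem_filter.mp hy
  have hyA : y ∈ A := by
    refine Finset.mem_filter.mpr ⟨hyP, hcon.trans (Finset.card_le_card ?_)⟩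
    intro s hs
    exact Finset.mem_filter.mpr ⟨(Finset.mem_filter.mp hs).1, hymax s hs⟩
  exact absurd (hxmin y hyA) (not_le.mpr hyx)

open Classical in
/-- Either a balanced split exists, or a long good list of outliers. -/
lemma split_exists {C : PCone X} {u : ℝ} (hu : 1 < u) {m k : ℕ} (hb : Bound C u m)
    (hk1 : 1 ≤ k) {P : Finset X} (hsep : Sep C (u ^ 6) P) (hP : 2 * k * m + k < P.card) :
    ∃ f ∈ C.F, k ≤ (P.filter (fun s => u ^ 4 ≤ f s)).card ∧
      k ≤ (P.filter (fun s => f s ≤ 1)).card := by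
  by_contra hcon
  push Not at hcon
  have hu0 : 0 < u := by linarith only [hu]
  -- windows
  have hwin : ∀ f ∈ C.F, ∃ w : ℝ, 0 < w ∧
      (P.filter (fun s => ¬ (w ≤ f s ∧ f s < u ^ 4 * w))).card ≤ 2 * k := by
    intro f hf
    obtain ⟨x, hx, h1, h2⟩ := exists_kth P f k hk1 (by linarith only [hP, mul_nonneg_of_nonpos_of_nonpos (Mathlib.Tactic.Linarith.sub_nonpos_of_le (Mathlib.Tactic.Linarith.natCast_nonneg ℤ k)) (Mathlib.Tactic.Linarith.sub_nonpos_of_le (Mathlib.Tactic.Linarith.natCast_nonneg ℤ m))])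
    have hw := C.pos f hf x
    refine ⟨f x, hw, ?_⟩
    have hg := C.smul f hf (f x)⁻¹ (inv_pos.mpr hw)
    have h3 : (P.filter (fun s => u ^ 4 ≤ (f x)⁻¹ * f s)).card < k := by
      by_contra h4
      push Not at h4
      have h5 := hcon _ hg h4
      have : (P.filter (fun s => (f x)⁻¹ * f s ≤ 1)) = P.filter (fun s => f s ≤ f x) := by
        apply Finset.filter_congr
        intro s _
        rw [inv_mul_le_iff₀ hw, mul_one]
      rw [this] at h5
      omega
    have h6 : P.filter (fun s => ¬ (f x ≤ f s ∧ f s < u ^ 4 * f x)) ⊆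
        P.filter (fun s => f s < f x) ∪ P.filter (fun s => u ^ 4 ≤ (f x)⁻¹ * f s) := by
      intro s hs
      obtain ⟨hsP, hs'⟩ := Finset.mem_filter.mp hs
      rw [Finset.mem_union, Finset.mem_filter, Finset.mem_filter]
      by_cases h7 : f s < f x
      · exact Or.inl ⟨hsP, h7⟩
      · right
        refine ⟨hsP, ?_⟩
        push Not at h7
        have h8 : u ^ 4 * f x ≤ f s := by
          by_contra h9
          exact hs' ⟨h7, not_le.mp h9⟩
        rw [le_inv_mul_iff₀ hw]
        linarith only [h8]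
    have := (Finset.card_le_card h6).trans (Finset.card_union_le _ _)
    omega
  choose! w hw0 hw using hwin
  -- outliers
  let O := P.filter (fun x => ∃ f ∈ C.F, u ^ 5 * w f < f x ∨ u * f x < w f)
  have hO : P.card ≤ O.card + 1 := by
    have h1 := Finset.card_filter_add_card_filter_not (s := P)
      (fun x => ∃ f ∈ C.F, u ^ 5 * w f < f x ∨ u * f x < w f)
    have h2 : (P.filter (fun x => ¬ ∃ f ∈ C.F, u ^ 5 * w f < f x ∨ u * f x < w f)).card ≤ 1 := by
      rw [Finset.card_le_one]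
      intro a ha b hb'
      obtain ⟨haP, ha'⟩ := Finset.mem_filter.mp ha
      obtain ⟨hbP, hb''⟩ := Finset.mem_filter.mp hb'
      by_contra hab
      apply hsep a haP b hbP hab
      push Not at ha' hb''
      intro f hf
      obtain ⟨a1, a2⟩ := ha' f hf
      obtain ⟨b1, b2⟩ := hb'' f hf
      have hu5 : 0 < u ^ 5 := by positivity
      constructor
      · calc f a ≤ u ^ 5 * w f := a1
          _ ≤ u ^ 5 * (u * f b) := mul_le_mul_of_nonneg_left b2 hu5.le
          _ = u ^ 6 * f b := by ring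
      · calc f b ≤ u ^ 5 * w f := b1
          _ ≤ u ^ 5 * (u * f a) := mul_le_mul_of_nonneg_left a2 hu5.le
          _ = u ^ 6 * f a := by ring
    show P.card ≤ (P.filter _).card + 1
    omega
  have htr : ∀ x ∈ O, ∃ t : Tr X, t.x = x ∧ t.U ∈ C.F ∧ t.W ∈ C.F ∧
      ∀ T ⊆ P, (∀ s ∈ T, ¬ u * (t.U s * t.W x) ≤ t.U x * t.W s) → T.card ≤ 2 * k := by
    intro x hx
    obtain ⟨hxP, f, hf, hfx⟩ := Finset.mem_filter.mp hx
    rcases hfx with hfx | hfx
    · refine ⟨⟨x, f, fun _ => 1⟩, rfl, hf, C.one, ?_⟩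
      intro T hT hs
      refine le_trans (Finset.card_le_card ?_) (hw f hf)
      intro s hsT
      refine Finset.mem_filter.mpr ⟨hT hsT, ?_⟩
      rintro ⟨_, h2⟩
      apply hs s hsT
      simp only
      have : u * f s ≤ u * (u ^ 4 * w f) := mul_le_mul_of_nonneg_left h2.le hu0.le
      linarith only [hfx, this]
    · refine ⟨⟨x, fun _ => 1, f⟩, rfl, C.one, hf, ?_⟩
      intro T hT hs
      refine le_trans (Finset.card_le_card ?_) (hw f hf)
      intro s hsT
      refine Finset.mem_filter.mpr ⟨hT hsT, ?_⟩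
      rintro ⟨h1, _⟩
      apply hs s hsT
      simp only
      linarith only [hfx, h1]
  obtain ⟨x0, _⟩ : P.Nonempty := Finset.card_pos.mp (by omega)
  have : Nonempty (Tr X) := ⟨⟨x0, fun _ => 1, fun _ => 1⟩⟩
  choose! t ht1 ht2 ht3 ht4 using htr
  obtain ⟨l, hl, hmem, hp⟩ := greedy (fun x s => Rel u (t s) (t x)) (2 * k) m O
    (by
      intro x hx T hT hs
      apply ht4 x hx T (hT.trans (Finset.filter_subset _ _))
      intro s hsT
      have := hs s hsT
      unfold Rel at this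
      rwa [ht1 s (hT hsT), ht1 x hx] at this)
    (by
      have : m * (2 * k) = 2 * k * m := by ring
      omega)
  have := hb (l.reverse.map t) ⟨?_, ?_⟩
  · simp [hl] at this
  · intro t' ht'
    obtain ⟨x, hx, rfl⟩ := List.mem_map.mp ht'
    have hx' := hmem x (List.mem_reverse.mp hx)
    exact ⟨ht2 x hx', ht3 x hx'⟩
  · rw [List.pairwise_map, List.pairwise_reverse]
    exact hp

open Classical in
lemma tree_of_card {C : PCone X} {u : ℝ} (hu : 1 < u) {m : ℕ} (hb : Bound C u m) :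
    ∀ (L : ℕ) (P : Finset X), Sep C (u ^ 6) P → (2 * m + 2) ^ L ≤ P.card →
      Tree C (u ^ 4) L (P : Set X) := by
  intro L
  induction L with
  | zero =>
    intro P _ hP
    have : P.Nonempty := Finset.card_pos.mp (by simpa using hP)
    exact Finset.coe_nonempty.mpr this
  | succ L ih =>
    intro P hsep hP
    have hk1 : 1 ≤ (2 * m + 2) ^ L := Nat.one_le_pow _ _ (by omega)
    obtain ⟨f, hf, h1, h2⟩ := split_exists hu hb hk1 hsep (by
      rw [pow_succ] at hP
      linarith only [hP, hk1])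
    refine ⟨f, hf, ?_, ?_⟩
    · have := ih _ (hsep.subset (Finset.filter_subset _ _)) h1
      refine this.subset ?_
      intro s hs
      simpa using hs
    · have := ih _ (hsep.subset (Finset.filter_subset _ _)) h2
      refine this.subset ?_
      intro s hs
      simpa using hs

/-- The leaves of a tree with the averaged functionals and the exponential moment bound. -/
lemma linear_aux {C : PCone X} {κ Λ θ : ℝ} (hκ : 1 ≤ κ) (hθ : 0 ≤ θ) (hκΛ : κ ≤ Λ)
    {S0 : Set X} (hS0 : ∀ x ∈ S0, ∀ y ∈ S0, Close C Λ x y) :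
    ∀ {L : ℕ} {S : Set X}, S ⊆ S0 → Tree C (κ * κ) L S →
      ∃ (ι : Type) (_ : Fintype ι) (t : ι → Tr X), Fintype.card ι = 2 ^ L ∧
        (∀ σ, (t σ).x ∈ S ∧ (t σ).U ∈ C.F ∧ (t σ).W ∈ C.F ∧
          κ * (t σ).W (t σ).x ≤ (t σ).U (t σ).x ∧
          ∀ z, κ * L ≤ (t σ).U z + (t σ).W z) ∧
        ∀ z ∈ S0, ∑ σ, Real.exp (θ * ((t σ).U z - (t σ).W z)) ≤
          Real.exp (θ * (Λ - 1)) * (2 * Real.exp ((θ * (Λ - 1)) ^ 2 / 2)) ^ L := by
  intro L
  have hκ0 : 0 < κ := by linarith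
  induction L with
  | zero =>
    intro S _ h
    obtain ⟨x, hx⟩ := h
    refine ⟨Unit, inferInstance, fun _ => ⟨x, fun _ => κ, fun _ => 1⟩, by simp, ?_, ?_⟩
    · intro σ
      refine ⟨hx, C.const hκ0, C.one, by simp, ?_⟩
      intro z
      simp only [Nat.cast_zero, mul_zero]
      linarith only [hκ]
    · intro z _
      simp only [univ_unique, sum_const, card_singleton, one_smul, pow_zero, mul_one]
      apply Real.exp_le_exp.mpr
      apply mul_le_mul_of_nonneg_left _ hθ
      linarith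
  | succ L ih =>
    intro S hS h
    obtain ⟨f, hf, h1, h2⟩ := h
    obtain ⟨xu, hxu⟩ := h1.nonempty
    obtain ⟨xd, hxd⟩ := h2.nonempty
    obtain ⟨ι1, _, t1, hc1, hm1, hs1⟩ := ih (Set.inter_subset_left.trans hS) h1
    obtain ⟨ι2, _, t2, hc2, hm2, hs2⟩ := ih (Set.inter_subset_left.trans hS) h2
    refine ⟨ι1 ⊕ ι2, inferInstance, Sum.elim
      (fun σ => ⟨(t1 σ).x, fun z => (t1 σ).U z + f z, fun z => (t1 σ).W z + κ⟩)
      (fun σ => ⟨(t2 σ).x, fun z => (t2 σ).U z + κ, fun z => (t2 σ).W z + f z⟩), ?_, ?_, ?_⟩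
    · simp [hc1, hc2, pow_succ]; ring
    · rintro (σ | σ)
      · obtain ⟨a, b, c, d, e⟩ := hm1 σ
        refine ⟨a.1, C.add _ b _ hf, C.add _ c _ (C.const hκ0), ?_, ?_⟩
        · have : κ * κ ≤ f (t1 σ).x := a.2
          simp only [Sum.elim_inl]
          linarith only [d, this]
        · intro z
          have := e z
          have := C.pos f hf z
          simp only [Sum.elim_inl]
          push_cast
          nlinarith
      · obtain ⟨a, b, c, d, e⟩ := hm2 σ
        refine ⟨a.1, C.add _ b _ (C.const hκ0), C.add _ c _ hf, ?_, ?_⟩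
        · have : f (t2 σ).x ≤ 1 := a.2
          simp only [Sum.elim_inr]
          linarith only [d, this, hκ, mul_nonneg_of_nonpos_of_nonpos (Mathlib.Tactic.Linarith.sub_nonpos_of_le hκ) (Mathlib.Tactic.Linarith.sub_nonpos_of_le this)]
        · intro z
          have := e z
          have := C.pos f hf z
          simp only [Sum.elim_inr]
          push_cast
          nlinarith
    · intro z hz
      rw [Fintype.sum_sum_type]
      simp only [Sum.elim_inl, Sum.elim_inr]
      have e1 : ∀ σ, Real.exp (θ * ((t1 σ).U z + f z - ((t1 σ).W z + κ))) =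
          Real.exp (θ * (f z - κ)) * Real.exp (θ * ((t1 σ).U z - (t1 σ).W z)) := by
        intro σ; rw [← Real.exp_add]; congr 1; ring
      have e2 : ∀ σ, Real.exp (θ * ((t2 σ).U z + κ - ((t2 σ).W z + f z))) =
          Real.exp (-(θ * (f z - κ))) * Real.exp (θ * ((t2 σ).U z - (t2 σ).W z)) := by
        intro σ; rw [← Real.exp_add]; congr 1; ring
      simp only [e1, e2, ← Finset.mul_sum]
      set B := Real.exp (θ * (Λ - 1)) * (2 * Real.exp ((θ * (Λ - 1)) ^ 2 / 2)) ^ L with hB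
      have hB0 : 0 ≤ B := by positivity
      have b1 := hs1 z hz
      have b2 := hs2 z hz
      -- bound on the increment
      have hΛ : 1 ≤ Λ := hκ.trans hκΛ
      have hup : f z ≤ Λ := by
        have := (hS0 z hz xd (hS hxd.1) f hf).1
        have h3 : f xd ≤ 1 := hxd.2
        linarith only [this, h3, hκ, hκΛ, mul_nonneg_of_nonpos_of_nonpos (Mathlib.Tactic.Linarith.sub_nonpos_of_le hκ) (Mathlib.Tactic.Linarith.sub_nonpos_of_le h3), mul_nonneg_of_nonpos_of_nonpos (Mathlib.Tactic.Linarith.sub_nonpos_of_le hκΛ) (Mathlib.Tactic.Linarith.sub_nonpos_of_le h3)]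
      have hlow : κ * κ ≤ Λ * f z := by
        have := (hS0 z hz xu (hS hxu.1) f hf).2
        have h3 : κ * κ ≤ f xu := hxu.2
        linarith only [this, h3]
      have habs : |f z - κ| ≤ Λ - 1 := by
        rw [abs_le]
        constructor
        · -- κ - f z ≤ Λ - 1
          have hΛ0 : 0 < Λ := by linarith only [hκ, hκΛ]
          by_contra hcon
          push Not at hcon
          have h4 : f z < κ - Λ + 1 := by linarith only [hcon]
          have h5 : Λ * f z < Λ * (κ - Λ + 1) := mul_lt_mul_of_pos_left h4 hΛ0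
          linarith only [hκ, hlow, h5, hκΛ, mul_nonneg_of_nonpos_of_nonpos (Mathlib.Tactic.Linarith.sub_nonpos_of_le hκ) (Mathlib.Tactic.Linarith.sub_nonpos_of_le hκ), mul_nonneg_of_nonpos_of_nonpos (Mathlib.Tactic.Linarith.sub_nonpos_of_le hκ) (Mathlib.Tactic.Linarith.sub_nonpos_of_le hκΛ), mul_nonneg_of_nonpos_of_nonpos (Mathlib.Tactic.Linarith.sub_nonpos_of_le hκΛ) (Mathlib.Tactic.Linarith.sub_nonpos_of_le hκΛ)]
        · linarith only [hκ, hup]
      have hsq : (θ * (f z - κ)) ^ 2 ≤ (θ * (Λ - 1)) ^ 2 := by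
        rw [mul_pow, mul_pow]
        apply mul_le_mul_of_nonneg_left _ (sq_nonneg θ)
        exact sq_le_sq' (by linarith only [habs, (abs_le.mp habs).1]) (abs_le.mp habs).2
      have hcosh := Real.cosh_le_exp_half_sq (θ * (f z - κ))
      rw [Real.cosh_eq] at hcosh
      have hexp : Real.exp ((θ * (f z - κ)) ^ 2 / 2) ≤ Real.exp ((θ * (Λ - 1)) ^ 2 / 2) :=
        Real.exp_le_exp.mpr (by linarith only [hsq])
      have p1 := Real.exp_pos (θ * (f z - κ))
      have p2 := Real.exp_pos (-(θ * (f z - κ)))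
      calc Real.exp (θ * (f z - κ)) * ∑ σ, Real.exp (θ * ((t1 σ).U z - (t1 σ).W z)) +
            Real.exp (-(θ * (f z - κ))) * ∑ σ, Real.exp (θ * ((t2 σ).U z - (t2 σ).W z))
          ≤ Real.exp (θ * (f z - κ)) * B + Real.exp (-(θ * (f z - κ))) * B := by
            gcongr
        _ = (Real.exp (θ * (f z - κ)) + Real.exp (-(θ * (f z - κ)))) * B := by ring
        _ ≤ (2 * Real.exp ((θ * (Λ - 1)) ^ 2 / 2)) * B := by
            apply mul_le_mul_of_nonneg_right _ hB0
            linarith only [hcosh, hexp]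
        _ = _ := by rw [hB, pow_succ]; ring

end Pool.Agent.Work.MP_0e72ae_gt
end

-- merged part: Pool.Agent.Work.MP_0e72ae_gt.Abstract3
section
/-!
Depth bound, local bound, localisation and the abstract theorem.
-/

namespace Pool.Agent.Work.MP_0e72ae_gt

open Finset

variable {X : Type}

lemma pow_sub_one_le (u : ℝ) (hu : 1 ≤ u) (n : ℕ) : u ^ n - 1 ≤ n * u ^ n * (u - 1) := by
  induction n with
  | zero => simp
  | succ n ih =>
    have h1 : 1 ≤ u ^ n := one_le_pow₀ hu
    have h2 : u ^ (n + 1) - 1 = u * (u ^ n - 1) + (u - 1) := by ring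
    have h3 : u * (u ^ n - 1) ≤ u * (n * u ^ n * (u - 1)) :=
      mul_le_mul_of_nonneg_left ih (by linarith)
    have h4 : (u - 1) ≤ u ^ (n + 1) * (u - 1) := by
      have : 1 ≤ u ^ (n + 1) := one_le_pow₀ hu
      linarith only [hu, this, mul_nonneg_of_nonpos_of_nonpos (Mathlib.Tactic.Linarith.sub_nonpos_of_le hu) (Mathlib.Tactic.Linarith.sub_nonpos_of_le this)]
    push_cast
    calc u ^ (n + 1) - 1 ≤ u * (n * u ^ n * (u - 1)) + u ^ (n + 1) * (u - 1) := by linarith only [h2, h3, h4]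
      _ = (n + 1) * u ^ (n + 1) * (u - 1) := by ring

lemma linear {C : PCone X} {u : ℝ} (hu : 1 < u) {m L : ℕ} (hm : 1 ≤ m) (hb : Bound C u m)
    {S : Set X} (hS : ∀ x ∈ S, ∀ y ∈ S, Close C (u ^ 24) x y) (h : Tree C (u ^ 4) L S) :
    (L : ℝ) ≤ 4608 * u ^ 48 * (1 + Real.log m) := by
  classical
  have hu0 : 0 < u := by linarith only [hu]
  set Δ := u ^ 24 - 1 with hΔ
  have hΔu : u - 1 ≤ Δ := by
    have : u ≤ u ^ 24 := le_self_pow₀ hu.le (by norm_num)
    linarith
  have hΔ0 : 0 < Δ := by linarith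
  set δ := (u - 1) / 2 with hδ
  have hδ0 : 0 < δ := by rw [hδ]; linarith only [hu]
  set r := δ / Δ with hr
  have hr0 : 0 < r := div_pos hδ0 hΔ0
  have hr1 : r ≤ 1 := by rw [hr, div_le_one hΔ0]; linarith only [hu, hΔu, hδ]
  set θ := δ / Δ ^ 2 with hθ
  have hθ0 : 0 ≤ θ := by positivity
  have hθΔ : θ * Δ = r := by rw [hθ, hr]; field_simp
  have hθδ : θ * δ = r ^ 2 := by rw [hθ, hr]; field_simp
  clear_value θ r δ Δ
  have h' : Tree C (u ^ 2 * u ^ 2) L S := by
    have : u ^ 2 * u ^ 2 = u ^ 4 := by ring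
    rwa [this]
  obtain ⟨ι, _, t, hc, hmem, hsum⟩ := linear_aux (κ := u ^ 2) (Λ := u ^ 24) (θ := θ)
    (one_le_pow₀ hu.le) hθ0 (pow_le_pow_right₀ hu.le (by norm_num)) hS subset_rfl h'
  rw [← hΔ, hθΔ] at hsum
  set E := Real.exp (1 - L * r ^ 2 / 2) with hE
  have hE0 : 0 < E := Real.exp_pos _
  clear_value E
  have key : 1 ≤ m * E := by
    by_contra hcon
    push Not at hcon
    obtain ⟨l, hl, _, hp⟩ := greedy (fun τ σ => Rel u (t τ) (t σ)) ⌊(2 : ℝ) ^ L * E⌋₊ m
      (Finset.univ : Finset ι)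
      (by
        intro τ _ T _ hT
        apply Nat.le_floor
        set z := (t τ).x with hz
        have hzS : z ∈ S := (hmem τ).1
        clear_value z
        have h1 : ∀ σ ∈ T, Real.exp (r ^ 2 * L) ≤ Real.exp (θ * ((t σ).U z - (t σ).W z)) := by
          intro σ hσ
          apply Real.exp_le_exp.mpr
          have hbad := hT σ hσ
          unfold Rel at hbad
          push Not at hbad
          obtain ⟨_, hU, hW, hrat, hsm⟩ := hmem σ
          have hsm' := hsm z
          have p1 := C.pos _ hU z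
          have p2 := C.pos _ hW z
          have p3 := C.pos _ hW (t σ).x
          rw [← hz] at hbad
          have h2 : u * (t σ).W z < (t σ).U z := by
            have h3 : u ^ 2 * (t σ).W (t σ).x * (t σ).W z ≤ (t σ).U (t σ).x * (t σ).W z :=
              mul_le_mul_of_nonneg_right hrat p2.le
            have h4 : u * (t σ).W (t σ).x * (u * (t σ).W z) <
                u * (t σ).W (t σ).x * (t σ).U z := by linarith only [h3, hbad]
            exact lt_of_mul_lt_mul_left h4 (mul_pos hu0 p3).le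
          have hL0 : (0 : ℝ) ≤ L := Nat.cast_nonneg L
          have h5 : δ * L ≤ (t σ).U z - (t σ).W z := by
            have h6 : (u - 1) * ((t σ).U z + (t σ).W z) ≤ (u + 1) * ((t σ).U z - (t σ).W z) := by
              linarith only [h2]
            have h7 : (u - 1) * (u ^ 2 * L) ≤ (u - 1) * ((t σ).U z + (t σ).W z) :=
              mul_le_mul_of_nonneg_left hsm' (by linarith only [hu])
            have h8 : (u + 1) * (δ * L) ≤ (u - 1) * (u ^ 2 * L) := by
              rw [hδ]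
              have : 0 ≤ (u - 1) * L * (2 * u ^ 2 - u - 1) := by
                apply mul_nonneg (mul_nonneg (by linarith only [hu]) hL0)
                linarith only [hu, mul_le_mul_of_nonneg_left hu.le hu0.le]
              linarith only [this]
            have h9 : (u + 1) * (δ * L) ≤ (u + 1) * ((t σ).U z - (t σ).W z) := by linarith only [h2, h7, h8]
            exact le_of_mul_le_mul_left h9 (by linarith only [hu])
          calc r ^ 2 * L = θ * (δ * L) := by rw [← hθδ]; ring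
            _ ≤ _ := mul_le_mul_of_nonneg_left h5 hθ0
        have h2 : (T.card : ℝ) * Real.exp (r ^ 2 * L) ≤
            Real.exp r * (2 * Real.exp (r ^ 2 / 2)) ^ L := by
          calc (T.card : ℝ) * Real.exp (r ^ 2 * L) = ∑ _σ ∈ T, Real.exp (r ^ 2 * L) := by
                simp
            _ ≤ ∑ σ ∈ T, Real.exp (θ * ((t σ).U z - (t σ).W z)) := Finset.sum_le_sum h1
            _ ≤ ∑ σ, Real.exp (θ * ((t σ).U z - (t σ).W z)) :=
                Finset.sum_le_sum_of_subset_of_nonneg (Finset.subset_univ _)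
                  (fun _ _ _ => (Real.exp_pos _).le)
            _ ≤ _ := hsum z hzS
        have h3 : Real.exp r * (2 * Real.exp (r ^ 2 / 2)) ^ L ≤
            (2 ^ L * E) * Real.exp (r ^ 2 * L) := by
          rw [mul_pow, ← Real.exp_nat_mul, hE]
          have : Real.exp r * Real.exp (L * (r ^ 2 / 2)) ≤
              Real.exp (1 - L * r ^ 2 / 2) * Real.exp (r ^ 2 * L) := by
            rw [← Real.exp_add, ← Real.exp_add]
            apply Real.exp_le_exp.mpr
            linarith only [hr1]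
          have h2L : (0 : ℝ) < 2 ^ L := by positivity
          linarith only [mul_le_mul_of_nonneg_left this h2L.le]
        exact le_of_mul_le_mul_right (h2.trans h3) (Real.exp_pos _))
      (by
        rw [Finset.card_univ, hc]
        have h1 : (⌊(2 : ℝ) ^ L * E⌋₊ : ℝ) ≤ 2 ^ L * E := Nat.floor_le (by positivity)
        have h2L : (0 : ℝ) < 2 ^ L := by positivity
        have h2 : (m : ℝ) * ⌊(2 : ℝ) ^ L * E⌋₊ < 2 ^ L := by
          calc (m : ℝ) * ⌊(2 : ℝ) ^ L * E⌋₊ ≤ m * (2 ^ L * E) :=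
                mul_le_mul_of_nonneg_left h1 (Nat.cast_nonneg m)
            _ = 2 ^ L * (m * E) := by ring
            _ < 2 ^ L * 1 := mul_lt_mul_of_pos_left hcon h2L
            _ = 2 ^ L := by ring
        exact_mod_cast h2)
    have := hb (l.map t) ⟨?_, ?_⟩
    · simp [hl] at this
    · intro t' ht'
      obtain ⟨σ, _, rfl⟩ := List.mem_map.mp ht'
      exact ⟨(hmem σ).2.1, (hmem σ).2.2.1⟩
    · rw [List.pairwise_map]; exact hp
  have hm0 : (0 : ℝ) < m := by exact_mod_cast hm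
  have h1 : 0 ≤ Real.log (m * E) := Real.log_nonneg key
  rw [Real.log_mul hm0.ne' hE0.ne', hE, Real.log_exp] at h1
  have hlog : 0 ≤ Real.log m := Real.log_nonneg (by exact_mod_cast hm)
  have h2 : 1 ≤ 48 * u ^ 24 * r := by
    have h3 := pow_sub_one_le u hu.le 24
    rw [hr, ← mul_div_assoc, le_div_iff₀ hΔ0, hδ]
    push_cast at h3
    linarith only [hΔ, h3]
  have h4 : 1 ≤ 2304 * u ^ 48 * r ^ 2 := by
    have : 2304 * u ^ 48 * r ^ 2 = (48 * u ^ 24 * r) ^ 2 := by ring
    rw [this]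
    exact one_le_pow₀ h2
  have hL0 : (0 : ℝ) ≤ L := Nat.cast_nonneg L
  have hu48 : 0 < u ^ 48 := by positivity
  calc (L : ℝ) ≤ L * (2304 * u ^ 48 * r ^ 2) := le_mul_of_one_le_right hL0 h4
    _ = 4608 * u ^ 48 * (L * r ^ 2 / 2) := by ring
    _ ≤ 4608 * u ^ 48 * (1 + Real.log m) := by
        apply mul_le_mul_of_nonneg_left _ (by positivity)
        linarith only [h1]

lemma le_two_log {L m : ℕ} (h : 2 ^ L ≤ m) : (L : ℝ) ≤ 2 * Real.log m := by
  have h1 : ((2 : ℝ)) ^ L ≤ m := by exact_mod_cast h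
  have h2 := Real.log_le_log (by positivity) h1
  rw [Real.log_pow] at h2
  have h3 : (1 : ℝ) / 2 ≤ Real.log 2 := by
    have := Real.log_two_gt_d9
    linarith only [this]
  have hL0 : (0 : ℝ) ≤ L := Nat.cast_nonneg L
  linarith only [h2, h3, mul_nonneg_of_nonpos_of_nonpos (Mathlib.Tactic.Linarith.sub_nonpos_of_le (Mathlib.Tactic.Linarith.natCast_nonneg ℝ L)) (Mathlib.Tactic.Linarith.sub_nonpos_of_le h3)]

lemma depth_bound {C : PCone X} {u : ℝ} (hu : 1 < u) {m L : ℕ} (hm : 1 ≤ m) (hb : Bound C u m)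
    {S : Set X} (hS : ∀ x ∈ S, ∀ y ∈ S, Close C (u ^ 24) x y) (h : Tree C (u ^ 4) L S) :
    (L : ℝ) ≤ 4608 * 2 ^ 16 * (1 + Real.log m) ^ 17 := by
  have hlog : 0 ≤ Real.log m := Real.log_nonneg (by exact_mod_cast hm)
  set ℓ := 1 + Real.log m with hℓ
  have hℓ1 : 1 ≤ ℓ := by linarith only [hlog]
  by_cases hL : (L : ℝ) + 1 ≤ u ^ 3
  · have h1 := le_two_log (tropical hu hb h hL)
    have h2 : ℓ ≤ ℓ ^ 17 := le_self_pow₀ hℓ1 (by norm_num)
    linarith only [hlog, h1, h2]
  · push Not at hL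
    have hu3 : 1 ≤ u ^ 3 := one_le_pow₀ hu.le
    have hf1 : 1 ≤ ⌊u ^ 3⌋₊ := Nat.le_floor (by simpa using hu3)
    have hf2 : (⌊u ^ 3⌋₊ : ℝ) ≤ u ^ 3 := Nat.floor_le (by linarith only [hu3])
    have hf3 : u ^ 3 < ⌊u ^ 3⌋₊ + 1 := Nat.lt_floor_add_one _
    obtain ⟨L', hL'⟩ : ∃ L', ⌊u ^ 3⌋₊ = L' + 1 := ⟨⌊u ^ 3⌋₊ - 1, by omega⟩
    rw [hL'] at hf2 hf3
    push_cast at hf2 hf3
    have hLL : L' ≤ L := by
      have : (L' : ℝ) < L := by linarith only [hL, hf2]
      exact_mod_cast this.le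
    have h1 := le_two_log (tropical hu hb (h.of_le hLL) hf2)
    have h2 : u ^ 3 ≤ 2 * ℓ := by linarith only [hf3, h1]
    have h3 : u ^ 48 ≤ (2 * ℓ) ^ 16 := by
      have : u ^ 48 = (u ^ 3) ^ 16 := by ring
      rw [this]
      exact pow_le_pow_left₀ (by linarith only [hu3]) h2 16
    have h4 := linear hu hm hb hS h
    calc (L : ℝ) ≤ 4608 * u ^ 48 * ℓ := h4
      _ ≤ 4608 * (2 * ℓ) ^ 16 * ℓ := by gcongr
      _ = 4608 * 2 ^ 16 * ℓ ^ 17 := by ring

/-- The local bound. -/
noncomputable def Nloc (m : ℕ) : ℕ :=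
  (2 * m + 2) ^ (⌊(4608 * 2 ^ 16 * (1 + Real.log m) ^ 17 : ℝ)⌋₊ + 1)

lemma local_bound {C : PCone X} {u : ℝ} (hu : 1 < u) {m : ℕ} (hm : 1 ≤ m) (hb : Bound C u m)
    {P : Finset X} (hsep : Sep C (u ^ 6) P) (hS : ∀ x ∈ P, ∀ y ∈ P, Close C (u ^ 24) x y) :
    P.card ≤ Nloc m := by
  by_contra hcon
  push Not at hcon
  have h1 := tree_of_card hu hb _ P hsep hcon.le
  have h2 := depth_bound hu hm hb (S := (P : Set X)) hS h1
  have h3 := Nat.lt_floor_add_one (4608 * 2 ^ 16 * (1 + Real.log m) ^ 17 : ℝ)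
  push_cast at h2
  linarith only [h3, h2]

lemma chain {C : PCone X} {u : ℝ} (hu : 1 < u) {m : ℕ} (hb : Bound C u m)
    (ivt : ∀ f ∈ C.F, ∀ x y v, f y ≤ v → v ≤ f x → ∃ p, f p = v) (x y : X) :
    Close C (u ^ m) x y := by
  have key : ∀ x y : X, ∀ f ∈ C.F, f x ≤ u ^ m * f y := by
    intro x y f hf
    by_contra hcon
    push Not at hcon
    have hy := C.pos f hf y
    have h1 : ∀ j : ℕ, j ≤ m → ∃ p, f p = u ^ j * f y := by
      intro j hj
      apply ivt f hf x y
      · have : 1 ≤ u ^ j := one_le_pow₀ hu.le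
        linarith only [hy, this, mul_nonneg_of_nonpos_of_nonpos (le_of_lt (Mathlib.Tactic.Linarith.sub_neg_of_lt hy)) (Mathlib.Tactic.Linarith.sub_nonpos_of_le this)]
      · have : u ^ j ≤ u ^ m := pow_le_pow_right₀ hu.le hj
        linarith only [hcon, hy, this, mul_nonneg_of_nonpos_of_nonpos (le_of_lt (Mathlib.Tactic.Linarith.sub_neg_of_lt hy)) (Mathlib.Tactic.Linarith.sub_nonpos_of_le this)]
    have : Nonempty X := ⟨x⟩
    choose! p hp using h1
    have := hb ((List.range (m + 1)).map (fun j => ⟨p j, f, fun _ => 1⟩)) ⟨?_, ?_⟩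
    · simp at this
    · intro t ht
      obtain ⟨j, _, rfl⟩ := List.mem_map.mp ht
      exact ⟨hf, C.one⟩
    · rw [List.pairwise_map]
      refine List.Pairwise.imp_of_mem ?_ List.pairwise_lt_range
      intro i j hi hj hij
      have hi' : i ≤ m := by have := List.mem_range.mp hi; omega
      have hj' : j ≤ m := by have := List.mem_range.mp hj; omega
      unfold Rel
      simp only
      rw [hp i hi', hp j hj']
      have : u ^ (i + 1) ≤ u ^ j := pow_le_pow_right₀ hu.le hij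
      have h2 : u ^ (i + 1) * f y ≤ u ^ j * f y := mul_le_mul_of_nonneg_right this hy.le
      calc u * (u ^ i * f y * 1) = u ^ (i + 1) * f y := by ring
        _ ≤ u ^ j * f y := h2
        _ = u ^ j * f y * 1 := by ring
  intro f hf
  exact ⟨key x y f hf, key y x f hf⟩

lemma localise {C : PCone X} {u : ℝ} (hu : 1 < u) {m : ℕ} (hm : 1 ≤ m) (hb : Bound C u m) :
    ∀ (i : ℕ) (v : ℝ), u ≤ v → ∀ P : Finset X, Sep C (v ^ 6) P →
      (∀ x ∈ P, ∀ y ∈ P, Close C (v ^ (6 * 2 ^ i)) x y) → P.card ≤ Nloc m ^ i := by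
  classical
  intro i
  induction i with
  | zero =>
    intro v _ P hsep hcl
    rw [pow_zero, Finset.card_le_one]
    intro a ha b hb'
    by_contra hab
    exact hsep a ha b hb' hab (by simpa using hcl a ha b hb')
  | succ i ih =>
    intro v hv P hsep hcl
    have hv1 : 1 < v := lt_of_lt_of_le hu hv
    -- a maximal separated subset at the doubled scale
    obtain ⟨Q, hQ, hQmax⟩ := Finset.exists_max_image
      (P.powerset.filter (fun Q => Sep C ((v ^ 2) ^ 6) Q)) Finset.card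
      ⟨∅, Finset.mem_filter.mpr ⟨Finset.empty_mem_powerset _, by intro x hx; simp at hx⟩⟩
    obtain ⟨hQP, hQsep⟩ := Finset.mem_filter.mp hQ
    rw [Finset.mem_powerset] at hQP
    have hv12 : 1 ≤ (v ^ 2) ^ 6 := one_le_pow₀ (one_le_pow₀ hv1.le)
    have hcover : ∀ x ∈ P, ∃ q ∈ Q, Close C ((v ^ 2) ^ 6) x q := by
      intro x hx
      by_contra hcon
      push Not at hcon
      have hxQ : x ∉ Q := fun h => hcon x h (Close.refl C hv12 x)
      have h1 : insert x Q ∈ P.powerset.filter (fun Q => Sep C ((v ^ 2) ^ 6) Q) := by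
        refine Finset.mem_filter.mpr ⟨Finset.mem_powerset.mpr (Finset.insert_subset hx hQP), ?_⟩
        intro a ha b hb' hab
        rcases Finset.mem_insert.mp ha with rfl | ha'
        · rcases Finset.mem_insert.mp hb' with rfl | hb''
          · exact absurd rfl hab
          · exact hcon b hb''
        · rcases Finset.mem_insert.mp hb' with rfl | hb''
          · exact fun h => hcon a ha' h.symm
          · exact hQsep a ha' b hb'' hab
      have := hQmax _ h1
      rw [Finset.card_insert_of_notMem hxQ] at this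
      omega
    have hQcard : Q.card ≤ Nloc m ^ i := by
      apply ih (v ^ 2) (hv.trans (le_self_pow₀ hv1.le (by norm_num))) Q hQsep
      intro x hx y hy
      have := hcl x (hQP hx) y (hQP hy)
      have e : (v ^ 2) ^ (6 * 2 ^ i) = v ^ (6 * 2 ^ (i + 1)) := by
        rw [← pow_mul]; congr 1; ring
      rwa [e]
    have hsub : P ⊆ Q.biUnion (fun q => P.filter (fun x => Close C ((v ^ 2) ^ 6) x q)) := by
      intro x hx
      obtain ⟨q, hq, hxq⟩ := hcover x hx
      exact Finset.mem_biUnion.mpr ⟨q, hq, Finset.mem_filter.mpr ⟨hx, hxq⟩⟩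
    have hcl' : ∀ q ∈ Q, (P.filter (fun x => Close C ((v ^ 2) ^ 6) x q)).card ≤ Nloc m := by
      intro q _
      apply local_bound hv1 hm (hb.mono hv) (hsep.subset (Finset.filter_subset _ _))
      intro x hx y hy
      have := Close.trans (by positivity) (Finset.mem_filter.mp hx).2
        (Finset.mem_filter.mp hy).2.symm
      have e : (v ^ 2) ^ 6 * (v ^ 2) ^ 6 = v ^ 24 := by ring
      rwa [e] at this
    calc P.card ≤ _ := Finset.card_le_card hsub
      _ ≤ Q.card * Nloc m := Finset.card_biUnion_le_card_mul _ _ _ hcl'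
      _ ≤ Nloc m ^ i * Nloc m := Nat.mul_le_mul_right _ hQcard
      _ = Nloc m ^ (i + 1) := by ring

/-- The abstract theorem. -/
theorem abstract_bound {C : PCone X} {u : ℝ} (hu : 1 < u) {m : ℕ} (hm : 1 ≤ m)
    (hb : Bound C u m) (ivt : ∀ f ∈ C.F, ∀ x y v, f y ≤ v → v ≤ f x → ∃ p, f p = v)
    {P : Finset X} (hsep : Sep C (u ^ 6) P) :
    (P.card : ℝ) ≤ Real.exp (2 ^ 31 * (1 + Real.log m) ^ 19) := by
  have hlog : 0 ≤ Real.log m := Real.log_nonneg (by exact_mod_cast hm)
  set ℓ := 1 + Real.log m with hℓ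
  have hℓ1 : 1 ≤ ℓ := by linarith only [hlog]
  set J := Nat.log 2 m + 1 with hJ
  have hJm : m < 2 ^ J := Nat.lt_pow_succ_log_self (by norm_num) m
  have h1 : P.card ≤ Nloc m ^ J := by
    apply localise hu hm hb J u le_rfl P hsep
    intro x _ y _
    exact (chain hu hb ivt x y).mono (pow_le_pow_right₀ hu.le (by omega))
  have hJ2 : (J : ℝ) ≤ 2 * ℓ := by
    have := le_two_log (Nat.pow_log_le_self 2 (by omega : m ≠ 0))
    rw [hJ]; push_cast; linarith only [this]
  set L0 := ⌊(4608 * 2 ^ 16 * ℓ ^ 17 : ℝ)⌋₊ with hL0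
  have hL : ((L0 + 1 : ℕ) : ℝ) ≤ 2 ^ 29 * ℓ ^ 17 := by
    have h2 : (L0 : ℝ) ≤ 4608 * 2 ^ 16 * ℓ ^ 17 := Nat.floor_le (by positivity)
    have h3 : 1 ≤ ℓ ^ 17 := one_le_pow₀ hℓ1
    push_cast
    linarith only [h2, h3]
  have hm0 : (0 : ℝ) < m := by exact_mod_cast hm
  have hm1 : (1 : ℝ) ≤ m := by exact_mod_cast hm
  have hbase : ((2 * m + 2 : ℕ) : ℝ) ≤ Real.exp (2 * ℓ) := by
    have h4 : Real.exp (2 * ℓ) = Real.exp 2 * (m * m) := by
      rw [hℓ, mul_add, Real.exp_add, two_mul (Real.log m), Real.exp_add, Real.exp_log hm0, mul_one]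
    have h5 : (4 : ℝ) ≤ Real.exp 2 := by
      have := Real.add_one_le_exp (1 : ℝ)
      have e : Real.exp 2 = Real.exp 1 * Real.exp 1 := by rw [← Real.exp_add]; norm_num
      linarith only [this, e, mul_nonneg_of_nonpos_of_nonpos (Mathlib.Tactic.Linarith.sub_nonpos_of_le this) (Mathlib.Tactic.Linarith.sub_nonpos_of_le this)]
    rw [h4]; push_cast
    linarith only [hm1, h5, mul_nonneg_of_nonpos_of_nonpos (Mathlib.Tactic.Linarith.sub_nonpos_of_le (mul_self_nonneg ↑m)) (Mathlib.Tactic.Linarith.sub_nonpos_of_le h5), mul_nonneg_of_nonpos_of_nonpos (Mathlib.Tactic.Linarith.sub_nonpos_of_le (Mathlib.Tactic.Linarith.natCast_nonneg ℝ m)) (Mathlib.Tactic.Linarith.sub_nonpos_of_le hm1)]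
  have h6 : (Nloc m : ℝ) ≤ Real.exp (2 ^ 30 * ℓ ^ 18) := by
    unfold Nloc
    rw [← hℓ, ← hL0, Nat.cast_pow]
    calc ((2 * m + 2 : ℕ) : ℝ) ^ (L0 + 1) ≤ Real.exp (2 * ℓ) ^ (L0 + 1) :=
          pow_le_pow_left₀ (Nat.cast_nonneg _) hbase _
      _ = Real.exp (((L0 + 1 : ℕ) : ℝ) * (2 * ℓ)) := (Real.exp_nat_mul _ _).symm
      _ ≤ _ := by
          apply Real.exp_le_exp.mpr
          calc ((L0 + 1 : ℕ) : ℝ) * (2 * ℓ) ≤ 2 ^ 29 * ℓ ^ 17 * (2 * ℓ) :=
                mul_le_mul_of_nonneg_right hL (by linarith only [hlog])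
            _ = 2 ^ 30 * ℓ ^ 18 := by ring
  calc (P.card : ℝ) ≤ ((Nloc m ^ J : ℕ) : ℝ) := by exact_mod_cast h1
    _ = (Nloc m : ℝ) ^ J := Nat.cast_pow _ _
    _ ≤ Real.exp (2 ^ 30 * ℓ ^ 18) ^ J := pow_le_pow_left₀ (Nat.cast_nonneg _) h6 _
    _ = Real.exp (J * (2 ^ 30 * ℓ ^ 18)) := (Real.exp_nat_mul _ _).symm
    _ ≤ _ := by
        apply Real.exp_le_exp.mpr
        calc (J : ℝ) * (2 ^ 30 * ℓ ^ 18) ≤ 2 * ℓ * (2 ^ 30 * ℓ ^ 18) :=
              mul_le_mul_of_nonneg_right hJ2 (by positivity)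
          _ = 2 ^ 31 * ℓ ^ 19 := by ring

end Pool.Agent.Work.MP_0e72ae_gt
end

-- merged part: Pool.Agent.Work.MP_0e72ae_gt.Geo
section
/-!
Basic facts on the Funk and Hilbert distance, finiteness of the packing numbers.
-/

namespace Pool.Agent.Work.MP_0e72ae_gt

open scoped RealInnerProductSpace
open Set

variable {d : ℕ}

lemma fy_nonneg {K : Set (E d)} {y x : E d} (hy : y ∈ polarBody K) (hx : x ∈ K) : 0 ≤ fy y x := by
  have := hy x hx
  unfold fy
  rw [real_inner_comm]
  linarith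

lemma fy_zero_left (x : E d) : fy 0 x = 1 := by simp [fy]

lemma fy_zero_right (y : E d) : fy y 0 = 1 := by simp [fy]

lemma zero_mem_polar (K : Set (E d)) : (0 : E d) ∈ polarBody K := by
  intro x _; simp

lemma fy_comb (y a b : E d) (s t : ℝ) (h : s + t = 1) :
    fy y (s • a + t • b) = s * fy y a + t * fy y b := by
  unfold fy
  rw [inner_add_right, inner_smul_right, inner_smul_right]
  linear_combination -h

/-- From an interior point one can move a little further in any direction. -/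
lemma exists_extend {K : Set (E d)} {x₂ : E d} (h : x₂ ∈ interior K) (x₁ : E d) :
    ∃ ε : ℝ, 0 < ε ∧ (1 + ε) • x₂ + (-ε) • x₁ ∈ K := by
  have hc : Continuous (fun ε : ℝ => (1 + ε) • x₂ + (-ε) • x₁) := by fun_prop
  have h0 : (fun ε : ℝ => (1 + ε) • x₂ + (-ε) • x₁) 0 ∈ interior K := by simpa using h
  have := hc.continuousAt.preimage_mem_nhds (isOpen_interior.mem_nhds h0)
  obtain ⟨r, hr, hball⟩ := Metric.mem_nhds_iff.mp this
  refine ⟨r / 2, by linarith only [hr], interior_subset (hball ?_)⟩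
  rw [Metric.mem_ball, Real.dist_eq, sub_zero, abs_of_pos (by linarith)]
  linarith

lemma fy_pos {K : Set (E d)} {y x : E d} (hy : y ∈ polarBody K) (hx : x ∈ interior K) :
    0 < fy y x := by
  obtain ⟨ε, hε, h⟩ := exists_extend hx 0
  have h1 := fy_nonneg hy h
  rw [fy_comb _ _ _ _ _ (by ring), fy_zero_right] at h1
  by_contra hcon
  push Not at hcon
  linarith only [hε, h1, hcon, mul_nonneg_of_nonpos_of_nonpos (le_of_lt (Mathlib.Tactic.Linarith.sub_neg_of_lt hε)) (Mathlib.Tactic.Linarith.sub_nonpos_of_le hcon)]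

lemma funk_bdd {K : Set (E d)} {x₁ x₂ : E d} (h₁ : x₁ ∈ interior K) (h₂ : x₂ ∈ interior K) :
    BddAbove ((fun y => Real.log (fy y x₁ / fy y x₂)) '' polarBody K) := by
  obtain ⟨ε, hε, h⟩ := exists_extend h₂ x₁
  refine ⟨Real.log ((1 + ε) / ε), ?_⟩
  rintro _ ⟨y, hy, rfl⟩
  have p1 := fy_pos hy h₁
  have p2 := fy_pos hy h₂
  have h1 := fy_nonneg hy h
  rw [fy_comb _ _ _ _ _ (by ring)] at h1
  apply Real.log_le_log (div_pos p1 p2)
  rw [div_le_div_iff₀ p2 hε]
  linarith

lemma le_funk {K : Set (E d)} {x₁ x₂ y : E d} (h₁ : x₁ ∈ interior K) (h₂ : x₂ ∈ interior K)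
    (hy : y ∈ polarBody K) : Real.log (fy y x₁ / fy y x₂) ≤ funk K x₁ x₂ :=
  le_csSup (funk_bdd h₁ h₂) ⟨y, hy, rfl⟩

lemma funk_nonneg {K : Set (E d)} {x₁ x₂ : E d} (h₁ : x₁ ∈ interior K) (h₂ : x₂ ∈ interior K) :
    0 ≤ funk K x₁ x₂ := by
  have := le_funk h₁ h₂ (zero_mem_polar K)
  simpa [fy_zero_left] using this

lemma funk_le {K : Set (E d)} {x₁ x₂ : E d} (h₁ : x₁ ∈ interior K) (h₂ : x₂ ∈ interior K)
    {r : ℝ} (h : ∀ y ∈ polarBody K, fy y x₁ ≤ r * fy y x₂) : funk K x₁ x₂ ≤ Real.log r := by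
  apply csSup_le (Set.Nonempty.image _ ⟨0, zero_mem_polar K⟩)
  rintro _ ⟨y, hy, rfl⟩
  have p1 := fy_pos hy h₁
  have p2 := fy_pos hy h₂
  apply Real.log_le_log (div_pos p1 p2)
  rw [div_le_iff₀ p2]
  exact h y hy

lemma hilbertDist_nonneg {K : Set (E d)} {x₁ x₂ : E d} (h₁ : x₁ ∈ interior K)
    (h₂ : x₂ ∈ interior K) : 0 ≤ hilbertDist K x₁ x₂ := by
  unfold hilbertDist
  have := funk_nonneg h₁ h₂
  have := funk_nonneg h₂ h₁
  linarith

lemma hilbertDist_comm (K : Set (E d)) (x₁ x₂ : E d) :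
    hilbertDist K x₁ x₂ = hilbertDist K x₂ x₁ := by
  unfold hilbertDist; ring

/-- Every interior point has a neighbourhood of small Hilbert diameter. -/
lemma exists_small_nhds {K : Set (E d)} {x : E d} (hx : x ∈ interior K) {β : ℝ} (hβ : 0 < β) :
    ∃ V ∈ nhds x, ∀ a ∈ V, ∀ b ∈ V, hilbertDist K a b < β := by
  -- choose `T` with `log (1 + 1 / T) < β`
  set T : ℝ := 1 / β with hT
  have hT0 : 0 < T := by positivity
  have hc : Continuous (fun p : E d × E d => (1 + T) • p.2 + (-T) • p.1) := by fun_prop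
  have h0 : (fun p : E d × E d => (1 + T) • p.2 + (-T) • p.1) (x, x) ∈ interior K := by
    have : (1 + T) • x + (-T) • x = x := by rw [← add_smul]; simp
    show (1 + T) • x + (-T) • x ∈ interior K
    rw [this]; exact hx
  have h1 := hc.continuousAt.preimage_mem_nhds (isOpen_interior.mem_nhds h0)
  rw [nhds_prod_eq] at h1
  obtain ⟨V1, hV1, V2, hV2, hV⟩ := Filter.mem_prod_iff.mp h1
  refine ⟨V1 ∩ V2 ∩ interior K, Filter.inter_mem (Filter.inter_mem hV1 hV2)
    (isOpen_interior.mem_nhds hx), ?_⟩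
  have key : ∀ a ∈ V1 ∩ V2 ∩ interior K, ∀ b ∈ V1 ∩ V2 ∩ interior K, funk K a b < β := by
    intro a ha b hb
    have h2 : (1 + T) • b + (-T) • a ∈ K := interior_subset (hV (mk_mem_prod ha.1.1 hb.1.2))
    have h3 : funk K a b ≤ Real.log (1 + β) := by
      apply funk_le ha.2 hb.2
      intro y hy
      have h4 := fy_nonneg hy h2
      rw [fy_comb _ _ _ _ _ (by ring)] at h4
      have h5 : β * T = 1 := by rw [hT]; field_simp
      have h6 : β * (T * fy y a) ≤ β * ((1 + T) * fy y b) :=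
        mul_le_mul_of_nonneg_left (by linarith only [h4]) hβ.le
      calc fy y a = β * (T * fy y a) := by rw [← mul_assoc, h5, one_mul]
        _ ≤ β * ((1 + T) * fy y b) := h6
        _ = (β + β * T) * fy y b := by ring
        _ = (1 + β) * fy y b := by rw [h5]; ring
    have h4 : Real.log (1 + β) < β := by
      have := Real.log_lt_sub_one_of_pos (by linarith : 0 < 1 + β) (by linarith)
      linarith
    linarith
  intro a ha b hb
  unfold hilbertDist
  have := key a ha b hb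
  have := key b hb a ha
  linarith

lemma packing_bdd {G K : Set (E d)} (hG : IsCompact G) (hGK : G ⊆ interior K) {α : ℝ}
    (hα : 0 < α) :
    BddAbove {N : ℕ | ∃ x : Fin N → E d, (∀ i, x i ∈ G) ∧
      ∀ i j, i < j → α ≤ hilbertDist K (x i) (x j)} := by
  classical
  have h1 : ∀ x ∈ G, ∃ V ∈ nhds x, ∀ a ∈ V, ∀ b ∈ V, hilbertDist K a b < α :=
    fun x hx => exists_small_nhds (hGK hx) hα
  choose! V hV hV' using h1
  obtain ⟨t, htG, ht⟩ := hG.elim_nhds_subcover V hV
  refine ⟨t.card, ?_⟩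
  rintro N ⟨x, hx, hsep⟩
  have h2 : ∀ i, ∃ z ∈ t, x i ∈ V z := by
    intro i
    have := ht (hx i)
    simpa using this
  choose z hz hz' using h2
  have hinj : Function.Injective z := by
    intro i j hij
    by_contra hne
    rcases lt_or_gt_of_ne hne with h | h
    · have := hV' (z i) (htG _ (hz i)) (x i) (hz' i) (x j) (hij ▸ hz' j)
      linarith [hsep i j h]
    · have := hV' (z i) (htG _ (hz i)) (x j) (hij ▸ hz' j) (x i) (hz' i)
      linarith [hsep j i h]
  have := Finset.card_le_card_of_injOn (s := Finset.univ) (t := t) z (fun i _ => hz i)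
    hinj.injOn
  simpa using this

lemma conv_subset_packing {G K : Set (E d)} (hGc : Convex ℝ G) (hGK : G ⊆ interior K) {α : ℝ} :
    {N : ℕ | ∃ x : Fin N → E d, (∀ i, x i ∈ G) ∧
      ∀ j : Fin N, 0 < j.val → α ≤ hilbertInf K (x j) (convexHull ℝ (x '' {i | i < j}))} ⊆
    {N : ℕ | ∃ x : Fin N → E d, (∀ i, x i ∈ G) ∧
      ∀ i j, i < j → α ≤ hilbertDist K (x i) (x j)} := by
  rintro N ⟨x, hx, h⟩
  refine ⟨x, hx, ?_⟩
  intro i j hij
  have h1 := h j (by have : i.val < j.val := hij; omega)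
  have hsub : convexHull ℝ (x '' {i | i < j}) ⊆ G :=
    convexHull_min (by rintro _ ⟨k, _, rfl⟩; exact hx k) hGc
  rw [hilbertDist_comm]
  refine h1.trans (csInf_le ⟨0, ?_⟩ ⟨x i, subset_convexHull ℝ _ ⟨i, hij, rfl⟩, rfl⟩)
  rintro _ ⟨c, hc, rfl⟩
  exact hilbertDist_nonneg (hGK (hx j)) (hGK (hsub hc))

lemma convPacking_bdd {G K : Set (E d)} (hG : IsCompact G) (hGc : Convex ℝ G)
    (hGK : G ⊆ interior K) {α : ℝ} (hα : 0 < α) :
    BddAbove {N : ℕ | ∃ x : Fin N → E d, (∀ i, x i ∈ G) ∧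
      ∀ j : Fin N, 0 < j.val → α ≤ hilbertInf K (x j) (convexHull ℝ (x '' {i | i < j}))} :=
  (packing_bdd hG hGK hα).mono (conv_subset_packing hGc hGK)

/-- The cone of positive multiples of the functions `f_y`, restricted to `G`. -/
def geoCone (G K : Set (E d)) (hGK : G ⊆ interior K) : PCone G where
  F := {f | ∃ c : ℝ, 0 < c ∧ ∃ y ∈ polarBody K, ∀ x : G, f x = c * fy y x}
  pos := by
    rintro f ⟨c, hc, y, hy, h⟩ x
    rw [h]
    exact mul_pos hc (fy_pos hy (hGK x.2))
  add := by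
    rintro f ⟨c, hc, y, hy, h⟩ g ⟨c', hc', y', hy', h'⟩
    have hcc : 0 < c + c' := by linarith
    refine ⟨c + c', hcc, (c / (c + c')) • y + (c' / (c + c')) • y', ?_, ?_⟩
    · intro x hx
      rw [inner_add_right, inner_smul_right, inner_smul_right]
      have h1 := hy x hx
      have h2 := hy' x hx
      have h3 : c / (c + c') + c' / (c + c') = 1 := by field_simp
      have h4 : 0 ≤ c / (c + c') := by positivity
      have h5 : 0 ≤ c' / (c + c') := by positivity
      nlinarith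
    · intro x
      simp only [h, h', fy]
      rw [inner_add_left, real_inner_smul_left, real_inner_smul_left]
      field_simp
      ring
  smul := by
    rintro f ⟨c, hc, y, hy, h⟩ a ha
    exact ⟨a * c, mul_pos ha hc, y, hy, fun x => by simp only [h]; ring⟩
  one := ⟨1, one_pos, 0, zero_mem_polar K, fun x => by simp [fy_zero_left]⟩

lemma geo_ivt {G K : Set (E d)} (hGc : Convex ℝ G) (hGK : G ⊆ interior K) :
    ∀ f ∈ (geoCone G K hGK).F, ∀ x y v, f y ≤ v → v ≤ f x → ∃ p, f p = v := by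
  rintro f ⟨c, hc, z, hz, h⟩ x y v h1 h2
  rcases eq_or_lt_of_le (h1.trans h2) with heq | hlt
  · exact ⟨y, by linarith only [h2, heq, h1]⟩
  · set t := (v - f y) / (f x - f y) with ht
    have hpos : 0 < f x - f y := by linarith
    have ht0 : 0 ≤ t := div_nonneg (by linarith) hpos.le
    have ht1 : t ≤ 1 := by rw [ht, div_le_one hpos]; linarith
    refine ⟨⟨t • (x : E d) + (1 - t) • (y : E d), hGc x.2 y.2 ht0 (by linarith) (by ring)⟩, ?_⟩
    rw [h]
    simp only
    rw [fy_comb _ _ _ _ _ (by ring)]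
    have : t * (f x - f y) = v - f y := by rw [ht]; field_simp
    rw [h x, h y] at this
    linarith only [this]

end Pool.Agent.Work.MP_0e72ae_gt
end
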