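import Pool.Agent.Work.MP_0e72ae_gt.Geo

/-!
The quasi-polynomial comparison.
-/

namespace Pool.Agent.Work.MP_0e72ae_gt

open scoped RealInnerProductSpace
open Set

variable {d : ℕ}

lemma bound_convPacking {G K : Set (E d)} (hG : IsCompact G) (hGc : Convex ℝ G)
    (hGK : G ⊆ interior K) {β : ℝ} (hβ : 0 < β) :
    Bound (geoCone G K hGK) (Real.exp (2 * β)) (convPacking G K β) := by
  intro l hl
  apply le_csSup (convPacking_bdd hG hGc hGK hβ)
  refine ⟨fun i => ((l.get i).x : E d), fun i => (l.get i).x.2, ?_⟩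
  intro j hj
  obtain ⟨⟨c, hc, y, hy, hU⟩, ⟨c', hc', z, hz, hW⟩⟩ := hl.1 (l.get j) (List.get_mem l j)
  set xj : E d := ((l.get j).x : E d) with hxj
  have hxjK : xj ∈ interior K := hGK (l.get j).x.2
  set u := Real.exp (2 * β) with hu
  have hsubG : convexHull ℝ ((fun i => ((l.get i).x : E d)) '' {i | i < j}) ⊆ G :=
    convexHull_min (by rintro _ ⟨k, _, rfl⟩; exact (l.get k).x.2) hGc
  have hsubH : convexHull ℝ ((fun i => ((l.get i).x : E d)) '' {i | i < j}) ⊆
      {p | u * (fy y p * fy z xj) ≤ fy y xj * fy z p} := by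
    apply convexHull_min
    · rintro _ ⟨i, hi, rfl⟩
      have h1 : Rel u (l.get i) (l.get j) := List.pairwise_iff_get.mp hl.2 i j hi
      unfold Rel at h1
      rw [hU, hU, hW, hW] at h1
      have hcc : 0 < c * c' := mul_pos hc hc'
      show u * (fy y (l.get i).x * fy z xj) ≤ fy y xj * fy z (l.get i).x
      apply le_of_mul_le_mul_left _ hcc
      calc c * c' * (u * (fy y (l.get i).x * fy z xj))
          = u * (c * fy y (l.get i).x * (c' * fy z xj)) := by ring
        _ ≤ c * fy y xj * (c' * fy z (l.get i).x) := h1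
        _ = _ := by ring
    · intro a ha b hb s t hs ht hst
      simp only [mem_ofPred_eq] at ha hb ⊢
      rw [fy_comb _ _ _ _ _ hst, fy_comb _ _ _ _ _ hst]
      have h1 := mul_le_mul_of_nonneg_left ha hs
      have h2 := mul_le_mul_of_nonneg_left hb ht
      nlinarith
  apply le_csInf
  · refine Set.Nonempty.image _ ⟨_, subset_convexHull ℝ _ ⟨⟨0, by omega⟩, hj, rfl⟩⟩
  · rintro _ ⟨p, hp, rfl⟩
    have hpK : p ∈ interior K := hGK (hsubG hp)
    have h1 : u * (fy y p * fy z xj) ≤ fy y xj * fy z p := hsubH hp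
    have a1 := le_funk hxjK hpK hy
    have a2 := le_funk hpK hxjK hz
    have p1 := fy_pos hy hpK
    have p2 := fy_pos hy hxjK
    have p3 := fy_pos hz hpK
    have p4 := fy_pos hz hxjK
    have h2 : 2 * β ≤ Real.log (fy y xj / fy y p) + Real.log (fy z p / fy z xj) := by
      rw [← Real.log_mul (div_pos p2 p1).ne' (div_pos p3 p4).ne',
        Real.le_log_iff_exp_le (by positivity), div_mul_div_comm, le_div_iff₀ (by positivity)]
      exact h1
    show β ≤ hilbertDist K xj p
    unfold hilbertDist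
    linarith

lemma one_le_convPacking {G K : Set (E d)} (hG : IsCompact G) (hGc : Convex ℝ G)
    (hGK : G ⊆ interior K) (hne : G.Nonempty) {β : ℝ} (hβ : 0 < β) : 1 ≤ convPacking G K β := by
  obtain ⟨x, hx⟩ := hne
  apply le_csSup (convPacking_bdd hG hGc hGK hβ)
  refine ⟨fun _ => x, fun _ => hx, ?_⟩
  intro j hj
  have := j.2
  omega

lemma not_close_of_le {G K : Set (E d)} (hGK : G ⊆ interior K) {α r : ℝ} (hr : Real.log r < α)
    {a b : G} (h : α ≤ hilbertDist K a b) : ¬ Close (geoCone G K hGK) r a b := by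
  intro hcl
  have key : ∀ y ∈ polarBody K, fy y a ≤ r * fy y b ∧ fy y b ≤ r * fy y a := by
    intro y hy
    exact hcl (fun x => fy y x) ⟨1, one_pos, y, hy, fun x => by simp⟩
  have h1 := funk_le (hGK a.2) (hGK b.2) (fun y hy => (key y hy).1)
  have h2 := funk_le (hGK b.2) (hGK a.2) (fun y hy => (key y hy).2)
  unfold hilbertDist at h
  linarith

/-- Any separated family is quasi-polynomially bounded by a bound on good lists. -/
theorem packing_le_of_bound {G K : Set (E d)} (hG : IsCompact G) (hGc : Convex ℝ G)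
    (hGK : G ⊆ interior K) {α : ℝ} (hα : 0 < α) {m : ℕ} (hm : 1 ≤ m)
    (hb : Bound (geoCone G K hGK) (Real.exp (α / 7)) m) :
    (packing G K α : ℝ) ≤ Real.exp (2 ^ 31 * (1 + Real.log m) ^ 19) := by
  classical
  have hmem : packing G K α ∈ {N : ℕ | ∃ x : Fin N → E d, (∀ i, x i ∈ G) ∧
      ∀ i j, i < j → α ≤ hilbertDist K (x i) (x j)} :=
    Nat.sSup_mem ⟨0, fun i => i.elim0, fun i => i.elim0, fun i => i.elim0⟩
      (packing_bdd hG hGK hα)
  obtain ⟨x, hx, hsep⟩ := hmem
  set u := Real.exp (α / 7) with hu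
  have hu1 : 1 < u := Real.one_lt_exp_iff.mpr (by linarith)
  have hlog : Real.log (u ^ 6) < α := by
    rw [Real.log_pow, hu, Real.log_exp]; push_cast; linarith
  let x' : Fin (packing G K α) → G := fun i => ⟨x i, hx i⟩
  have hnc : ∀ i j, i ≠ j → ¬ Close (geoCone G K hGK) (u ^ 6) (x' i) (x' j) := by
    intro i j hij
    rcases lt_or_gt_of_ne hij with h | h
    · exact not_close_of_le (a := x' i) (b := x' j) hGK hlog (hsep i j h)
    · exact fun hc => not_close_of_le (a := x' j) (b := x' i) hGK hlog (hsep j i h) hc.symm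
  have hinj : Function.Injective x' := by
    intro i j hij
    by_contra hne
    apply hnc i j hne
    rw [hij]
    exact Close.refl _ (one_le_pow₀ hu1.le) _
  have := abstract_bound hu1 hm hb (geo_ivt hGc hGK) (P := Finset.univ.image x') (by
    intro a ha b hb' hab
    obtain ⟨i, _, rfl⟩ := Finset.mem_image.mp ha
    obtain ⟨j, _, rfl⟩ := Finset.mem_image.mp hb'
    exact hnc i j (fun h => hab (by rw [h])))
  rw [Finset.card_image_of_injective _ hinj] at this
  simpa using this

theorem quasi_poly {G K : Set (E d)} (h : Admissible G K) {α : ℝ} (hα : 0 < α) :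
    (packing G K α : ℝ) ≤
      Real.exp (2 ^ 31 * (1 + Real.log (convPacking G K (α / 14))) ^ 19) := by
  obtain ⟨⟨hG, hGc, _⟩, _, h0, hGK⟩ := h
  have hβ : 0 < α / 14 := by linarith
  apply packing_le_of_bound hG hGc hGK hα
    (one_le_convPacking hG hGc hGK ⟨0, interior_subset h0⟩ hβ)
  have := bound_convPacking hG hGc hGK hβ
  have e : 2 * (α / 14) = α / 7 := by ring
  rwa [e] at this

end Pool.Agent.Work.MP_0e72ae_gt
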