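import Pool.Agent.Work.MP_0e72ae_gt.Geo
import Mathlib

-- merged part: Pool.Agent.Work.MP_0e72ae_gt.NoGeo
section
/-!
Bridge from a matrix with entries in `[0, g]` to an admissible pair whose outer body is the cube.

Plan.  `d = card W`, `e : Fin d ≃ W`, `τ = 1 / (4 g)`, `x0` any element of `W`,
`cube r = {w | ∀ j, |w j| ≤ r}`, `K = cube 1`,
`G = {p | ∃ μ ∈ stdSimplex ℝ W, ∀ j, |p j - τ * (∑ x, μ x * A x (e j) - A x0 (e j))| ≤ τ}`
(the image of the simplex under an affine map plus `cube τ`: compact, convex, contains `cube τ`,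
all coordinates of its points are at most `1/2` in absolute value).
* for `y` in the polar of `K` and `|w j| ≤ r`: `|⟪y, w⟫| ≤ r` (test with `± w / r`); so for `p, p'`
  in `cube (1/2)` with `|p j - p' j| ≤ r` we get `fy y p ≤ (1 + 2 r) * fy y p'`, `funk_le` gives
  `hilbertDist K p p' ≤ log (1 + 2 r) ≤ 2 r`;
* `y = - EuclideanSpace.single j 1` is in the polar, `fy y p = 1 + p j`; if `p j - p' j = 1/4` then
  `le_funk`, `funk_nonneg` and `1 - 1/t ≤ log t` give `hilbertDist K p p' ≥ (1/4) / 3 = 1/12`;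
  `packing_bdd` and `le_csSup` give the first bound;
* a convexified sequence `x : Fin N → E d` at scale `c₀ / 12`: for `j > 0` the open cube of radius
  `c₀ / 24` around `x j` misses the convex hull of the earlier points; `geometric_hahn_banach_open`
  gives `f`, put `ν y = - f (single (e.symm y) 1) / ∑ y, |f (single (e.symm y) 1)|`; then
  `ν (x j) - ν (x i) ≥ c₀ / 24 ≥ 4 τ`, the two thickenings cost `2 τ`; apply `hL` to the indices
  `1, …, N - 1`.
-/

namespace Pool.Agent.Work.MP_0e72ae_gt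

section Cube

open scoped RealInnerProductSpace

variable {d : ℕ}

/-- The closed cube of radius `r` around the origin. -/
def cube (d : ℕ) (r : ℝ) : Set (E d) := {w | ∀ j, |w j| ≤ r}

lemma cube_compact (r : ℝ) : IsCompact (cube d r) := by
  have h : cube d r =
      (EuclideanSpace.equiv (Fin d) ℝ) ⁻¹' (Set.pi Set.univ fun _ => Set.Icc (-r) r) := by
    ext w
    simp only [cube, Set.mem_ofPred_eq, Set.mem_preimage, Set.mem_pi, Set.mem_univ,
      forall_true_left, Set.mem_Icc, abs_le]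
    rfl
  rw [h]
  exact (EuclideanSpace.equiv (Fin d) ℝ).toHomeomorph.isCompact_preimage.mpr
    (isCompact_univ_pi fun _ => isCompact_Icc)

lemma abs_comb_le {a b s t r : ℝ} (hs : 0 ≤ s) (ht : 0 ≤ t) (hst : s + t = 1) (ha : |a| ≤ r)
    (hb : |b| ≤ r) : |s * a + t * b| ≤ r := by
  have h1 := abs_le.mp ha
  have h2 := abs_le.mp hb
  have h3 : r = s * r + t * r := by rw [← add_mul, hst, one_mul]
  rw [abs_le]
  constructor <;> linarith only [h3, hs, h1, ht, h2, h1.1, h1.2, h2.1, h2.2, mul_nonneg_of_nonpos_of_nonpos (Mathlib.Tactic.Linarith.sub_nonpos_of_le hs) (Mathlib.Tactic.Linarith.sub_nonpos_of_le h1.left), mul_nonneg_of_nonpos_of_nonpos (Mathlib.Tactic.Linarith.sub_nonpos_of_le ht) (Mathlib.Tactic.Linarith.sub_nonpos_of_le h2.left), mul_nonneg_of_nonpos_of_nonpos (Mathlib.Tactic.Linarith.sub_nonpos_of_le hs) (Mathlib.Tactic.Linarith.sub_nonpos_of_le h1.right), mul_nonneg_of_nonpos_of_nonpos (Mathlib.Tactic.Linarith.sub_nonpos_of_le ht) (Mathlib.Tactic.Linarith.sub_nonpos_of_le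 h2.right)]

lemma abs_comb_lt {a b s t r : ℝ} (hs : 0 ≤ s) (ht : 0 ≤ t) (hst : s + t = 1) (ha : |a| < r)
    (hb : |b| < r) : |s * a + t * b| < r :=
  lt_of_le_of_lt (abs_comb_le hs ht hst (le_max_left |a| |b|) (le_max_right |a| |b|))
    (max_lt ha hb)

lemma cube_convex (r : ℝ) : Convex ℝ (cube d r) := by
  intro a ha b hb s t hs ht hst j
  have : (s • a + t • b) j = s * a j + t * b j := by simp
  rw [this]
  exact abs_comb_le hs ht hst (ha j) (hb j)

lemma ocube_open (p : E d) (r : ℝ) : IsOpen {w : E d | ∀ j, |w j - p j| < r} := by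
  rw [Set.ofPred_forall]
  apply isOpen_iInter_of_finite
  intro j
  apply isOpen_lt _ continuous_const
  fun_prop

lemma ocube_convex (p : E d) (r : ℝ) : Convex ℝ {w : E d | ∀ j, |w j - p j| < r} := by
  intro a ha b hb s t hs ht hst j
  have : (s • a + t • b) j - p j = s * (a j - p j) + t * (b j - p j) := by
    have h1 : (s • a + t • b) j = s * a j + t * b j := by simp
    rw [h1]
    linear_combination (p j) * hst
  rw [this]
  exact abs_comb_lt hs ht hst (ha j) (hb j)

lemma mem_interior_of_ocube {S : Set (E d)} {p : E d} {r : ℝ} (hr : 0 < r)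
    (h : ∀ w : E d, (∀ j, |w j - p j| < r) → w ∈ S) : p ∈ interior S := by
  apply interior_maximal (t := {w : E d | ∀ j, |w j - p j| < r}) h (ocube_open p r)
  intro j
  simpa using hr

lemma half_mem_interior {p : E d} (hp : p ∈ cube d (1 / 2)) : p ∈ interior (cube d 1) := by
  apply mem_interior_of_ocube (r := 1 / 2) (by norm_num)
  intro w hw j
  have h1 := abs_lt.mp (hw j)
  have h2 := abs_le.mp (hp j)
  rw [abs_le]
  constructor <;> linarith only [h1, h2, h1.1, h1.2, h2.1, h2.2]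

lemma polar_inner_le {y w : E d} (hy : y ∈ polarBody (cube d 1)) {r : ℝ} (hr : 0 < r)
    (hw : ∀ j, |w j| ≤ r) : ⟪y, w⟫ ≤ r := by
  have h1 : r⁻¹ • w ∈ cube d 1 := by
    intro j
    have : (r⁻¹ • w) j = r⁻¹ * w j := by simp
    rw [this, abs_mul, abs_of_pos (inv_pos.mpr hr), inv_mul_le_iff₀ hr, mul_one]
    exact hw j
  have h2 := hy _ h1
  rw [real_inner_smul_left, inv_mul_le_iff₀ hr, mul_one] at h2
  rw [real_inner_comm]
  exact h2

lemma funk_cube_le {p p' : E d} (hp : p ∈ cube d (1 / 2)) (hp' : p' ∈ cube d (1 / 2)) {r : ℝ}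
    (hr : 0 < r) (h : ∀ j, |p' j - p j| ≤ r) : funk (cube d 1) p p' < 2 * r := by
  have h1 : funk (cube d 1) p p' ≤ Real.log (1 + 2 * r) := by
    apply funk_le (half_mem_interior hp) (half_mem_interior hp')
    intro y hy
    have h2 : ⟪y, p' - p⟫ ≤ r := polar_inner_le hy hr (fun j => by simpa using h j)
    have h3 : ⟪y, p'⟫ ≤ 1 / 2 := polar_inner_le hy (by norm_num) hp'
    rw [inner_sub_right] at h2
    unfold fy
    linarith only [h2, hr, h3, mul_nonneg_of_nonpos_of_nonpos (le_of_lt (Mathlib.Tactic.Linarith.sub_neg_of_lt hr)) (Mathlib.Tactic.Linarith.sub_nonpos_of_le h3)]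
  have h4 : Real.log (1 + 2 * r) < 2 * r := by
    have := Real.log_lt_sub_one_of_pos (by linarith : 0 < 1 + 2 * r) (by linarith)
    linarith
  linarith

lemma hilbert_cube_lt {p p' : E d} (hp : p ∈ cube d (1 / 2)) (hp' : p' ∈ cube d (1 / 2)) {r : ℝ}
    (hr : 0 < r) (h : ∀ j, |p' j - p j| ≤ r) : hilbertDist (cube d 1) p p' < 2 * r := by
  have h1 := funk_cube_le hp hp' hr h
  have h2 := funk_cube_le hp' hp hr (fun j => by rw [abs_sub_comm]; exact h j)
  unfold hilbertDist
  linarith only [h1, h2]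

lemma hilbert_cube_ge {p p' : E d} (hp : p ∈ cube d (1 / 2)) (hp' : p' ∈ cube d (1 / 2))
    (j : Fin d) (h : p j - p' j = 1 / 4) : 1 / 12 ≤ hilbertDist (cube d 1) p p' := by
  have hy : (-EuclideanSpace.single j (1 : ℝ) : E d) ∈ polarBody (cube d 1) := by
    intro x hx
    have := abs_le.mp (hx j)
    rw [inner_neg_right, EuclideanSpace.inner_single_right]
    simp only [conj_trivial, one_mul]
    linarith only [this, this.1]
  have hf : ∀ q : E d, fy (-EuclideanSpace.single j (1 : ℝ)) q = 1 + q j := by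
    intro q
    unfold fy
    rw [inner_neg_left, EuclideanSpace.inner_single_left]
    simp
  have h1 := le_funk (half_mem_interior hp) (half_mem_interior hp') hy
  have h2 := funk_nonneg (half_mem_interior hp') (half_mem_interior hp)
  rw [hf, hf] at h1
  have b1 := abs_le.mp (hp j)
  have b2 := abs_le.mp (hp' j)
  have q1 : 0 < 1 + p j := by linarith only [h, b2, b1.1]
  have q2 : 0 < 1 + p' j := by linarith only [b2, b2.1]
  have h3 := Real.one_sub_inv_le_log_of_pos (div_pos q1 q2)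
  have h4 : ((1 + p j) / (1 + p' j))⁻¹ ≤ 5 / 6 := by
    rw [inv_div, div_le_iff₀ q1]
    linarith only [h, b1, b1.2]
  unfold hilbertDist
  linarith only [h1, h2, h3, h4]

lemma clm_sum (f : E d →L[ℝ] ℝ) (w : E d) :
    f w = ∑ k, f (EuclideanSpace.single k 1) * w k := by
  have h : w = ∑ k, w k • (EuclideanSpace.single k (1 : ℝ) : E d) := by
    ext i
    simp [Finset.sum_apply, Pi.single_apply]
  conv_lhs => rw [h]
  rw [map_sum]
  apply Finset.sum_congr rfl
  intro k _
  rw [map_smul, smul_eq_mul, mul_comm]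

/-- Separation of a point from a convex set at sup-distance at least `ρ`. -/
lemma sep_cube (p : E d) {C : Set (E d)} (hC : Convex ℝ C) (hne : C.Nonempty) {ρ : ℝ}
    (hρ : 0 < ρ) (h : ∀ c ∈ C, ¬ ∀ k, |c k - p k| < ρ) :
    ∃ n : Fin d → ℝ, ∑ k, |n k| = 1 ∧ ∀ c ∈ C, ρ ≤ ∑ k, n k * (p k - c k) := by
  obtain ⟨f, u, hf1, hf2⟩ := geometric_hahn_banach_open (ocube_convex p ρ) (ocube_open p ρ) hC
    (Set.disjoint_left.mpr fun c hc hc' => h c hc' hc)
  have hp : f p < u := hf1 p (fun k => by simpa using hρ)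
  set a : Fin d → ℝ := fun k => f (EuclideanSpace.single k 1) with ha
  have hfa : ∀ w : E d, f w = ∑ k, a k * w k := fun w => clm_sum f w
  set S : ℝ := ∑ k, |a k| with hS
  have hS0 : 0 < S := by
    obtain ⟨c, hc⟩ := hne
    have h1 := hf2 c hc
    rcases (Finset.sum_nonneg (fun k _ => abs_nonneg (a k)) : 0 ≤ S).lt_or_eq with h2 | h2
    · exact h2
    · exfalso
      have h3 : ∀ k, a k = 0 := by
        intro k
        have := (Finset.sum_eq_zero_iff_of_nonneg (fun k _ => abs_nonneg (a k))).mp h2.symm k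
          (Finset.mem_univ k)
        exact abs_eq_zero.mp this
      rw [hfa] at hp h1
      simp only [h3, zero_mul, Finset.sum_const_zero] at hp h1
      linarith
  refine ⟨fun k => -a k / S, ?_, ?_⟩
  · have : ∀ k, |-a k / S| = |a k| / S := by
      intro k
      rw [abs_div, abs_neg, abs_of_pos hS0]
    simp only [this]
    rw [← Finset.sum_div, div_self hS0.ne']
  · intro c hc
    have h1 := hf2 c hc
    have h2 : ∑ k, -a k / S * (p k - c k) = (f c - f p) / S := by
      rw [hfa, hfa, ← Finset.sum_sub_distrib, Finset.sum_div]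
      apply Finset.sum_congr rfl
      intro k _
      ring
    rw [h2]
    by_contra hcon
    push Not at hcon
    set t : ℝ := (f c - f p) / S with ht
    have ht0 : 0 ≤ t := div_nonneg (by linarith only [hp, h1]) hS0.le
    have h3 := hf1 (WithLp.toLp 2 fun k => p k + t * (if 0 ≤ a k then 1 else -1)) (by
      intro k
      have : p k + t * (if 0 ≤ a k then 1 else -1) - p k = t * (if 0 ≤ a k then 1 else -1) := by
        ring
      show |p k + t * (if 0 ≤ a k then 1 else -1) - p k| < ρ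
      rw [this]
      split_ifs
      · rw [mul_one, abs_of_nonneg ht0]; exact hcon
      · rw [mul_neg, mul_one, abs_neg, abs_of_nonneg ht0]; exact hcon)
    have h4 : f (WithLp.toLp 2 fun k => p k + t * (if 0 ≤ a k then 1 else -1)) = f p + t * S := by
      rw [hfa, hfa, hS, Finset.mul_sum, ← Finset.sum_add_distrib]
      apply Finset.sum_congr rfl
      intro k _
      show a k * (p k + t * (if 0 ≤ a k then 1 else -1)) = a k * p k + t * |a k|
      split_ifs with h5
      · rw [abs_of_nonneg h5]; ring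
      · rw [abs_of_neg (not_le.mp h5)]; ring
    have h5 : t * S = f c - f p := by rw [ht]; field_simp
    linarith only [h1, h3, h4, h5]

end Cube

section Body

variable {d : ℕ} {W : Type} [Fintype W]

/-- The affine map whose image of the simplex is the core of the inner body. -/
noncomputable def coreMap (A : W → W → ℝ) (e : Fin d ≃ W) (x0 : W) (τ : ℝ) (μ : W → ℝ) : E d :=
  WithLp.toLp 2 fun j => τ * (∑ x, μ x * A x (e j) - A x0 (e j))

lemma coreMap_apply (A : W → W → ℝ) (e : Fin d ≃ W) (x0 : W) (τ : ℝ) (μ : W → ℝ) (j : Fin d) :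
    coreMap A e x0 τ μ j = τ * (∑ x, μ x * A x (e j) - A x0 (e j)) := rfl

/-- The inner body. -/
def body (A : W → W → ℝ) (e : Fin d ≃ W) (x0 : W) (τ : ℝ) : Set (E d) :=
  {p | ∃ μ ∈ stdSimplex ℝ W, ∀ j, |p j - coreMap A e x0 τ μ j| ≤ τ}

lemma body_compact (A : W → W → ℝ) (e : Fin d ≃ W) (x0 : W) (τ : ℝ) :
    IsCompact (body A e x0 τ) := by
  have hc : Continuous (fun q : (W → ℝ) × E d => coreMap A e x0 τ q.1 + q.2) := by
    unfold coreMap
    fun_prop
  have h : body A e x0 τ = (fun q : (W → ℝ) × E d => coreMap A e x0 τ q.1 + q.2) ''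
      (stdSimplex ℝ W ×ˢ cube d τ) := by
    ext p
    constructor
    · rintro ⟨μ, hμ, h⟩
      refine ⟨(μ, p - coreMap A e x0 τ μ), ⟨hμ, fun j => ?_⟩, by simp⟩
      simpa using h j
    · rintro ⟨⟨μ, w⟩, ⟨hμ, hw⟩, rfl⟩
      refine ⟨μ, hμ, fun j => ?_⟩
      simpa using hw j
  rw [h]
  exact ((isCompact_stdSimplex ℝ W).prod (cube_compact τ)).image hc

lemma body_convex (A : W → W → ℝ) (e : Fin d ≃ W) (x0 : W) (τ : ℝ) :
    Convex ℝ (body A e x0 τ) := by
  rintro a ⟨μ, hμ, ha⟩ b ⟨ν, hν, hb⟩ s t hs ht hst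
  refine ⟨s • μ + t • ν, convex_stdSimplex ℝ W hμ hν hs ht hst, fun j => ?_⟩
  have h1 : (s • a + t • b) j = s * a j + t * b j := by simp
  have h2 : ∑ x, (s • μ + t • ν) x * A x (e j) =
      s * ∑ x, μ x * A x (e j) + t * ∑ x, ν x * A x (e j) := by
    rw [Finset.mul_sum, Finset.mul_sum, ← Finset.sum_add_distrib]
    apply Finset.sum_congr rfl
    intro x _
    simp only [Pi.add_apply, Pi.smul_apply, smul_eq_mul]
    ring
  have h3 : (s • a + t • b) j - coreMap A e x0 τ (s • μ + t • ν) j =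
      s * (a j - coreMap A e x0 τ μ j) + t * (b j - coreMap A e x0 τ ν j) := by
    rw [h1, coreMap_apply, coreMap_apply, coreMap_apply, h2]
    linear_combination (-(τ * A x0 (e j))) * hst
  rw [h3]
  exact abs_comb_le hs ht hst (ha j) (hb j)

open Classical in
lemma coreMap_single (A : W → W → ℝ) (e : Fin d ≃ W) (x0 : W) (τ : ℝ) (x : W) (j : Fin d) :
    coreMap A e x0 τ (Pi.single x 1) j = τ * (A x (e j) - A x0 (e j)) := by
  rw [coreMap_apply]
  congr 2
  rw [Finset.sum_eq_single x]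
  · simp
  · intro b _ hb
    simp [hb]
  · intro h
    exact absurd (Finset.mem_univ x) h

lemma zero_mem_interior_body (A : W → W → ℝ) (e : Fin d ≃ W) (x0 : W) {τ : ℝ} (hτ : 0 < τ) :
    (0 : E d) ∈ interior (body A e x0 τ) := by
  classical
  apply mem_interior_of_ocube hτ
  intro w hw
  refine ⟨Pi.single x0 1, single_mem_stdSimplex ℝ x0, fun j => ?_⟩
  rw [coreMap_single]
  simpa using (hw j).le

lemma body_subset (A : W → W → ℝ) (e : Fin d ≃ W) (x0 : W) {g : ℝ} (hg : 1 ≤ g)
    (hA : ∀ x y, 0 ≤ A x y ∧ A x y ≤ g) : body A e x0 (1 / (4 * g)) ⊆ cube d (1 / 2) := by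
  rintro p ⟨μ, hμ, h⟩ j
  have h1 := abs_le.mp (h j)
  rw [coreMap_apply] at h1
  have h2 : 0 ≤ ∑ x, μ x * A x (e j) :=
    Finset.sum_nonneg fun x _ => mul_nonneg (hμ.1 x) (hA x _).1
  have h3 : ∑ x, μ x * A x (e j) ≤ g := by
    calc ∑ x, μ x * A x (e j) ≤ ∑ x, μ x * g :=
          Finset.sum_le_sum fun x _ => mul_le_mul_of_nonneg_left (hA x _).2 (hμ.1 x)
      _ = g := by rw [← Finset.sum_mul, hμ.2, one_mul]
  have h4 := hA x0 (e j)
  set τ : ℝ := 1 / (4 * g) with hτ
  have hτ0 : 0 < τ := by rw [hτ]; positivity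
  have hτg : τ * g = 1 / 4 := by rw [hτ]; field_simp
  have h5 : τ ≤ 1 / 4 := by linarith only [hτg, hg, h1, mul_nonneg_of_nonpos_of_nonpos (Mathlib.Tactic.Linarith.sub_nonpos_of_le hg) (Mathlib.Tactic.Linarith.sub_nonpos_of_le h1.left), mul_nonneg_of_nonpos_of_nonpos (Mathlib.Tactic.Linarith.sub_nonpos_of_le hg) (Mathlib.Tactic.Linarith.sub_nonpos_of_le h1.right)]
  have h6 : τ * (∑ x, μ x * A x (e j) - A x0 (e j)) ≤ τ * g :=
    mul_le_mul_of_nonneg_left (by linarith only [h3, h4, h4.1]) hτ0.le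
  have h7 : τ * (-g) ≤ τ * (∑ x, μ x * A x (e j) - A x0 (e j)) :=
    mul_le_mul_of_nonneg_left (by linarith only [h2, h4, h4.2]) hτ0.le
  rw [abs_le]
  constructor <;> linarith only [h1, hτg, h5, h7, h6, h1.1, h1.2]

end Body

theorem geo_bridge {W : Type} [Fintype W] [Nonempty W] (A : W → W → ℝ) (g : ℕ) (hg : 1 ≤ g)
    (hA : ∀ x y, 0 ≤ A x y ∧ A x y ≤ g) (c₀ : ℝ) (hc : 24 ≤ c₀ * g) (M L : ℕ)
    (hM : ∃ x : Fin M → W, ∀ i j, i < j → ∃ y, A (x i) y = g ∧ A (x j) y = 0)
    (hL : ∀ (N : ℕ) (μ ν : Fin N → W → ℝ), (∀ k x, 0 ≤ μ k x) → (∀ k, ∑ x, μ k x = 1) →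
      (∀ k, ∑ y, |ν k y| = 1) →
      (∀ l k, l < k → 2 ≤ ∑ y, ν k y * (∑ x, μ k x * A x y - ∑ x, μ l x * A x y)) → N ≤ L) :
    ∃ G K : Set (E (Fintype.card W)), Admissible G K ∧ M ≤ packing G K (1 / 12) ∧
      convPacking G K (c₀ * (1 / 12)) ≤ L + 1 := by
  classical
  obtain ⟨x0⟩ := ‹Nonempty W›
  set d := Fintype.card W with hd
  let e : Fin d ≃ W := (Fintype.equivFin W).symm
  have hg' : (1 : ℝ) ≤ g := by exact_mod_cast hg
  set τ : ℝ := 1 / (4 * (g : ℝ)) with hτ
  have hτ0 : 0 < τ := by rw [hτ]; positivity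
  have hτg : τ * g = 1 / 4 := by rw [hτ]; field_simp
  have hsub : body A e x0 τ ⊆ cube d (1 / 2) := body_subset A e x0 hg' hA
  have hGK : body A e x0 τ ⊆ interior (cube d 1) := fun p hp => half_mem_interior (hsub hp)
  have h0 := zero_mem_interior_body A e x0 hτ0
  refine ⟨body A e x0 τ, cube d 1, ⟨⟨body_compact A e x0 τ, body_convex A e x0 τ, ⟨0, h0⟩⟩,
    ⟨cube_compact 1, cube_convex 1, ⟨0, hGK (interior_subset h0)⟩⟩, h0, hGK⟩, ?_, ?_⟩
  · obtain ⟨x, hx⟩ := hM
    have hmem : ∀ i, coreMap A e x0 τ (Pi.single (x i) 1) ∈ body A e x0 τ := fun i =>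
      ⟨Pi.single (x i) 1, single_mem_stdSimplex ℝ (x i), fun j => by simpa using hτ0.le⟩
    apply le_csSup (packing_bdd (body_compact A e x0 τ) hGK (by norm_num))
    refine ⟨fun i => coreMap A e x0 τ (Pi.single (x i) 1), hmem, ?_⟩
    intro i j hij
    obtain ⟨y, hy1, hy2⟩ := hx i j hij
    apply hilbert_cube_ge (hsub (hmem i)) (hsub (hmem j)) (e.symm y)
    rw [coreMap_single, coreMap_single, e.apply_symm_apply, hy1, hy2]
    linarith only [hτg]
  · apply csSup_le'
    rintro N ⟨x, hx, hsep⟩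
    rcases N with _ | n
    · exact Nat.zero_le _
    have hc0 : 0 < c₀ := by
      by_contra hcon
      push Not at hcon
      linarith only [hc, hcon, mul_nonneg_of_nonpos_of_nonpos (Mathlib.Tactic.Linarith.sub_nonpos_of_le (Mathlib.Tactic.Linarith.natCast_nonneg ℝ g)) (Mathlib.Tactic.Linarith.sub_nonpos_of_le hcon)]
    have hρ : 0 < c₀ / 24 := by linarith only [hc0]
    have hρτ : 4 * τ ≤ c₀ / 24 := by
      have h1 : (4 * τ) * g ≤ (c₀ / 24) * g := by linarith only [hc, hτg]
      exact le_of_mul_le_mul_right h1 (by linarith only [hg'])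
    have hsepn : ∀ k : Fin n, ∃ v : Fin d → ℝ, ∑ j, |v j| = 1 ∧
        ∀ c ∈ convexHull ℝ (x '' {i | i < k.succ}), c₀ / 24 ≤ ∑ j, v j * (x k.succ j - c j) := by
      intro k
      have hsubG : convexHull ℝ (x '' {i | i < k.succ}) ⊆ body A e x0 τ :=
        convexHull_min (by rintro _ ⟨i, _, rfl⟩; exact hx i) (body_convex A e x0 τ)
      have hne : (convexHull ℝ (x '' {i | i < k.succ})).Nonempty :=
        ⟨x 0, subset_convexHull ℝ (x '' {i | i < k.succ}) ⟨0, Fin.succ_pos k, rfl⟩⟩
      apply sep_cube (x k.succ) (convex_convexHull ℝ _) hne hρ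
      intro c hc hlt
      have h1 := hsep k.succ (by simp)
      have h2 : hilbertInf (cube d 1) (x k.succ) (convexHull ℝ (x '' {i | i < k.succ})) ≤
          hilbertDist (cube d 1) (x k.succ) c := by
        refine csInf_le ⟨0, ?_⟩ ⟨c, hc, rfl⟩
        rintro _ ⟨c', hc', rfl⟩
        exact hilbertDist_nonneg (hGK (hx _)) (hGK (hsubG hc'))
      have h3 := hilbert_cube_lt (hsub (hx k.succ)) (hsub (hsubG hc)) hρ (fun j => (hlt j).le)
      linarith only [h1, h2, h3]
    choose v hv1 hv2 using hsepn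
    choose μ hμ1 hμ2 using hx
    apply Nat.succ_le_succ
    apply hL n (fun k => μ k.succ) (fun k y => v k (e.symm y)) (fun k y => (hμ1 k.succ).1 y)
      (fun k => (hμ1 k.succ).2)
    · intro k
      rw [← hv1 k]
      exact Equiv.sum_comp e.symm (fun j => |v k j|)
    · intro l k hlk
      have h1 := hv2 k (x l.succ) (subset_convexHull ℝ (x '' {i | i < k.succ})
        ⟨l.succ, Fin.succ_lt_succ_iff.mpr hlk, rfl⟩)
      have h2 : ∑ y, v k (e.symm y) * (∑ z, μ k.succ z * A z y - ∑ z, μ l.succ z * A z y) =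
          ∑ j, v k j * (∑ z, μ k.succ z * A z (e j) - ∑ z, μ l.succ z * A z (e j)) := by
        rw [← Equiv.sum_comp e]
        simp only [Equiv.symm_apply_apply]
      rw [h2]
      have h3 : ∑ j, v k j * (x k.succ j - x l.succ j) ≤
          ∑ j, (τ * (v k j * (∑ z, μ k.succ z * A z (e j) - ∑ z, μ l.succ z * A z (e j))) +
            2 * τ * |v k j|) := by
        apply Finset.sum_le_sum
        intro j _
        have a1 := hμ2 k.succ j
        have a2 := hμ2 l.succ j
        rw [coreMap_apply] at a1 a2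
        set P := ∑ z, μ k.succ z * A z (e j)
        set Q := ∑ z, μ l.succ z * A z (e j)
        have a3 : |(x k.succ j - τ * (P - A x0 (e j))) - (x l.succ j - τ * (Q - A x0 (e j)))| ≤
            2 * τ := by
          have b1 := abs_le.mp a1
          have b2 := abs_le.mp a2
          rw [abs_le]
          constructor <;> linarith only [b1, b2, b1.1, b1.2, b2.1, b2.2]
        have a4 : v k j * ((x k.succ j - τ * (P - A x0 (e j))) -
            (x l.succ j - τ * (Q - A x0 (e j)))) ≤ |v k j| * (2 * τ) := by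
          refine (le_abs_self _).trans ?_
          rw [abs_mul]
          exact mul_le_mul_of_nonneg_left a3 (abs_nonneg _)
        linarith only [a4]
      rw [Finset.sum_add_distrib, ← Finset.mul_sum, ← Finset.mul_sum, hv1 k] at h3
      have h4 : τ * 2 ≤ τ * ∑ j, v k j *
          (∑ z, μ k.succ z * A z (e j) - ∑ z, μ l.succ z * A z (e j)) := by linarith only [hρτ, h1, h3]
      exact le_of_mul_le_mul_left h4 hτ0

end Pool.Agent.Work.MP_0e72ae_gt
end

-- merged part: Pool.Agent.Work.MP_0e72ae_gt.NoHier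
section
/-!
A tree of positions with doubly exponential branching and the level function on sets of positions.
-/

namespace Pool.Agent.Work.MP_0e72ae_gt

open Finset

/-- A tree of depth `g` on the positions `V`: nodes of depth `s` have `a s` positions and `T s`
children, the `i`-th children of all nodes of depth `s` lie in the window `win s = i`. -/
structure Hier (V : Type) [Fintype V] [DecidableEq V] (g Λ : ℕ) where
  node : ℕ → V → Finset V
  win : ℕ → V → ℕ
  a : ℕ → ℕ
  T : ℕ → ℕ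
  ne : Nonempty V
  a_pos : ∀ s, 0 < a s
  T_pos : ∀ s, 0 < T s
  card_node : ∀ s p, (node s p).card = a s
  node_zero : ∀ p, node 0 p = univ
  a_succ : ∀ s < g, a s = T s * a (s + 1)
  child : ∀ s < g, ∀ p, ∀ i < T s, ∃ p', node (s + 1) p' ⊆ (node s p).filter (fun v => win s v = i)
  card_win : ∀ s < g, ∀ i,
    (univ.filter fun v => win s v = i).card * T s ≤ Fintype.card V
  big : ∀ s < g, Λ * Fintype.card V ≤ T s * a s

/-- Number of nodes of depth `s`. -/
def nN (Λ : ℕ) : ℕ → ℕ
  | 0 => 1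
  | s + 1 => nN Λ s * (Λ * nN Λ s)

lemma nN_pos {Λ : ℕ} (h : 0 < Λ) : ∀ s, 0 < nN Λ s
  | 0 => one_pos
  | s + 1 => Nat.mul_pos (nN_pos h s) (Nat.mul_pos h (nN_pos h s))

/-- Size of a node of depth `s`. -/
def aA (g Λ s : ℕ) : ℕ := ∏ j : Fin g, if j.val < s then 1 else Λ * nN Λ j

lemma aA_succ {g Λ s : ℕ} (hs : s < g) : aA g Λ s = Λ * nN Λ s * aA g Λ (s + 1) := by
  unfold aA
  rw [← Finset.mul_prod_erase univ _ (mem_univ (⟨s, hs⟩ : Fin g)),
    ← Finset.mul_prod_erase univ (fun j : Fin g => if j.val < s + 1 then 1 else Λ * nN Λ j)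
      (mem_univ (⟨s, hs⟩ : Fin g))]
  simp only [lt_irrefl, if_false, Nat.lt_succ_self, if_true, one_mul]
  congr 1
  refine Finset.prod_congr rfl fun j hj => ?_
  have h1 : j.val ≠ s := fun h => (Finset.ne_of_mem_erase hj) (Fin.ext h)
  by_cases h2 : j.val < s
  · rw [if_pos h2, if_pos (by omega)]
  · rw [if_neg h2, if_neg (by omega)]

lemma nN_mul_aA {g Λ : ℕ} : ∀ s ≤ g, nN Λ s * aA g Λ s = ∏ j : Fin g, Λ * nN Λ j
  | 0, _ => by simp [nN, aA]
  | s + 1, h => by
    rw [← nN_mul_aA s (by omega), aA_succ (show s < g by omega), nN]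
    ring

theorem exists_hier (g Λ : ℕ) (hΛ : 0 < Λ) :
    Nonempty (Hier ((s : Fin g) → Fin (Λ * nN Λ s)) g Λ) := by
  classical
  have hT : ∀ s, 0 < Λ * nN Λ s := fun s => Nat.mul_pos hΛ (nN_pos hΛ s)
  have hcard : Fintype.card ((s : Fin g) → Fin (Λ * nN Λ s)) = ∏ j : Fin g, Λ * nN Λ j := by
    simp [Fintype.card_pi]
  refine ⟨{
    node := fun s p => Fintype.piFinset (fun j => if j.val < s then {p j} else univ)
    win := fun s v => if h : s < g then (v ⟨s, h⟩).val else 0
    a := aA g Λ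
    T := fun s => Λ * nN Λ s
    ne := ⟨fun s => ⟨0, hT s⟩⟩
    a_pos := ?_
    T_pos := hT
    card_node := ?_
    node_zero := ?_
    a_succ := fun s hs => aA_succ hs
    child := ?_
    card_win := ?_
    big := ?_ }⟩
  · intro s
    refine Finset.prod_pos fun j _ => ?_
    split_ifs
    · exact one_pos
    · exact hT j
  · intro s p
    rw [Fintype.card_piFinset]
    refine Finset.prod_congr rfl fun j _ => ?_
    split_ifs <;> simp
  · intro p
    ext v
    simp
  · intro s hs p i hi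
    refine ⟨Function.update p ⟨s, hs⟩ ⟨i, hi⟩, fun v hv => ?_⟩
    rw [Fintype.mem_piFinset] at hv
    rw [Finset.mem_filter, Fintype.mem_piFinset]
    constructor
    · intro j
      split_ifs with h
      · have := hv j
        rw [if_pos (by omega), Function.update_of_ne (fun h' => by rw [h'] at h; simp at h)] at this
        exact this
      · exact mem_univ _
    · have := hv ⟨s, hs⟩
      rw [if_pos (by simp), Function.update_self, Finset.mem_singleton] at this
      simp [hs, this]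
  · intro s hs i
    have h1 : (univ.filter fun v : (s : Fin g) → Fin (Λ * nN Λ s) =>
        (if h : s < g then (v ⟨s, h⟩).val else 0) = i) ⊆
        Fintype.piFinset (fun j : Fin g => if j = ⟨s, hs⟩ then
          univ.filter (fun z : Fin (Λ * nN Λ j) => z.val = i) else univ) := by
      intro v hv
      rw [Finset.mem_filter, dif_pos hs] at hv
      rw [Fintype.mem_piFinset]
      intro j
      split_ifs with h
      · subst h
        simpa using hv.2
      · exact mem_univ _
    have h2 := Finset.card_le_card h1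
    rw [Fintype.card_piFinset,
      ← Finset.mul_prod_erase univ _ (mem_univ (⟨s, hs⟩ : Fin g)), if_pos rfl] at h2
    have h3 : (univ.filter (fun z : Fin (Λ * nN Λ ((⟨s, hs⟩ : Fin g) : ℕ)) => z.val = i)).card ≤ 1 := by
      rw [Finset.card_le_one]
      intro a ha b hb
      simp only [mem_filter, mem_univ, true_and] at ha hb
      exact Fin.ext (ha.trans hb.symm)
    have h4 : ∏ j ∈ univ.erase (⟨s, hs⟩ : Fin g), (if j = (⟨s, hs⟩ : Fin g) then
          univ.filter (fun z : Fin (Λ * nN Λ j) => z.val = i) else univ).card =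
        ∏ j ∈ univ.erase (⟨s, hs⟩ : Fin g), Λ * nN Λ j := by
      refine Finset.prod_congr rfl fun j hj => ?_
      rw [if_neg (Finset.ne_of_mem_erase hj)]
      simp
    rw [h4] at h2
    rw [hcard, ← Finset.mul_prod_erase univ _ (mem_univ (⟨s, hs⟩ : Fin g))]
    calc _ ≤ (1 * ∏ j ∈ univ.erase (⟨s, hs⟩ : Fin g), Λ * nN Λ j) * (Λ * nN Λ s) :=
          Nat.mul_le_mul_right _ (h2.trans (Nat.mul_le_mul_right _ h3))
      _ = _ := by ring
  · intro s hs
    rw [hcard, ← nN_mul_aA s hs.le]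
    exact le_of_eq (by ring)

variable {V : Type} [Fintype V] [DecidableEq V] {g Λ : ℕ}

/-- Some node of depth `s` is filled by `Z` up to a fraction `B ^ (s - g)`. -/
def Hier.cond (H : Hier V g Λ) (B s : ℕ) (Z : Finset V) : Prop :=
  ∃ p, B ^ (g - s) * (H.node s p \ Z).card ≤ H.a s

open Classical in
/-- The level of a set of positions. -/
noncomputable def Hier.lev (H : Hier V g Λ) (B : ℕ) (Z : Finset V) : ℕ :=
  (range (g + 1)).sup (fun s => if H.cond B s Z then g - s else 0)

lemma Hier.cond_mono (H : Hier V g Λ) {B s : ℕ} {Z Z' : Finset V} (h : Z ⊆ Z')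
    (hc : H.cond B s Z) : H.cond B s Z' := by
  obtain ⟨p, hp⟩ := hc
  exact ⟨p, (Nat.mul_le_mul_left _
    (Finset.card_le_card (Finset.sdiff_subset_sdiff subset_rfl h))).trans hp⟩

lemma Hier.lev_le (H : Hier V g Λ) (B : ℕ) (Z : Finset V) : H.lev B Z ≤ g := by
  unfold Hier.lev
  refine Finset.sup_le fun s _ => ?_
  split_ifs <;> omega

lemma Hier.le_lev (H : Hier V g Λ) {B s : ℕ} {Z : Finset V} (hs : s ≤ g) (h : H.cond B s Z) :
    g - s ≤ H.lev B Z := by
  classical
  unfold Hier.lev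
  refine le_trans ?_ (Finset.le_sup (f := fun s => if H.cond B s Z then g - s else 0)
    (Finset.mem_range.mpr (Nat.lt_succ_of_le hs)))
  simp [h]

lemma Hier.lev_cases (H : Hier V g Λ) (B : ℕ) (Z : Finset V) :
    H.lev B Z = 0 ∨ ∃ s < g, H.cond B s Z ∧ H.lev B Z = g - s := by
  classical
  obtain ⟨s, hs, h⟩ := Finset.exists_mem_eq_sup (range (g + 1)) (by simp)
    (fun s => if H.cond B s Z then g - s else 0)
  have h' : H.lev B Z = if H.cond B s Z then g - s else 0 := by
    unfold Hier.lev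
    convert h
  by_cases hc : H.cond B s Z
  · rw [if_pos hc] at h'
    by_cases hsg : s < g
    · exact Or.inr ⟨s, hsg, hc, h'⟩
    · left; omega
  · rw [if_neg hc] at h'
    exact Or.inl h'

lemma Hier.lev_mono (H : Hier V g Λ) (B : ℕ) {Z Z' : Finset V} (h : Z ⊆ Z') :
    H.lev B Z ≤ H.lev B Z' := by
  rcases H.lev_cases B Z with h0 | ⟨s, hs, hc, he⟩
  · omega
  · rw [he]
    exact H.le_lev hs.le (H.cond_mono h hc)

lemma Hier.lev_empty (H : Hier V g Λ) {B : ℕ} (hB : 2 ≤ B) : H.lev B ∅ = 0 := by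
  rcases H.lev_cases B ∅ with h0 | ⟨s, hs, ⟨p, hp⟩, -⟩
  · exact h0
  · exfalso
    rw [Finset.sdiff_empty, H.card_node] at hp
    have h1 : 2 ≤ B ^ (g - s) := by
      calc 2 ≤ B := hB
        _ = B ^ 1 := (pow_one B).symm
        _ ≤ B ^ (g - s) := Nat.pow_le_pow_right (by omega) (by omega)
    have := H.a_pos s
    nlinarith only [hp, this, h1]

lemma Hier.a_zero (H : Hier V g Λ) : H.a 0 = Fintype.card V := by
  obtain ⟨p⟩ := H.ne
  rw [← H.card_node 0 p, H.node_zero, Finset.card_univ]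

lemma Hier.lev_full (H : Hier V g Λ) {B : ℕ} {Z : Finset V}
    (h : B ^ g * (univ \ Z).card ≤ Fintype.card V) : H.lev B Z = g := by
  obtain ⟨p⟩ := H.ne
  refine le_antisymm (H.lev_le B Z) ?_
  have := H.le_lev (B := B) (s := 0) (Z := Z) (Nat.zero_le _)
    ⟨p, by rw [H.node_zero, H.a_zero]; simpa using h⟩
  simpa using this

open Classical in
/-- Few windows are bad. -/
lemma Hier.bad_windows (H : Hier V g Λ) {B s : ℕ} (hs : s < g) {Z Z' : Finset V}
    (hc : H.cond B s Z) (hZ : B ^ (g - s) * (Z \ Z').card ≤ H.a s) :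
    B * ((range (H.T s)).filter fun i =>
      ¬ H.cond B (s + 1) (Z'.filter fun v => H.win s v = i)).card ≤ 2 * H.T s := by
  obtain ⟨p, hp⟩ := hc
  set R := H.node s p \ Z' with hR
  set bad := (range (H.T s)).filter fun i =>
      ¬ H.cond B (s + 1) (Z'.filter fun v => H.win s v = i) with hbad
  have hRc : R.card ≤ (H.node s p \ Z).card + (Z \ Z').card := by
    refine le_trans (Finset.card_le_card ?_) (Finset.card_union_le _ _)
    intro v hv
    simp only [hR, mem_sdiff, mem_union] at hv ⊢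
    tauto
  have h1 : B ^ (g - s) * R.card ≤ 2 * H.a s := by
    have := Nat.mul_le_mul_left (B ^ (g - s)) hRc
    rw [mul_add] at this
    omega
  have h2 : ∀ i ∈ bad, H.a (s + 1) ≤ B ^ (g - (s + 1)) * (R.filter fun v => H.win s v = i).card := by
    intro i hi
    rw [hbad, mem_filter, mem_range] at hi
    obtain ⟨p', hp'⟩ := H.child s hs p i hi.1
    have h3 : ¬ (B ^ (g - (s + 1)) *
        (H.node (s + 1) p' \ Z'.filter fun v => H.win s v = i).card ≤ H.a (s + 1)) :=
      fun h => hi.2 ⟨p', h⟩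
    refine le_trans (le_of_lt (not_le.mp h3)) (Nat.mul_le_mul_left _ (Finset.card_le_card ?_))
    intro v hv
    rw [mem_sdiff, mem_filter] at hv
    have h4 := hp' hv.1
    rw [mem_filter] at h4
    rw [mem_filter, hR, mem_sdiff]
    exact ⟨⟨h4.1, fun h => hv.2 ⟨h, h4.2⟩⟩, h4.2⟩
  have h3 : bad.card * H.a (s + 1) ≤ B ^ (g - (s + 1)) * R.card := by
    calc bad.card * H.a (s + 1) = ∑ _i ∈ bad, H.a (s + 1) := by simp
      _ ≤ ∑ i ∈ bad, B ^ (g - (s + 1)) * (R.filter fun v => H.win s v = i).card :=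
          Finset.sum_le_sum h2
      _ = B ^ (g - (s + 1)) * ∑ i ∈ bad, (R.filter fun v => H.win s v = i).card := by
          rw [Finset.mul_sum]
      _ ≤ _ := by
          rw [Finset.sum_card_fiberwise_eq_card_filter]
          exact Nat.mul_le_mul_left _ (Finset.card_filter_le _ _)
  have h4 : B ^ (g - s) = B * B ^ (g - (s + 1)) := by
    rw [← pow_succ']
    congr 1
    omega
  refine Nat.le_of_mul_le_mul_right ?_ (H.a_pos (s + 1))
  calc B * bad.card * H.a (s + 1) = B * (bad.card * H.a (s + 1)) := by ring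
    _ ≤ B * (B ^ (g - (s + 1)) * R.card) := Nat.mul_le_mul_left _ h3
    _ = B ^ (g - s) * R.card := by rw [h4]; ring
    _ ≤ 2 * H.a s := h1
    _ = 2 * H.T s * H.a (s + 1) := by rw [H.a_succ s hs]; ring

end Pool.Agent.Work.MP_0e72ae_gt
end

-- merged part: Pool.Agent.Work.MP_0e72ae_gt.NoProb
section
/-!
Marginals, heavy and light letters, and the choice of windows.
-/

namespace Pool.Agent.Work.MP_0e72ae_gt

open Finset

variable {V S : Type} [Fintype V] [DecidableEq V] [Fintype S] [DecidableEq S]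

/-- Positions where two words agree. -/
def ag (x y : V → S) : Finset V := univ.filter fun v => x v = y v

/-- Weight of the words with letter `z` at position `v`. -/
def marg (μ : (V → S) → ℝ) (v : V) (z : S) : ℝ := ∑ x, if x v = z then μ x else 0

lemma marg_nonneg {μ : (V → S) → ℝ} (h : ∀ x, 0 ≤ μ x) (v : V) (z : S) : 0 ≤ marg μ v z :=
  Finset.sum_nonneg fun x _ => by split_ifs; exacts [h x, le_rfl]

lemma sum_marg (μ : (V → S) → ℝ) (v : V) : ∑ z, marg μ v z = ∑ x, μ x := by
  unfold marg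
  rw [Finset.sum_comm]
  refine Finset.sum_congr rfl fun x _ => ?_
  simp

open Classical in
/-- Heavy letters at the positions of `A`. -/
noncomputable def heavy (μ : (V → S) → ℝ) (η : ℝ) (A : Finset V) : Finset (V × S) :=
  univ.filter fun w => w.1 ∈ A ∧ η ≤ marg μ w.1 w.2

lemma mem_heavy {μ : (V → S) → ℝ} {η : ℝ} {A : Finset V} {w : V × S} :
    w ∈ heavy μ η A ↔ w.1 ∈ A ∧ η ≤ marg μ w.1 w.2 := by
  simp [heavy]

lemma card_heavy {μ : (V → S) → ℝ} (h : ∀ x, 0 ≤ μ x) (h1 : ∑ x, μ x = 1) (η : ℝ)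
    (A : Finset V) : ((heavy μ η A).card : ℝ) * η ≤ A.card := by
  calc ((heavy μ η A).card : ℝ) * η = ∑ _w ∈ heavy μ η A, η := by simp
    _ ≤ ∑ w ∈ heavy μ η A, marg μ w.1 w.2 :=
        Finset.sum_le_sum fun w hw => (mem_heavy.mp hw).2
    _ ≤ ∑ w ∈ A ×ˢ (univ : Finset S), marg μ w.1 w.2 := by
        refine Finset.sum_le_sum_of_subset_of_nonneg ?_ fun w _ _ => marg_nonneg h _ _
        intro w hw
        simp [(mem_heavy.mp hw).1]
    _ = ∑ v ∈ A, ∑ z, marg μ v z := Finset.sum_product _ _ _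
    _ = A.card := by simp [sum_marg, h1]

open Classical in
/-- Agreement positions whose common letter is light. -/
noncomputable def light (μ : (V → S) → ℝ) (η : ℝ) (x y : V → S) : Finset V :=
  univ.filter fun v => x v = y v ∧ marg μ v (y v) < η

lemma mem_light {μ : (V → S) → ℝ} {η : ℝ} {x y : V → S} {v : V} :
    v ∈ light μ η x y ↔ x v = y v ∧ marg μ v (y v) < η := by
  simp [light]

lemma light_mass {μ : (V → S) → ℝ} {η : ℝ} (hη : 0 ≤ η) (y : V → S) :
    ∑ x, μ x * ((light μ η x y).card : ℝ) ≤ Fintype.card V * η := by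
  classical
  have h1 : ∀ x, μ x * ((light μ η x y).card : ℝ) =
      ∑ v, if marg μ v (y v) < η then (if x v = y v then μ x else 0) else 0 := by
    intro x
    unfold light
    rw [Finset.card_filter, Nat.cast_sum, Finset.mul_sum]
    refine Finset.sum_congr rfl fun v _ => ?_
    by_cases h2 : x v = y v <;> by_cases h3 : marg μ v (y v) < η <;> simp [h2, h3]
  rw [Finset.sum_congr rfl fun x _ => h1 x, Finset.sum_comm]
  calc _ ≤ ∑ _v : V, η := by
        refine Finset.sum_le_sum fun v _ => ?_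
        by_cases h3 : marg μ v (y v) < η
        · simp only [h3, if_true]
          exact h3.le
        · simp [h3, hη]
    _ = _ := by simp

lemma exists_le_avg {ι X : Type} [Fintype X] (I : Finset ι) (hI : I.Nonempty) (P : X → ℝ)
    (hP : ∀ x, 0 ≤ P x) (hP1 : ∑ x, P x = 1) (f : ι → X → ℝ) (c : ℝ)
    (h : ∀ x, ∑ i ∈ I, f i x ≤ I.card * c) : ∃ i ∈ I, ∑ x, P x * f i x ≤ c := by
  refine Finset.exists_le_of_sum_le hI ?_
  rw [Finset.sum_comm]
  calc ∑ x, ∑ i ∈ I, P x * f i x = ∑ x, P x * ∑ i ∈ I, f i x := by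
        simp only [Finset.mul_sum]
    _ ≤ ∑ x, P x * (I.card * c) :=
        Finset.sum_le_sum fun x _ => mul_le_mul_of_nonneg_left (h x) (hP x)
    _ = ∑ _i ∈ I, c := by rw [← Finset.sum_mul, hP1]; simp

variable {g Λ : ℕ}

/-- The threshold at depth `s`. -/
noncomputable def Hier.eta (H : Hier V g Λ) (B s : ℕ) : ℝ :=
  (H.a s : ℝ) / ((B : ℝ) ^ (g - s + 1) * Fintype.card V)

/-- The window `i` fails at depth `s` for the pair `x, y`. -/
def Hier.bad (H : Hier V g Λ) (B s : ℕ) (μ : (V → S) → ℝ) (i : ℕ) (x y : V → S) : Prop :=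
  H.cond B s (ag x y) ∧ B ^ (g - s) * (light μ (H.eta B s) x y).card ≤ H.a s ∧
    ¬ H.cond B (s + 1) ((ag x y \ light μ (H.eta B s) x y).filter fun v => H.win s v = i)

open Classical in
lemma Hier.exists_window (H : Hier V g Λ) {B : ℕ} (hB : 0 < B) {s : ℕ} (hs : s < g)
    {μ ω : (V → S) → ℝ} (hμ : ∀ x, 0 ≤ μ x) (hμ1 : ∑ x, μ x = 1)
    (hω : ∀ x, 0 ≤ ω x) (hω1 : ∑ x, ω x = 1) :
    ∃ i, ∑ y, ω y * ∑ x, μ x * (if H.bad B s μ i x y then (1 : ℝ) else 0) ≤ 2 / B := by
  have hB' : (0 : ℝ) < B := by exact_mod_cast hB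
  have key : ∀ x y : V → S, ∑ i ∈ range (H.T s), (if H.bad B s μ i x y then (1 : ℝ) else 0) ≤
      (range (H.T s)).card * (2 / B) := by
    intro x y
    rw [Finset.sum_boole, Finset.card_range]
    by_cases hc : H.cond B s (ag x y) ∧ B ^ (g - s) * (light μ (H.eta B s) x y).card ≤ H.a s
    · have h1 := H.bad_windows (B := B) hs (Z := ag x y)
        (Z' := ag x y \ light μ (H.eta B s) x y) hc.1 (by
          refine le_trans (Nat.mul_le_mul_left _ (Finset.card_le_card ?_)) hc.2
          intro v hv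
          simp only [mem_sdiff] at hv
          tauto)
      have h2 : ((range (H.T s)).filter fun i => H.bad B s μ i x y).card ≤
          ((range (H.T s)).filter fun i => ¬ H.cond B (s + 1)
            ((ag x y \ light μ (H.eta B s) x y).filter fun v => H.win s v = i)).card := by
        refine Finset.card_le_card fun i hi => ?_
        rw [mem_filter] at hi ⊢
        exact ⟨hi.1, hi.2.2.2⟩
      have h3 : B * ((range (H.T s)).filter fun i => H.bad B s μ i x y).card ≤ 2 * H.T s :=
        le_trans (Nat.mul_le_mul_left _ h2) h1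
      have h4 : (B : ℝ) * ((range (H.T s)).filter fun i => H.bad B s μ i x y).card ≤
          2 * H.T s := by exact_mod_cast h3
      rw [mul_div_assoc', le_div_iff₀ hB']
      linarith only [h4]
    · have h2 : ((range (H.T s)).filter fun i => H.bad B s μ i x y) = ∅ := by
        refine Finset.filter_eq_empty_iff.mpr fun i _ hi => hc ⟨hi.1, hi.2.1⟩
      rw [h2]
      simp only [card_empty, Nat.cast_zero]
      positivity
  obtain ⟨i, -, hi⟩ := exists_le_avg (range (H.T s)) (by simp [(H.T_pos s).ne']) ω hω hω1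
    (fun i y => ∑ x, μ x * (if H.bad B s μ i x y then (1 : ℝ) else 0)) (2 / B) (by
      intro y
      rw [Finset.sum_comm]
      calc ∑ x, ∑ i ∈ range (H.T s), μ x * (if H.bad B s μ i x y then (1 : ℝ) else 0)
          = ∑ x, μ x * ∑ i ∈ range (H.T s), (if H.bad B s μ i x y then (1 : ℝ) else 0) := by
            simp only [Finset.mul_sum]
        _ ≤ ∑ x, μ x * ((range (H.T s)).card * (2 / B)) :=
            Finset.sum_le_sum fun x _ => mul_le_mul_of_nonneg_left (key x y) (hμ x)
        _ = _ := by rw [← Finset.sum_mul, hμ1, one_mul])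
  exact ⟨i, hi⟩

lemma Hier.card_pos (H : Hier V g Λ) : 0 < Fintype.card V := by
  rw [← H.a_zero]
  exact H.a_pos 0

lemma Hier.eta_pos (H : Hier V g Λ) {B : ℕ} (hB : 0 < B) (s : ℕ) : 0 < H.eta B s := by
  have := H.a_pos s
  have := H.card_pos
  unfold Hier.eta
  positivity

lemma Hier.le_eta (H : Hier V g Λ) {B : ℕ} (hB : 0 < B) (s : ℕ) :
    1 / ((B : ℝ) ^ (g + 1) * Fintype.card V) ≤ H.eta B s := by
  have h1 : (1 : ℝ) ≤ H.a s := by exact_mod_cast H.a_pos s
  have h2 : (0 : ℝ) < Fintype.card V := by exact_mod_cast H.card_pos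
  have h3 : (1 : ℝ) ≤ B := by exact_mod_cast hB
  unfold Hier.eta
  gcongr
  omega

open Classical in
/-- Pointwise comparison of the level with the level seen through the chosen windows. -/
lemma Hier.lev_le_add (H : Hier V g Λ) (B : ℕ) (μ : (V → S) → ℝ) (i : ℕ → ℕ)
    (D : Finset (V × S))
    (hD : ∀ s < g, heavy μ (H.eta B s) (univ.filter fun v => H.win s v = i s) ⊆ D)
    (x y : V → S) :
    (H.lev B (ag x y) : ℝ) - H.lev B ((ag x y).filter fun v => (v, y v) ∈ D) ≤
      1 + g * ∑ s ∈ range g, ((B : ℝ) ^ (g - s) / H.a s * (light μ (H.eta B s) x y).card +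
        if H.bad B s μ (i s) x y then (1 : ℝ) else 0) := by
  have hnn : ∀ s ∈ range g, (0 : ℝ) ≤ (B : ℝ) ^ (g - s) / H.a s * (light μ (H.eta B s) x y).card +
      if H.bad B s μ (i s) x y then (1 : ℝ) else 0 := by
    intro s _
    have : (0 : ℝ) ≤ if H.bad B s μ (i s) x y then (1 : ℝ) else 0 := by
      split_ifs <;> norm_num
    positivity
  have hsum := Finset.sum_nonneg hnn
  have hg : (0 : ℝ) ≤ g := Nat.cast_nonneg _
  have h0 : (0 : ℝ) ≤ H.lev B ((ag x y).filter fun v => (v, y v) ∈ D) := Nat.cast_nonneg _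
  rcases H.lev_cases B (ag x y) with h | ⟨s, hs, hc, he⟩
  · rw [h]
    have := mul_nonneg hg hsum
    simp only [Nat.cast_zero]
    linarith only [this]
  have hle : (H.lev B (ag x y) : ℝ) ≤ g := by exact_mod_cast H.lev_le B _
  have hone : 1 ≤ (B : ℝ) ^ (g - s) / H.a s * (light μ (H.eta B s) x y).card +
        (if H.bad B s μ (i s) x y then (1 : ℝ) else 0) →
      (H.lev B (ag x y) : ℝ) - H.lev B ((ag x y).filter fun v => (v, y v) ∈ D) ≤
      1 + g * ∑ s ∈ range g, ((B : ℝ) ^ (g - s) / H.a s * (light μ (H.eta B s) x y).card +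
        if H.bad B s μ (i s) x y then (1 : ℝ) else 0) := by
    intro h1
    have h2 := Finset.single_le_sum hnn (Finset.mem_range.mpr hs)
    have h3 := mul_le_mul_of_nonneg_left (h1.trans h2) hg
    linarith only [hle, h3]
  have ha : (0 : ℝ) < H.a s := by exact_mod_cast H.a_pos s
  by_cases h1 : B ^ (g - s) * (light μ (H.eta B s) x y).card ≤ H.a s
  · by_cases h2 : H.bad B s μ (i s) x y
    · apply hone
      rw [if_pos h2]
      have : (0 : ℝ) ≤ (B : ℝ) ^ (g - s) / H.a s * (light μ (H.eta B s) x y).card := by positivity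
      linarith only [this]
    · have h3 : H.cond B (s + 1)
          ((ag x y \ light μ (H.eta B s) x y).filter fun v => H.win s v = i s) := by
        by_contra h
        exact h2 ⟨hc, h1, h⟩
      have h4 : ((ag x y \ light μ (H.eta B s) x y).filter fun v => H.win s v = i s) ⊆
          (ag x y).filter fun v => (v, y v) ∈ D := by
        intro v hv
        rw [mem_filter, mem_sdiff, mem_light] at hv
        rw [mem_filter]
        refine ⟨hv.1.1, hD s hs (mem_heavy.mpr ⟨by simpa using hv.2, ?_⟩)⟩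
        have h5 : x v = y v := by simpa [ag] using hv.1.1
        by_contra h6
        exact hv.1.2 ⟨h5, not_le.mp h6⟩
      have h5 := H.le_lev (show s + 1 ≤ g by omega) (H.cond_mono h4 h3)
      have h6 : H.lev B (ag x y) ≤ H.lev B ((ag x y).filter fun v => (v, y v) ∈ D) + 1 := by
        omega
      have h7 : (H.lev B (ag x y) : ℝ) ≤ H.lev B ((ag x y).filter fun v => (v, y v) ∈ D) + 1 := by
        exact_mod_cast h6
      have := mul_nonneg hg hsum
      linarith only [h7, this]
  · apply hone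
    have h2 : (H.a s : ℝ) ≤ (B : ℝ) ^ (g - s) * (light μ (H.eta B s) x y).card := by
      exact_mod_cast (not_le.mp h1).le
    have h3 : 1 ≤ (B : ℝ) ^ (g - s) / H.a s * (light μ (H.eta B s) x y).card := by
      rw [div_mul_eq_mul_div, le_div_iff₀ ha]
      linarith only [h2]
    have : (0 : ℝ) ≤ if H.bad B s μ (i s) x y then (1 : ℝ) else 0 := by
      split_ifs <;> norm_num
    linarith only [h3, this]

/-- The choice of a small set of heavy letters through which the level is seen up to `1`. -/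
theorem Hier.select (H : Hier V g Λ) {B : ℕ} (hB : 0 < B)
    {μ ω : (V → S) → ℝ} (hμ : ∀ x, 0 ≤ μ x) (hμ1 : ∑ x, μ x = 1)
    (hω : ∀ x, 0 ≤ ω x) (hω1 : ∑ x, ω x = 1) :
    ∃ D : Finset (V × S),
      D ⊆ heavy μ (1 / ((B : ℝ) ^ (g + 1) * Fintype.card V)) univ ∧
      D.card * Λ ≤ g * (B ^ (g + 1) * Fintype.card V) ∧
      ∑ y, ω y * ∑ x, μ x * ((H.lev B (ag x y) : ℝ) -
        H.lev B ((ag x y).filter fun v => (v, y v) ∈ D)) ≤ 1 + g * (g * (3 / B)) := by
  classical
  have hB' : (0 : ℝ) < B := by exact_mod_cast hB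
  have hm : (0 : ℝ) < Fintype.card V := by exact_mod_cast H.card_pos
  have hex : ∀ s, ∃ i, s < g →
      ∑ y, ω y * ∑ x, μ x * (if H.bad B s μ i x y then (1 : ℝ) else 0) ≤ 2 / B := by
    intro s
    by_cases hs : s < g
    · obtain ⟨i, hi⟩ := H.exists_window hB hs hμ hμ1 hω hω1
      exact ⟨i, fun _ => hi⟩
    · exact ⟨0, fun h => absurd h hs⟩
  choose i hi using hex
  refine ⟨(range g).biUnion fun s =>
    heavy μ (H.eta B s) (univ.filter fun v => H.win s v = i s), ?_, ?_, ?_⟩
  · intro w hw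
    obtain ⟨s, -, hs⟩ := Finset.mem_biUnion.mp hw
    exact mem_heavy.mpr ⟨mem_univ _, (H.le_eta hB s).trans (mem_heavy.mp hs).2⟩
  · have h1 : ∀ s ∈ range g,
        (heavy μ (H.eta B s) (univ.filter fun v => H.win s v = i s)).card * Λ ≤
          B ^ (g + 1) * Fintype.card V := by
      intro s hs
      rw [Finset.mem_range] at hs
      have h2 := card_heavy hμ hμ1 (H.eta B s) (univ.filter fun v => H.win s v = i s)
      set c : ℕ := (heavy μ (H.eta B s) (univ.filter fun v => H.win s v = i s)).card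
      set w : ℕ := (univ.filter fun v => H.win s v = i s).card
      have h3 : (w : ℝ) * H.T s ≤ Fintype.card V := by exact_mod_cast H.card_win s hs (i s)
      have h4 : (Λ : ℝ) * Fintype.card V ≤ H.T s * H.a s := by exact_mod_cast H.big s hs
      have h5 : (c : ℝ) * H.a s ≤ w * ((B : ℝ) ^ (g - s + 1) * Fintype.card V) := by
        unfold Hier.eta at h2
        rw [mul_div_assoc', div_le_iff₀ (by positivity)] at h2
        exact h2
      have h6 : (B : ℝ) ^ (g - s + 1) ≤ (B : ℝ) ^ (g + 1) :=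
        pow_le_pow_right₀ (by exact_mod_cast hB) (by omega)
      have h7 : (c : ℝ) * Λ * Fintype.card V ≤
          (B : ℝ) ^ (g + 1) * Fintype.card V * Fintype.card V := by
        calc (c : ℝ) * Λ * Fintype.card V = c * (Λ * Fintype.card V) := by ring
          _ ≤ c * (H.T s * H.a s) := by gcongr
          _ = H.T s * (c * H.a s) := by ring
          _ ≤ H.T s * (w * ((B : ℝ) ^ (g - s + 1) * Fintype.card V)) := by gcongr
          _ = (w * H.T s) * ((B : ℝ) ^ (g - s + 1) * Fintype.card V) := by ring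
          _ ≤ Fintype.card V * ((B : ℝ) ^ (g + 1) * Fintype.card V) := by gcongr
          _ = _ := by ring
      have h8 := le_of_mul_le_mul_right h7 hm
      exact_mod_cast h8
    calc _ ≤ (∑ s ∈ range g,
          (heavy μ (H.eta B s) (univ.filter fun v => H.win s v = i s)).card) * Λ :=
          Nat.mul_le_mul_right _ Finset.card_biUnion_le
      _ = ∑ s ∈ range g,
          (heavy μ (H.eta B s) (univ.filter fun v => H.win s v = i s)).card * Λ :=
          Finset.sum_mul _ _ _
      _ ≤ ∑ _s ∈ range g, B ^ (g + 1) * Fintype.card V := Finset.sum_le_sum h1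
      _ = _ := by simp
  · have hD := H.lev_le_add B μ i ((range g).biUnion fun s =>
      heavy μ (H.eta B s) (univ.filter fun v => H.win s v = i s)) (fun s hs =>
        Finset.subset_biUnion_of_mem (fun s =>
          heavy μ (H.eta B s) (univ.filter fun v => H.win s v = i s)) (Finset.mem_range.mpr hs))
    have h1 : ∀ s ∈ range g, ∑ y, ω y * ∑ x, μ x *
        ((B : ℝ) ^ (g - s) / H.a s * (light μ (H.eta B s) x y).card +
          if H.bad B s μ (i s) x y then (1 : ℝ) else 0) ≤ 3 / B := by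
      intro s hs
      rw [Finset.mem_range] at hs
      have ha : (0 : ℝ) < H.a s := by exact_mod_cast H.a_pos s
      have h2 : ∀ y, ∑ x, μ x * ((B : ℝ) ^ (g - s) / H.a s * (light μ (H.eta B s) x y).card) ≤
          1 / B := by
        intro y
        have h3 := light_mass (μ := μ) (H.eta_pos hB s).le y
        calc _ = (B : ℝ) ^ (g - s) / H.a s * ∑ x, μ x * (light μ (H.eta B s) x y).card := by
              rw [Finset.mul_sum]
              exact Finset.sum_congr rfl fun x _ => by ring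
          _ ≤ (B : ℝ) ^ (g - s) / H.a s * (Fintype.card V * H.eta B s) := by gcongr
          _ = 1 / B := by
              unfold Hier.eta
              field_simp
              ring
      have h4 : ∑ y, ω y * ∑ x, μ x *
          ((B : ℝ) ^ (g - s) / H.a s * (light μ (H.eta B s) x y).card) ≤ 1 / B := by
        calc _ ≤ ∑ y, ω y * (1 / B) :=
              Finset.sum_le_sum fun y _ => mul_le_mul_of_nonneg_left (h2 y) (hω y)
          _ = _ := by rw [← Finset.sum_mul, hω1, one_mul]
      have h5 := hi s hs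
      simp only [mul_add, Finset.sum_add_distrib]
      have : (3 : ℝ) / B = 1 / B + 2 / B := by ring
      linarith only [h4, h5, this]
    calc _ ≤ ∑ y, ω y * ∑ x, μ x * (1 + g * ∑ s ∈ range g,
          ((B : ℝ) ^ (g - s) / H.a s * (light μ (H.eta B s) x y).card +
            if H.bad B s μ (i s) x y then (1 : ℝ) else 0)) :=
          Finset.sum_le_sum fun y _ => mul_le_mul_of_nonneg_left
            (Finset.sum_le_sum fun x _ => mul_le_mul_of_nonneg_left (hD x y) (hμ x)) (hω y)
      _ = 1 + g * ∑ s ∈ range g, ∑ y, ω y * ∑ x, μ x *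
          ((B : ℝ) ^ (g - s) / H.a s * (light μ (H.eta B s) x y).card +
            if H.bad B s μ (i s) x y then (1 : ℝ) else 0) := by
          have h2 : ∀ (f : ℕ → (V → S) → (V → S) → ℝ),
              ∑ y, ω y * ∑ x, μ x * (1 + g * ∑ s ∈ range g, f s x y) =
              1 + g * ∑ s ∈ range g, ∑ y, ω y * ∑ x, μ x * f s x y := by
            intro f
            have h3 : ∀ y, ∑ x, μ x * (1 + g * ∑ s ∈ range g, f s x y) =
                1 + g * ∑ s ∈ range g, ∑ x, μ x * f s x y := by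
              intro y
              rw [Finset.sum_comm]
              simp only [mul_add, Finset.sum_add_distrib, mul_one, hμ1, Finset.mul_sum]
              congr 1
              exact Finset.sum_congr rfl fun x _ => Finset.sum_congr rfl fun s _ => by ring
            simp only [h3]
            rw [Finset.sum_comm]
            simp only [mul_add, Finset.sum_add_distrib, mul_one, hω1]
            congr 1
            rw [Finset.mul_sum]
            refine Finset.sum_congr rfl fun y _ => ?_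
            rw [← Finset.mul_sum]
            ring
          exact h2 _
      _ ≤ 1 + g * ∑ _s ∈ range g, (3 / B : ℝ) := by
          gcongr with s hs
          exact h1 s hs
      _ = _ := by simp

end Pool.Agent.Work.MP_0e72ae_gt
end

-- merged part: Pool.Agent.Work.MP_0e72ae_gt.NoPair
section
/-!
Colour patterns of words and the comparison of two rungs of a ladder.
-/

namespace Pool.Agent.Work.MP_0e72ae_gt

open Finset

variable {V S : Type} [Fintype V] [DecidableEq V] [Fintype S] [DecidableEq S] {n : ℕ}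

/-- The colour pattern of a word: colours of the letters in `H`, nothing elsewhere. -/
def pat (H : Finset (V × S)) (χ : V × S → Fin n) (x : V → S) : V → Option (Fin n) :=
  fun v => if (v, x v) ∈ H then some (χ (v, x v)) else none

/-- Positions where a pattern shows the colour of a letter of `y` lying in `D`. -/
def cmp (D : Finset (V × S)) (χ : V × S → Fin n) (π : V → Option (Fin n)) (y : V → S) :
    Finset V :=
  univ.filter fun v => (v, y v) ∈ D ∧ π v = some (χ (v, y v))

lemma cmp_subset {D H : Finset (V × S)} {χ : V × S → Fin n} (hD : D ⊆ H)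
    (hχ : Set.InjOn χ H) (x y : V → S) : cmp D χ (pat H χ x) y ⊆ ag x y := by
  intro v hv
  simp only [cmp, pat, mem_filter, mem_univ, true_and] at hv
  obtain ⟨h1, h2⟩ := hv
  split_ifs at h2 with h3
  have h4 := hχ (Finset.mem_coe.mpr h3) (Finset.mem_coe.mpr (hD h1)) (Option.some.inj h2)
  simpa [ag] using h4

lemma subset_cmp (D H : Finset (V × S)) (χ : V × S → Fin n) (x y : V → S) {v : V}
    (h1 : v ∈ ag x y) (h2 : (v, y v) ∈ H) (h3 : (v, y v) ∈ D) : v ∈ cmp D χ (pat H χ x) y := by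
  have h4 : x v = y v := by simpa [ag] using h1
  simp [cmp, pat, h4, h2, h3]

theorem pair_bound (lev : Finset V → ℕ) (g : ℕ) (hmono : ∀ Z Z', Z ⊆ Z' → lev Z ≤ lev Z')
    (hle : ∀ Z, lev Z ≤ g) {μ μ' ν : (V → S) → ℝ} (hμ : ∀ x, 0 ≤ μ x)
    (hμ' : ∀ x, 0 ≤ μ' x) (hμ'1 : ∑ x, μ' x = 1) (hν : ∑ y, |ν y| = 1)
    {η δ ε : ℝ} (hη : 0 ≤ η) {H H' D : Finset (V × S)} {χ : V × S → Fin n}
    (hD : D ⊆ H) (hD' : D ⊆ H') (hχ : Set.InjOn χ H) (hχ' : Set.InjOn χ H')
    (hH : heavy (fun y => |ν y|) η univ ⊆ H) (hH' : heavy μ' η univ ⊆ H')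
    (hclose : ∀ F : (V → Option (Fin n)) → ℝ, (∀ π, |F π| ≤ g) →
      ∑ x, μ x * F (pat H χ x) - ∑ x, μ' x * F (pat H' χ x) ≤ δ)
    (hsel : ∑ y, |ν y| * ∑ x, μ x * ((lev (ag x y) : ℝ) -
      lev ((ag x y).filter fun v => (v, y v) ∈ D)) ≤ ε) :
    ∑ y, ν y * (∑ x, μ x * (lev (ag x y) : ℝ) - ∑ x, μ' x * (lev (ag x y) : ℝ)) ≤
      ε + g * (2 * (Fintype.card V * η)) + δ := by
  have hg : (0 : ℝ) ≤ g := Nat.cast_nonneg _
  have hmono' : ∀ Z Z', Z ⊆ Z' → (lev Z : ℝ) ≤ lev Z' := fun Z Z' h => by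
    exact_mod_cast hmono Z Z' h
  have habs : ∀ Z, |(lev Z : ℝ)| ≤ g := fun Z => by
    rw [abs_of_nonneg (Nat.cast_nonneg _)]
    exact_mod_cast hle Z
  set e1 : (V → S) → ℝ := fun y => ∑ x, μ x * ((lev (ag x y) : ℝ) -
      lev ((ag x y).filter fun v => (v, y v) ∈ D)) with he1
  set e2 : (V → S) → ℝ := fun y => ∑ x, μ' x * (g * ((light μ' η x y).card +
      (light (fun y => |ν y|) η y x).card : ℝ)) with he2
  have e1_nonneg : ∀ y, 0 ≤ e1 y := fun y => Finset.sum_nonneg fun x _ =>
    mul_nonneg (hμ x) (sub_nonneg.mpr (hmono' _ _ (Finset.filter_subset _ _)))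
  have e2_nonneg : ∀ y, 0 ≤ e2 y := fun y => Finset.sum_nonneg fun x _ =>
    mul_nonneg (hμ' x) (by positivity)
  have hup : ∀ y, ∑ x, μ x * (lev (ag x y) : ℝ) - ∑ x, μ' x * (lev (ag x y) : ℝ) ≤ e1 y + δ := by
    intro y
    have h1 := hclose (fun π => lev (cmp D χ π y)) (fun π => habs _)
    have h2 : ∑ x, μ' x * (lev (cmp D χ (pat H' χ x) y) : ℝ) ≤ ∑ x, μ' x * (lev (ag x y) : ℝ) :=
      Finset.sum_le_sum fun x _ =>
        mul_le_mul_of_nonneg_left (hmono' _ _ (cmp_subset hD' hχ' x y)) (hμ' x)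
    have h3 : ∑ x, μ x * (lev ((ag x y).filter fun v => (v, y v) ∈ D) : ℝ) ≤
        ∑ x, μ x * (lev (cmp D χ (pat H χ x) y) : ℝ) := by
      refine Finset.sum_le_sum fun x _ => mul_le_mul_of_nonneg_left (hmono' _ _ ?_) (hμ x)
      intro v hv
      rw [mem_filter] at hv
      exact subset_cmp D H χ x y hv.1 (hD hv.2) hv.2
    have h4 : e1 y = ∑ x, μ x * (lev (ag x y) : ℝ) -
        ∑ x, μ x * (lev ((ag x y).filter fun v => (v, y v) ∈ D) : ℝ) := by
      simp only [he1, mul_sub, Finset.sum_sub_distrib]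
    linarith only [h1, h2, h3, h4]
  have hdown : ∀ y, ∑ x, μ' x * (lev (ag x y) : ℝ) - ∑ x, μ x * (lev (ag x y) : ℝ) ≤
      e2 y + δ := by
    intro y
    have h1 := hclose (fun π => -lev (cmp H χ π y)) (fun π => by rw [abs_neg]; exact habs _)
    simp only [mul_neg, Finset.sum_neg_distrib] at h1
    have h2 : ∑ x, μ x * (lev (cmp H χ (pat H χ x) y) : ℝ) ≤ ∑ x, μ x * (lev (ag x y) : ℝ) :=
      Finset.sum_le_sum fun x _ =>
        mul_le_mul_of_nonneg_left (hmono' _ _ (cmp_subset subset_rfl hχ x y)) (hμ x)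
    have h3 : ∑ x, μ' x * (lev (ag x y) : ℝ) ≤
        ∑ x, μ' x * (lev (cmp H χ (pat H' χ x) y) : ℝ) + e2 y := by
      rw [he2, ← Finset.sum_add_distrib]
      refine Finset.sum_le_sum fun x _ => ?_
      rw [← mul_add]
      refine mul_le_mul_of_nonneg_left ?_ (hμ' x)
      by_cases h4 : ag x y ⊆ cmp H χ (pat H' χ x) y
      · have h5 := hmono' _ _ h4
        have : (0 : ℝ) ≤ g * ((light μ' η x y).card + (light (fun y => |ν y|) η y x).card : ℝ) := by
          positivity
        linarith only [h5, this]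
      · obtain ⟨v, hv, hv'⟩ := Finset.not_subset.mp h4
        have h5 : x v = y v := by simpa [ag] using hv
        have h6 : 1 ≤ (light μ' η x y).card + (light (fun y => |ν y|) η y x).card := by
          by_contra h7
          have h8 : light μ' η x y = ∅ := Finset.card_eq_zero.mp (by omega)
          have h9 : light (fun y => |ν y|) η y x = ∅ := Finset.card_eq_zero.mp (by omega)
          refine hv' (subset_cmp H H' χ x y hv (hH' ?_) (hH ?_))
          · refine mem_heavy.mpr ⟨mem_univ _, not_lt.mp fun h => ?_⟩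
            have : v ∈ light μ' η x y := mem_light.mpr ⟨h5, h⟩
            simp [h8] at this
          · refine mem_heavy.mpr ⟨mem_univ _, not_lt.mp fun h => ?_⟩
            have : v ∈ light (fun y => |ν y|) η y x := mem_light.mpr ⟨h5.symm, by rwa [h5]⟩
            simp [h9] at this
        have h7 : (1 : ℝ) ≤ (light μ' η x y).card + (light (fun y => |ν y|) η y x).card := by
          exact_mod_cast h6
        have h8 : (lev (ag x y) : ℝ) ≤ g := by exact_mod_cast hle _
        have h9 : (0 : ℝ) ≤ lev (cmp H χ (pat H' χ x) y) := Nat.cast_nonneg _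
        linarith only [h8, h7, mul_nonneg_of_nonpos_of_nonpos (Mathlib.Tactic.Linarith.sub_nonpos_of_le (Mathlib.Tactic.Linarith.natCast_nonneg ℝ g)) (Mathlib.Tactic.Linarith.sub_nonpos_of_le h7)]
    linarith only [h1, h2, h3]
  have hpt : ∀ y, ν y * (∑ x, μ x * (lev (ag x y) : ℝ) - ∑ x, μ' x * (lev (ag x y) : ℝ)) ≤
      |ν y| * e1 y + |ν y| * e2 y + |ν y| * δ := by
    intro y
    rcases le_total 0 (ν y) with h | h
    · rw [abs_of_nonneg h]
      linarith only [h, hup, e2_nonneg, hup y, e2_nonneg y, mul_nonneg_of_nonpos_of_nonpos (Mathlib.Tactic.Linarith.sub_nonpos_of_le h) (Mathlib.Tactic.Linarith.sub_nonpos_of_le (hup y)), mul_nonneg_of_nonpos_of_nonpos (Mathlib.Tactic.Linarith.sub_nonpos_of_le h) (Mathlib.Tactic.Linarith.sub_nonpos_of_le (e2_nonneg y))]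
    · rw [abs_of_nonpos h]
      linarith only [h, hdown, e1_nonneg, hdown y, e1_nonneg y, mul_nonneg_of_nonpos_of_nonpos (Mathlib.Tactic.Linarith.sub_nonpos_of_le h) (Mathlib.Tactic.Linarith.sub_nonpos_of_le (hdown y)), mul_nonneg_of_nonpos_of_nonpos (Mathlib.Tactic.Linarith.sub_nonpos_of_le h) (Mathlib.Tactic.Linarith.sub_nonpos_of_le (e1_nonneg y))]
  have h2 : ∑ y, |ν y| * e2 y ≤ g * (2 * (Fintype.card V * η)) := by
    have h3 : ∑ y, |ν y| * ∑ x, μ' x * ((light μ' η x y).card : ℝ) ≤ Fintype.card V * η := by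
      calc _ ≤ ∑ y, |ν y| * (Fintype.card V * η) := Finset.sum_le_sum fun y _ =>
            mul_le_mul_of_nonneg_left (light_mass hη y) (abs_nonneg _)
        _ = _ := by rw [← Finset.sum_mul, hν, one_mul]
    have h4 : ∑ x, μ' x * ∑ y, |ν y| * ((light (fun y => |ν y|) η y x).card : ℝ) ≤
        Fintype.card V * η := by
      calc _ ≤ ∑ x, μ' x * (Fintype.card V * η) := Finset.sum_le_sum fun x _ =>
            mul_le_mul_of_nonneg_left (light_mass (μ := fun y => |ν y|) hη x) (hμ' x)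
        _ = _ := by rw [← Finset.sum_mul, hμ'1, one_mul]
    have h5 : ∑ y, |ν y| * e2 y = g * (∑ y, |ν y| * ∑ x, μ' x * ((light μ' η x y).card : ℝ) +
        ∑ x, μ' x * ∑ y, |ν y| * ((light (fun y => |ν y|) η y x).card : ℝ)) := by
      simp only [he2, Finset.mul_sum]
      rw [Finset.sum_comm (f := fun x y => μ' x *
        (|ν y| * ((light (fun y => |ν y|) η y x).card : ℝ))), ← Finset.sum_add_distrib,
        Finset.mul_sum]
      refine Finset.sum_congr rfl fun y _ => ?_
      rw [← Finset.sum_add_distrib, Finset.mul_sum]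
      exact Finset.sum_congr rfl fun x _ => by ring
    rw [h5]
    exact mul_le_mul_of_nonneg_left (by linarith only [h3, h4]) hg
  calc _ ≤ ∑ y, (|ν y| * e1 y + |ν y| * e2 y + |ν y| * δ) := Finset.sum_le_sum fun y _ => hpt y
    _ = ∑ y, |ν y| * e1 y + ∑ y, |ν y| * e2 y + δ := by
        rw [Finset.sum_add_distrib, Finset.sum_add_distrib, ← Finset.sum_mul, hν, one_mul]
    _ ≤ _ := by linarith

/-- The law of a pattern. -/
def push {P : Type} [DecidableEq P] (μ : (V → S) → ℝ) (f : (V → S) → P) (π : P) : ℝ :=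
  ∑ x, if f x = π then μ x else 0

lemma sum_push {P : Type} [Fintype P] [DecidableEq P] (μ : (V → S) → ℝ) (f : (V → S) → P)
    (F : P → ℝ) : ∑ x, μ x * F (f x) = ∑ π, push μ f π * F π := by
  unfold push
  simp only [Finset.sum_mul]
  rw [Finset.sum_comm]
  refine Finset.sum_congr rfl fun x _ => ?_
  simp

lemma push_nonneg {P : Type} [DecidableEq P] {μ : (V → S) → ℝ} (h : ∀ x, 0 ≤ μ x)
    (f : (V → S) → P) (π : P) : 0 ≤ push μ f π :=
  Finset.sum_nonneg fun x _ => by split_ifs; exacts [h x, le_rfl]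

lemma push_le_one {P : Type} [DecidableEq P] {μ : (V → S) → ℝ} (h : ∀ x, 0 ≤ μ x)
    (h1 : ∑ x, μ x = 1) (f : (V → S) → P) (π : P) : push μ f π ≤ 1 := by
  rw [← h1]
  exact Finset.sum_le_sum fun x _ => by split_ifs; exacts [le_rfl, h x]

lemma close_of_floor {P : Type} [Fintype P] [DecidableEq P] {μ μ' : (V → S) → ℝ}
    (h : ∀ x, 0 ≤ μ x) (h' : ∀ x, 0 ≤ μ' x) (f f' : (V → S) → P) {W : ℝ} (hW : 0 < W)
    (hfl : ∀ π, ⌊W * push μ f π⌋₊ = ⌊W * push μ' f' π⌋₊) (F : P → ℝ) {g : ℝ}
    (hF : ∀ π, |F π| ≤ g) :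
    ∑ x, μ x * F (f x) - ∑ x, μ' x * F (f' x) ≤ Fintype.card P * (g / W) := by
  rw [sum_push, sum_push, ← Finset.sum_sub_distrib]
  calc _ ≤ ∑ _π : P, g / W := by
        refine Finset.sum_le_sum fun π _ => ?_
        have h1 := Nat.floor_le (mul_nonneg hW.le (push_nonneg h f π))
        have h2 := Nat.floor_le (mul_nonneg hW.le (push_nonneg h' f' π))
        have h3 := Nat.lt_floor_add_one (W * push μ f π)
        have h4 := Nat.lt_floor_add_one (W * push μ' f' π)
        rw [hfl π] at h1 h3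
        have h5 : |W * (push μ f π - push μ' f' π)| ≤ 1 := by
          rw [abs_le]
          constructor <;> linarith only [h1, h4, h2, h3]
        rw [le_div_iff₀ hW]
        calc (push μ f π * F π - push μ' f' π * F π) * W
            = W * (push μ f π - push μ' f' π) * F π := by ring
          _ ≤ |W * (push μ f π - push μ' f' π) * F π| := le_abs_self _
          _ = |W * (push μ f π - push μ' f' π)| * |F π| := abs_mul _ _
          _ ≤ 1 * g := mul_le_mul h5 (hF π) (abs_nonneg _) zero_le_one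
          _ = g := one_mul g
    _ = _ := by simp

/-- One colouring is injective on a fixed fraction of a family of small sets. -/
lemma exists_colouring {W ι : Type} [Fintype W] [DecidableEq W] [Fintype ι] (hn : 0 < n)
    (H : ι → Finset W) (hH : ∀ i, (H i).card ≤ n) :
    ∃ (χ : W → Fin n) (I : Finset ι), (∀ i ∈ I, Set.InjOn χ (H i)) ∧
      Fintype.card ι ≤ n ^ n * I.card := by
  classical
  have h1 : ∀ i, n ^ Fintype.card W ≤
      n ^ n * (univ.filter fun χ : W → Fin n => Set.InjOn χ (H i)).card := by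
    intro i
    obtain ⟨c⟩ : Nonempty (H i ↪ Fin n) :=
      Function.Embedding.nonempty_of_card_le (by simpa using hH i)
    have h2 : Fintype.piFinset (fun w : W => if h : w ∈ H i then {c ⟨w, h⟩} else univ) ⊆
        univ.filter fun χ : W → Fin n => Set.InjOn χ (H i) := by
      intro χ hχ
      rw [Fintype.mem_piFinset] at hχ
      rw [mem_filter]
      refine ⟨mem_univ _, fun a ha b hb hab => ?_⟩
      have h3 := hχ a
      have h4 := hχ b
      rw [dif_pos (Finset.mem_coe.mp ha), Finset.mem_singleton] at h3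
      rw [dif_pos (Finset.mem_coe.mp hb), Finset.mem_singleton] at h4
      rw [h3, h4] at hab
      simpa using c.injective hab
    have h3 := Finset.card_le_card h2
    rw [Fintype.card_piFinset] at h3
    have h4 : n ^ Fintype.card W = (∏ w : W, if w ∈ H i then n else 1) *
        ∏ w : W, (if h : w ∈ H i then ({c ⟨w, h⟩} : Finset (Fin n)) else univ).card := by
      rw [← Finset.prod_mul_distrib, ← Finset.card_univ, ← Finset.prod_const]
      refine Finset.prod_congr rfl fun w _ => ?_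
      split_ifs <;> simp
    have h5 : (∏ w : W, if w ∈ H i then n else 1) ≤ n ^ n := by
      rw [Finset.prod_ite_mem, Finset.univ_inter, Finset.prod_const]
      exact Nat.pow_le_pow_right hn (hH i)
    rw [h4]
    exact Nat.mul_le_mul h5 h3
  have h2 : ∑ _χ : W → Fin n, Fintype.card ι ≤
      ∑ χ : W → Fin n, n ^ n * (univ.filter fun i => Set.InjOn χ (H i)).card := by
    calc ∑ _χ : W → Fin n, Fintype.card ι = ∑ _i : ι, n ^ Fintype.card W := by
          simp [mul_comm]
      _ ≤ ∑ i : ι, n ^ n * (univ.filter fun χ : W → Fin n => Set.InjOn χ (H i)).card :=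
          Finset.sum_le_sum fun i _ => h1 i
      _ = _ := by
          rw [← Finset.mul_sum, ← Finset.mul_sum]
          simp only [Finset.card_filter]
          rw [Finset.sum_comm]
  haveI : Nonempty (W → Fin n) := ⟨fun _ => ⟨0, hn⟩⟩
  obtain ⟨χ, -, hχ⟩ := Finset.exists_le_of_sum_le Finset.univ_nonempty h2
  exact ⟨χ, _, fun i hi => (Finset.mem_filter.mp hi).2, hχ⟩

/-- A small set is listed by a short tuple. -/
lemma exists_code {W : Type} {e : ℕ} (D : Finset W) (hD : D.card ≤ e) :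
    ∃ f : Fin e → Option W, ∀ w, w ∈ D ↔ ∃ j, f j = some w := by
  refine ⟨fun j => D.toList[j.val]?, fun w => ?_⟩
  rw [← Finset.mem_toList, List.mem_iff_getElem?]
  constructor
  · rintro ⟨i, hi⟩
    have h1 : i < D.toList.length := (List.getElem?_eq_some_iff.mp hi).1
    rw [Finset.length_toList] at h1
    exact ⟨⟨i, by omega⟩, hi⟩
  · rintro ⟨j, hj⟩
    exact ⟨j, hj⟩

end Pool.Agent.Work.MP_0e72ae_gt
end

-- merged part: Pool.Agent.Work.MP_0e72ae_gt.NoComb
section
/-!
The combinatorial core: a level function on sets of positions whose agreement matrix has only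
short ladders.
-/

namespace Pool.Agent.Work.MP_0e72ae_gt

open Finset

theorem Hier.ladder {V : Type} [Fintype V] [DecidableEq V] {g Λ : ℕ} (H : Hier V g Λ)
    (hg : 1 ≤ g) {B e : ℕ} (hB : B = 16 * g ^ 2)
    (he : ∀ d : ℕ, d * Λ ≤ g * (B ^ (g + 1) * Fintype.card V) → d ≤ e) :
    ∃ C : ℕ, ∀ (S : Type) [Fintype S] [DecidableEq S] (N : ℕ) (μ ν : Fin N → (V → S) → ℝ),
        (∀ i x, 0 ≤ μ i x) → (∀ i, ∑ x, μ i x = 1) → (∀ i, ∑ y, |ν i y| = 1) →
        (∀ l i, l < i → 2 ≤ ∑ y, ν i y *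
          (∑ x, μ i x * (H.lev B (ag x y) : ℝ) - ∑ x, μ l x * (H.lev B (ag x y) : ℝ))) →
        N ≤ C * (Fintype.card V * Fintype.card S + 1) ^ e := by
  classical
  have hB0 : 0 < B := by rw [hB]; positivity
  have hm := H.card_pos
  set M : ℕ := B ^ (g + 1) * Fintype.card V with hM
  have hM0 : 0 < M := by positivity
  set n : ℕ := 2 * (Fintype.card V * M) with hn
  have hn0 : 0 < n := by positivity
  set p : ℕ := Fintype.card (V → Option (Fin n)) with hp
  have hp0 : 0 < p := Fintype.card_pos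
  set W : ℕ := 4 * g * p with hW
  have hW0 : 0 < W := by positivity
  refine ⟨n ^ n * (W + 1) ^ p, fun S _ _ N μ ν hμ hμ1 hν hlad => ?_⟩
  set η : ℝ := 1 / ((B : ℝ) ^ (g + 1) * Fintype.card V) with hη
  have hηM : η = 1 / (M : ℝ) := by rw [hη, hM]; push_cast; rfl
  have hM' : (0 : ℝ) < M := by exact_mod_cast hM0
  have hη0 : 0 ≤ η := by rw [hηM]; positivity
  have hheavy : ∀ ρ : (V → S) → ℝ, (∀ x, 0 ≤ ρ x) → ∑ x, ρ x = 1 →
      (heavy ρ η univ).card ≤ Fintype.card V * M := by
    intro ρ h h1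
    have h2 := card_heavy h h1 η univ
    generalize (heavy ρ η univ).card = c at h2 ⊢
    rw [hηM, mul_one_div, div_le_iff₀ hM', Finset.card_univ] at h2
    exact_mod_cast h2
  choose D hD1 hD2 hD3 using fun i => H.select hB0 (hμ i) (hμ1 i)
    (ω := fun y => |ν i y|) (fun y => abs_nonneg _) (hν i)
  set Hs : Fin N → Finset (V × S) := fun i =>
    heavy (μ i) η univ ∪ heavy (fun y => |ν i y|) η univ with hHs
  have hHc : ∀ i, (Hs i).card ≤ n := by
    intro i
    have h1 := hheavy (μ i) (hμ i) (hμ1 i)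
    have h2 := hheavy (fun y => |ν i y|) (fun y => abs_nonneg _) (hν i)
    have h3 := Finset.card_union_le (heavy (μ i) η univ) (heavy (fun y => |ν i y|) η univ)
    simp only [hHs]
    omega
  obtain ⟨χ, I, hχ, hI⟩ := exists_colouring hn0 Hs hHc
  choose code hcode using fun i => exists_code (D i) (he _ (hD2 i))
  have hW' : (0 : ℝ) < W := by exact_mod_cast hW0
  have hfl : ∀ i π, ⌊(W : ℝ) * push (μ i) (pat (Hs i) χ) π⌋₊ < W + 1 := by
    intro i π
    refine Nat.lt_succ_of_le (Nat.floor_le_of_le ?_)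
    exact mul_le_of_le_one_right hW'.le (push_le_one (hμ i) (hμ1 i) _ _)
  set Φ : Fin N → (Fin e → Option (V × S)) × ((V → Option (Fin n)) → Fin (W + 1)) := fun i =>
    (code i, fun π => ⟨_, hfl i π⟩) with hΦ
  have hkey : ∀ l ∈ I, ∀ i ∈ I, l < i → Φ i ≠ Φ l := by
    intro l hl i hi hli hEq
    have h1 : code i = code l := congrArg Prod.fst hEq
    have h2 : D i = D l := by
      ext w
      rw [hcode, hcode, h1]
    have h3 : ∀ π, ⌊(W : ℝ) * push (μ i) (pat (Hs i) χ) π⌋₊ =
        ⌊(W : ℝ) * push (μ l) (pat (Hs l) χ) π⌋₊ := fun π =>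
      congrArg Fin.val (congrFun (congrArg Prod.snd hEq) π)
    have h4 := pair_bound (H.lev B) g (fun Z Z' h => H.lev_mono B h) (H.lev_le B)
      (hμ i) (hμ l) (hμ1 l) (hν i) hη0 (H := Hs i) (H' := Hs l) (D := D i) (χ := χ)
      ((hD1 i).trans Finset.subset_union_left)
      (h2 ▸ (hD1 l).trans Finset.subset_union_left) (hχ i hi) (hχ l hl)
      Finset.subset_union_right Finset.subset_union_left
      (fun F hF => close_of_floor (hμ i) (hμ l) _ _ hW' h3 F hF) (hD3 i)
    have h5 := hlad l i hli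
    have hg' : (1 : ℝ) ≤ g := by exact_mod_cast hg
    have hp' : (0 : ℝ) < p := by exact_mod_cast hp0
    have hm' : (0 : ℝ) < Fintype.card V := by exact_mod_cast hm
    have hBr : (B : ℝ) = 16 * g ^ 2 := by rw [hB]; push_cast; rfl
    have h6 : (g : ℝ) * (g * (3 / B)) = 3 / 16 := by
      rw [hBr]
      field_simp
    have h7 : (p : ℝ) * (g / W) = 1 / 4 := by
      rw [hW]
      push_cast
      field_simp
    have h8 : (g : ℝ) * (2 * (Fintype.card V * η)) ≤ 1 / 8 := by
      have h9 : (B : ℝ) ≤ (B : ℝ) ^ (g + 1) :=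
        le_self_pow₀ (by rw [hBr]; linarith only [hg', mul_nonneg_of_nonpos_of_nonpos (Mathlib.Tactic.Linarith.sub_nonpos_of_le (Mathlib.Tactic.Linarith.natCast_nonneg ℝ g)) (Mathlib.Tactic.Linarith.sub_nonpos_of_le hg')]) (by omega)
      have h10 : (Fintype.card V : ℝ) * η = 1 / (B : ℝ) ^ (g + 1) := by
        rw [hη]
        field_simp
      have h11 : (0 : ℝ) < (B : ℝ) ^ (g + 1) := by positivity
      rw [h10, mul_one_div, ← mul_div_assoc, div_le_iff₀ h11]
      linarith only [hBr, h9, hg', mul_nonneg_of_nonpos_of_nonpos (Mathlib.Tactic.Linarith.sub_nonpos_of_le (Mathlib.Tactic.Linarith.natCast_nonneg ℝ g)) (Mathlib.Tactic.Linarith.sub_nonpos_of_le hg')]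
    rw [← hp] at h4
    linarith only [h4, h5, h6, h7, h8]
  have hinj : Set.InjOn Φ I := by
    intro a ha b hb hab
    rcases lt_trichotomy a b with h | h | h
    · exact absurd hab.symm (hkey a ha b hb h)
    · exact h
    · exact absurd hab (hkey b hb a ha h)
  have hcard := Finset.card_le_card_of_injOn (t := univ) Φ (fun _ _ => by simp) hinj
  rw [Finset.card_univ, Fintype.card_prod, Fintype.card_fun, Fintype.card_fun, ← hp] at hcard
  simp only [Fintype.card_option, Fintype.card_prod, Fintype.card_fin] at hcard hI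
  calc N ≤ n ^ n * I.card := hI
    _ ≤ n ^ n * ((Fintype.card V * Fintype.card S + 1) ^ e * (W + 1) ^ p) :=
        Nat.mul_le_mul_left _ hcard
    _ = _ := by ring

theorem comb (g q : ℕ) (hg : 1 ≤ g) (hq : 1 ≤ q) :
    ∃ (V : Type) (_ : Fintype V) (_ : DecidableEq V) (lev : Finset V → ℕ) (k e C : ℕ),
      q * e < k ∧ (∀ Z, lev Z ≤ g) ∧ lev ∅ = 0 ∧
      (∀ Z : Finset V, (univ \ Z).card < k → lev Z = g) ∧
      ∀ (S : Type) [Fintype S] [DecidableEq S] (N : ℕ) (μ ν : Fin N → (V → S) → ℝ),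
        (∀ i x, 0 ≤ μ i x) → (∀ i, ∑ x, μ i x = 1) → (∀ i, ∑ y, |ν i y| = 1) →
        (∀ l i, l < i → 2 ≤ ∑ y, ν i y *
          (∑ x, μ i x * (lev (univ.filter fun v => x v = y v) : ℝ) -
            ∑ x, μ l x * (lev (univ.filter fun v => x v = y v) : ℝ))) →
        N ≤ C * (Fintype.card V * Fintype.card S + 1) ^ e := by
  classical
  set B : ℕ := 16 * g ^ 2 with hB
  have hB2 : 2 ≤ B := by rw [hB]; nlinarith only [hg]
  have hBg : 0 < B ^ g := by positivity
  set Λ : ℕ := g * B ^ (g + 1) * (q * B ^ g) with hΛ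
  have hΛ0 : 0 < Λ := by positivity
  obtain ⟨H⟩ := exists_hier g Λ hΛ0
  set m := Fintype.card ((s : Fin g) → Fin (Λ * nN Λ s)) with hm
  obtain ⟨C, hC⟩ := H.ladder hg hB (e := m / (q * B ^ g)) (by
    intro d hd
    rw [Nat.le_div_iff_mul_le (by positivity)]
    refine Nat.le_of_mul_le_mul_left (c := g * B ^ (g + 1)) ?_ (by positivity)
    calc g * B ^ (g + 1) * (d * (q * B ^ g)) = d * Λ := by rw [hΛ]; ring
      _ ≤ _ := hd
      _ = _ := by ring)
  refine ⟨(s : Fin g) → Fin (Λ * nN Λ s), inferInstance, inferInstance, H.lev B,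
    m / B ^ g + 1, m / (q * B ^ g), C, ?_, H.lev_le B, H.lev_empty hB2, ?_, hC⟩
  · refine Nat.lt_succ_of_le ?_
    rw [Nat.le_div_iff_mul_le hBg]
    calc q * (m / (q * B ^ g)) * B ^ g = m / (q * B ^ g) * (q * B ^ g) := by ring
      _ ≤ m := Nat.div_mul_le_self _ _
  · intro Z hZ
    refine H.lev_full ?_
    have h1 := (Nat.le_div_iff_mul_le hBg).mp (Nat.le_of_lt_succ hZ)
    rw [mul_comm]
    exact h1

end Pool.Agent.Work.MP_0e72ae_gt
end

-- merged part: Pool.Agent.Work.MP_0e72ae_gt.NoMain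
section
/-!
Assembly: the polynomial comparison of ordinary and convexified Hilbert packing fails.

Plan.  `g = ⌈24 / c₀⌉₊ + 1`, `q' = ⌈q⌉₊`; take `V, lev, k, e, C` from `comb g q'`, `m = card V`; `Q` a prime larger
than `m`, `2` and `C₀ * (C * (m + 1) ^ e + 1) ^ q'`; `S = ZMod Q`, `W = V → S`, `ξ : V ↪ S`,
`A x y = lev {v | x v = y v}`.  Reed-Solomon words `x_c v = ∑ j : Fin k, c j * ξ v ^ j` for
`c : Fin k → ZMod Q` (`Q ^ k` of them): two of them agree in fewer than `k` positions
(`Matrix.eq_zero_of_forall_index_sum_mul_pow_eq_zero`), and the column `y v = x v` where `x, x'`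
differ, `x v + 1` where they agree has `A x y = g`, `A x' y = 0`.  `geo_bridge` with `M = Q ^ k`,
`L = C * (m * Q + 1) ^ e`; finally `L + 1 ≤ (C * (m + 1) ^ e + 1) * Q ^ e` and `q' * e + 1 ≤ k`.
-/

namespace Pool.Agent.Work.MP_0e72ae_gt

open Finset in
theorem NoMain_agree {F V : Type} [Field F] [DecidableEq F] [Fintype V] {k : ℕ} (ξ : V ↪ F)
    {c c' : Fin k → F} (h : c ≠ c') :
    (univ.filter fun v => ∑ j, c j * ξ v ^ (j : ℕ) = ∑ j, c' j * ξ v ^ (j : ℕ)).card < k := by
  by_contra hk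
  obtain ⟨f, hf⟩ := Function.Embedding.exists_of_card_le_finset (α := Fin k)
    (by rw [Fintype.card_fin]; exact not_lt.1 hk)
  refine h (sub_eq_zero.1 (Matrix.eq_zero_of_forall_index_sum_mul_pow_eq_zero
    (f := fun j => ξ (f j)) (ξ.injective.comp f.injective) fun j => ?_))
  have h1 := (mem_filter.1 (mem_coe.1 (hf ⟨j, rfl⟩))).2
  simp only [Pi.sub_apply, sub_mul, sum_sub_distrib, h1, sub_self]

open Finset in
theorem no_poly (C₀ c₀ q : ℝ) (hC : 0 < C₀) (hc : 0 < c₀) (hq : 1 ≤ q) :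
    ∃ (d : ℕ) (G K : Set (E d)) (α : ℝ), 1 ≤ d ∧ Admissible G K ∧ 0 < α ∧
      C₀ * (convPacking G K (c₀ * α) : ℝ) ^ q < (packing G K α : ℝ) := by
  have hg : 24 ≤ c₀ * (⌈24 / c₀⌉₊ + 1 : ℕ) := by
    have h := Nat.le_ceil (24 / c₀)
    rw [div_le_iff₀' hc] at h
    push_cast
    linarith only [hc, h]
  have hg1 : 1 ≤ ⌈24 / c₀⌉₊ + 1 := Nat.le_add_left _ _
  generalize ⌈24 / c₀⌉₊ + 1 = g at hg hg1
  have hq1 : q ≤ ⌈q⌉₊ := Nat.le_ceil q
  have hq2 : 1 ≤ ⌈q⌉₊ := Nat.one_le_cast.1 (hq.trans hq1)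
  generalize ⌈q⌉₊ = r at hq1 hq2
  obtain ⟨V, _, _, lev, k, e, C, hk, h1, h2, h3, h4⟩ := comb g r hg1 hq2
  obtain ⟨B, hB⟩ : ∃ B : ℕ, B = C * (Fintype.card V + 1) ^ e + 1 := ⟨_, rfl⟩
  obtain ⟨Q, hQ, hp⟩ := Nat.exists_infinite_primes (Fintype.card V + ⌈C₀ * (B : ℝ) ^ r⌉₊ + 1)
  have := Fact.mk hp
  obtain ⟨ξ⟩ : Nonempty (V ↪ ZMod Q) :=
    Function.Embedding.nonempty_of_card_le (by rw [ZMod.card]; omega)
  obtain ⟨w⟩ : Nonempty (Fin (Q ^ k) ≃ (Fin k → ZMod Q)) :=
    Fintype.card_eq.1 (by simp)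
  have h0 : ∀ x x' : V → ZMod Q, (univ.filter fun v => x v = x' v).card < k → ∃ y : V → ZMod Q,
      (lev (univ.filter fun v => x v = y v) : ℝ) = g ∧
        (lev (univ.filter fun v => x' v = y v) : ℝ) = 0 := fun x x' h => by
    refine ⟨fun v => if x v = x' v then x v + 1 else x v, ?_, ?_⟩
    · rw [h3 _ (lt_of_le_of_lt (card_le_card fun v hv => ?_) h)]
      by_contra h5
      simp only [mem_filter, mem_univ, true_and, mem_sdiff] at hv h5
      exact hv (by rw [if_neg h5])
    · rw [filter_eq_empty_iff.2 fun v _ => ?_, h2, Nat.cast_zero]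
      beta_reduce
      split_ifs with h5
      · rw [h5]
        simp
      · exact fun h6 => h5 h6.symm
  obtain ⟨G, K, hA, hM, hL⟩ := geo_bridge (W := V → ZMod Q)
    (fun x y => (lev (univ.filter fun v => x v = y v) : ℝ)) g hg1
    (fun x y => ⟨Nat.cast_nonneg _, Nat.cast_le.2 (h1 _)⟩) c₀ hg (Q ^ k) _
    ⟨fun i v => ∑ j, w i j * ξ v ^ (j : ℕ), fun i i' hi =>
      h0 _ _ (NoMain_agree ξ (w.injective.ne hi.ne))⟩ (h4 (ZMod Q))
  refine ⟨_, G, K, 1 / 12, Fintype.card_pos, hA, by norm_num, ?_⟩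
  have hQ1 : 1 ≤ Q := hp.one_le
  have h5 : convPacking G K (c₀ * (1 / 12)) ≤ B * Q ^ e := by
    refine hL.trans ?_
    rw [ZMod.card, hB, add_mul, one_mul, mul_assoc, ← mul_pow]
    exact add_le_add (Nat.mul_le_mul_left _ (Nat.pow_le_pow_left (by linarith only [hQ]) _))
      (Nat.one_le_pow _ _ hQ1)
  have hB1 : (1 : ℝ) ≤ B := Nat.one_le_cast.2 (by omega)
  have hQ2 : (1 : ℝ) ≤ Q := Nat.one_le_cast.2 hQ1
  have h6 : C₀ * (B : ℝ) ^ r < Q :=
    (Nat.le_ceil _).trans_lt (Nat.cast_lt.2 (by omega))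
  have h7 : (convPacking G K (c₀ * (1 / 12)) : ℝ) ^ q ≤ (B * Q ^ e : ℝ) ^ r := by
    rw [← Real.rpow_natCast _ r]
    exact (Real.rpow_le_rpow (Nat.cast_nonneg _) (by exact_mod_cast h5) (by linarith only [hq])).trans
      (Real.rpow_le_rpow_of_exponent_le (one_le_mul_of_one_le_of_one_le hB1 (one_le_pow₀ hQ2)) hq1)
  calc _ ≤ C₀ * (B * Q ^ e : ℝ) ^ r := mul_le_mul_of_nonneg_left h7 hC.le
    _ = C₀ * (B : ℝ) ^ r * Q ^ (r * e) := by rw [mul_pow, ← pow_mul, mul_assoc, mul_comm e]
    _ < Q * Q ^ (r * e) := mul_lt_mul_of_pos_right h6 (by positivity)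
    _ ≤ (Q : ℝ) ^ k := by rw [← pow_succ']; exact pow_le_pow_right₀ hQ2 hk
    _ ≤ _ := by exact_mod_cast hM

end Pool.Agent.Work.MP_0e72ae_gt
end
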