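import Pool.Agent.Work.MP_0e72ae_gt.NoMain

/-!
The same example with an origin-symmetric inner body: the difference body of the inner body of
`NoMain`.  The pigeonhole argument for ladders is run for two probability vectors at once.
-/

set_option autoImplicit false

namespace Pool.Agent.Work.MP_0e72ae_gt

open Finset in
theorem Hier.symLadder {V : Type} [Fintype V] [DecidableEq V] {g Λ : ℕ} (H : Hier V g Λ)
    (hg : 1 ≤ g) {B e : ℕ} (hB : B = 16 * g ^ 2)
    (he : ∀ d : ℕ, d * Λ ≤ g * (B ^ (g + 1) * Fintype.card V) → d ≤ e) :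
    ∃ C : ℕ, ∀ (S : Type) [Fintype S] [DecidableEq S] (N : ℕ) (μ κ ν : Fin N → (V → S) → ℝ),
        (∀ i x, 0 ≤ μ i x) → (∀ i, ∑ x, μ i x = 1) → (∀ i x, 0 ≤ κ i x) →
        (∀ i, ∑ x, κ i x = 1) → (∀ i, ∑ y, |ν i y| = 1) →
        (∀ l i, l < i → 4 ≤ ∑ y, ν i y *
          ((∑ x, μ i x * (H.lev B (ag x y) : ℝ) - ∑ x, μ l x * (H.lev B (ag x y) : ℝ)) -
           (∑ x, κ i x * (H.lev B (ag x y) : ℝ) - ∑ x, κ l x * (H.lev B (ag x y) : ℝ)))) →
        N ≤ C * (Fintype.card V * Fintype.card S + 1) ^ (2 * e) := by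
  classical
  have hB0 : 0 < B := by rw [hB]; positivity
  have hm := H.card_pos
  set M : ℕ := B ^ (g + 1) * Fintype.card V with hM
  have hM0 : 0 < M := by positivity
  set n : ℕ := 3 * (Fintype.card V * M) with hn
  have hn0 : 0 < n := by positivity
  set p : ℕ := Fintype.card (V → Option (Fin n)) with hp
  have hp0 : 0 < p := Fintype.card_pos
  set W : ℕ := 4 * g * p with hW
  have hW0 : 0 < W := by positivity
  refine ⟨n ^ n * ((W + 1) ^ p * (W + 1) ^ p), fun S _ _ N μ κ ν hμ hμ1 hκ hκ1 hν hlad => ?_⟩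
  set η : ℝ := 1 / ((B : ℝ) ^ (g + 1) * Fintype.card V) with hη
  have hηM : η = 1 / (M : ℝ) := by rw [hη, hM]; push_cast; rfl
  have hM' : (0 : ℝ) < M := by exact_mod_cast hM0
  have hη0 : 0 ≤ η := by rw [hηM]; positivity
  have hheavy : ∀ ρ : (V → S) → ℝ, (∀ x, 0 ≤ ρ x) → ∑ x, ρ x = 1 →
      (heavy ρ η univ).card ≤ Fintype.card V * M := by
    intro ρ h h1
    have h2 := card_heavy h h1 η univ
    generalize (heavy ρ η univ).card = c at h2 ⊢
    rw [hηM, mul_one_div, div_le_iff₀ hM', Finset.card_univ] at h2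
    exact_mod_cast h2
  choose D hD1 hD2 hD3 using fun i => H.select hB0 (hμ i) (hμ1 i)
    (ω := fun y => |ν i y|) (fun y => abs_nonneg _) (hν i)
  choose D' hD1' hD2' hD3' using fun i => H.select hB0 (hκ i) (hκ1 i)
    (ω := fun y => |ν i y|) (fun y => abs_nonneg _) (hν i)
  set Hs : Fin N → Finset (V × S) := fun i =>
    (heavy (μ i) η univ ∪ heavy (κ i) η univ) ∪ heavy (fun y => |ν i y|) η univ with hHs
  have hHc : ∀ i, (Hs i).card ≤ n := by
    intro i
    have h1 := hheavy (μ i) (hμ i) (hμ1 i)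
    have h1' := hheavy (κ i) (hκ i) (hκ1 i)
    have h2 := hheavy (fun y => |ν i y|) (fun y => abs_nonneg _) (hν i)
    have h3 := Finset.card_union_le (heavy (μ i) η univ ∪ heavy (κ i) η univ)
      (heavy (fun y => |ν i y|) η univ)
    have h4 := Finset.card_union_le (heavy (μ i) η univ) (heavy (κ i) η univ)
    simp only [hHs]
    omega
  have s1 : ∀ i, heavy (μ i) η univ ⊆ Hs i := fun i =>
    Finset.subset_union_left.trans Finset.subset_union_left
  have s2 : ∀ i, heavy (κ i) η univ ⊆ Hs i := fun i =>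
    Finset.subset_union_right.trans Finset.subset_union_left
  have s3 : ∀ i, heavy (fun y => |ν i y|) η univ ⊆ Hs i := fun i => Finset.subset_union_right
  obtain ⟨χ, I, hχ, hI⟩ := exists_colouring hn0 Hs hHc
  choose code hcode using fun i => exists_code (D i) (he _ (hD2 i))
  choose code' hcode' using fun i => exists_code (D' i) (he _ (hD2' i))
  have hW' : (0 : ℝ) < W := by exact_mod_cast hW0
  have hfl : ∀ i π, ⌊(W : ℝ) * push (μ i) (pat (Hs i) χ) π⌋₊ < W + 1 := by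
    intro i π
    refine Nat.lt_succ_of_le (Nat.floor_le_of_le ?_)
    exact mul_le_of_le_one_right hW'.le (push_le_one (hμ i) (hμ1 i) _ _)
  have hfl' : ∀ i π, ⌊(W : ℝ) * push (κ i) (pat (Hs i) χ) π⌋₊ < W + 1 := by
    intro i π
    refine Nat.lt_succ_of_le (Nat.floor_le_of_le ?_)
    exact mul_le_of_le_one_right hW'.le (push_le_one (hκ i) (hκ1 i) _ _)
  set Φ : Fin N → ((Fin e → Option (V × S)) × ((V → Option (Fin n)) → Fin (W + 1))) ×
      ((Fin e → Option (V × S)) × ((V → Option (Fin n)) → Fin (W + 1))) := fun i =>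
    ((code i, fun π => ⟨_, hfl i π⟩), (code' i, fun π => ⟨_, hfl' i π⟩)) with hΦ
  have hg' : (1 : ℝ) ≤ g := by exact_mod_cast hg
  have hp' : (0 : ℝ) < p := by exact_mod_cast hp0
  have hm' : (0 : ℝ) < Fintype.card V := by exact_mod_cast hm
  have hBr : (B : ℝ) = 16 * g ^ 2 := by rw [hB]; push_cast; rfl
  have h6 : (g : ℝ) * (g * (3 / B)) = 3 / 16 := by
    rw [hBr]
    field_simp
  have h7 : (p : ℝ) * (g / W) = 1 / 4 := by
    rw [hW]
    push_cast
    field_simp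
  have h8 : (g : ℝ) * (2 * (Fintype.card V * η)) ≤ 1 / 8 := by
    have h9 : (B : ℝ) ≤ (B : ℝ) ^ (g + 1) :=
      le_self_pow₀ (by rw [hBr]; nlinarith only [hg']) (by omega)
    have h10 : (Fintype.card V : ℝ) * η = 1 / (B : ℝ) ^ (g + 1) := by
      rw [hη]
      field_simp
    have h11 : (0 : ℝ) < (B : ℝ) ^ (g + 1) := by positivity
    rw [h10, mul_one_div, ← mul_div_assoc, div_le_iff₀ h11]
    nlinarith only [hBr, h9, hg']
  have hkey : ∀ l ∈ I, ∀ i ∈ I, l < i → Φ i ≠ Φ l := by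
    intro l hl i hi hli hEq
    have h1 : code i = code l := congrArg (fun t => t.1.1) hEq
    have h1' : code' i = code' l := congrArg (fun t => t.2.1) hEq
    have h2 : D i = D l := by
      ext w
      rw [hcode, hcode, h1]
    have h2' : D' i = D' l := by
      ext w
      rw [hcode', hcode', h1']
    have h3 : ∀ π, ⌊(W : ℝ) * push (μ i) (pat (Hs i) χ) π⌋₊ =
        ⌊(W : ℝ) * push (μ l) (pat (Hs l) χ) π⌋₊ := fun π =>
      congrArg Fin.val (congrFun (congrArg (fun t => t.1.2) hEq) π)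
    have h3' : ∀ π, ⌊(W : ℝ) * push (κ i) (pat (Hs i) χ) π⌋₊ =
        ⌊(W : ℝ) * push (κ l) (pat (Hs l) χ) π⌋₊ := fun π =>
      congrArg Fin.val (congrFun (congrArg (fun t => t.2.2) hEq) π)
    have h4 := pair_bound (H.lev B) g (fun Z Z' h => H.lev_mono B h) (H.lev_le B)
      (hμ i) (hμ l) (hμ1 l) (hν i) hη0 (H := Hs i) (H' := Hs l) (D := D i) (χ := χ)
      ((hD1 i).trans (s1 i)) (h2 ▸ (hD1 l).trans (s1 l)) (hχ i hi) (hχ l hl) (s3 i) (s1 l)
      (fun F hF => close_of_floor (hμ i) (hμ l) _ _ hW' h3 F hF) (hD3 i)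
    have h4' := pair_bound (H.lev B) g (fun Z Z' h => H.lev_mono B h) (H.lev_le B)
      (ν := fun y => -ν i y) (hκ i) (hκ l) (hκ1 l) (by simpa only [abs_neg] using hν i) hη0
      (H := Hs i) (H' := Hs l) (D := D' i) (χ := χ)
      ((hD1' i).trans (s2 i)) (h2' ▸ (hD1' l).trans (s2 l)) (hχ i hi) (hχ l hl)
      (by simpa only [abs_neg] using s3 i) (s2 l)
      (fun F hF => close_of_floor (hκ i) (hκ l) _ _ hW' h3' F hF)
      (by simpa only [abs_neg] using hD3' i)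
    have h5 := hlad l i hli
    have h9 : ∑ y, ν i y *
          ((∑ x, μ i x * (H.lev B (ag x y) : ℝ) - ∑ x, μ l x * (H.lev B (ag x y) : ℝ)) -
           (∑ x, κ i x * (H.lev B (ag x y) : ℝ) - ∑ x, κ l x * (H.lev B (ag x y) : ℝ))) =
        ∑ y, ν i y *
          (∑ x, μ i x * (H.lev B (ag x y) : ℝ) - ∑ x, μ l x * (H.lev B (ag x y) : ℝ)) +
        ∑ y, -ν i y *
          (∑ x, κ i x * (H.lev B (ag x y) : ℝ) - ∑ x, κ l x * (H.lev B (ag x y) : ℝ)) := by
      rw [← Finset.sum_add_distrib]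
      exact Finset.sum_congr rfl fun y _ => by ring
    rw [← hp] at h4 h4'
    linarith only [h4, h4', h5, h6, h7, h8, h9]
  have hinj : Set.InjOn Φ I := by
    intro a ha b hb hab
    rcases lt_trichotomy a b with h | h | h
    · exact absurd hab.symm (hkey a ha b hb h)
    · exact h
    · exact absurd hab (hkey b hb a ha h)
  have hcard := Finset.card_le_card_of_injOn (t := univ) Φ (fun _ _ => by simp) hinj
  rw [Finset.card_univ, Fintype.card_prod, Fintype.card_prod, Fintype.card_fun, Fintype.card_fun,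
    ← hp] at hcard
  simp only [Fintype.card_option, Fintype.card_prod, Fintype.card_fin] at hcard hI
  calc N ≤ n ^ n * I.card := hI
    _ ≤ n ^ n * (((Fintype.card V * Fintype.card S + 1) ^ e * (W + 1) ^ p) *
          ((Fintype.card V * Fintype.card S + 1) ^ e * (W + 1) ^ p)) :=
        Nat.mul_le_mul_left _ hcard
    _ = _ := by ring

open Finset in
theorem symComb (g q : ℕ) (hg : 1 ≤ g) (hq : 1 ≤ q) :
    ∃ (V : Type) (_ : Fintype V) (_ : DecidableEq V) (lev : Finset V → ℕ) (k e C : ℕ),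
      q * e < k ∧ (∀ Z, lev Z ≤ g) ∧ lev ∅ = 0 ∧
      (∀ Z : Finset V, (univ \ Z).card < k → lev Z = g) ∧
      ∀ (S : Type) [Fintype S] [DecidableEq S] (N : ℕ) (μ κ ν : Fin N → (V → S) → ℝ),
        (∀ i x, 0 ≤ μ i x) → (∀ i, ∑ x, μ i x = 1) → (∀ i x, 0 ≤ κ i x) →
        (∀ i, ∑ x, κ i x = 1) → (∀ i, ∑ y, |ν i y| = 1) →
        (∀ l i, l < i → 4 ≤ ∑ y, ν i y *
          ((∑ x, μ i x * (lev (univ.filter fun v => x v = y v) : ℝ) -
            ∑ x, μ l x * (lev (univ.filter fun v => x v = y v) : ℝ)) -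
           (∑ x, κ i x * (lev (univ.filter fun v => x v = y v) : ℝ) -
            ∑ x, κ l x * (lev (univ.filter fun v => x v = y v) : ℝ)))) →
        N ≤ C * (Fintype.card V * Fintype.card S + 1) ^ e := by
  classical
  set B : ℕ := 16 * g ^ 2 with hB
  have hB2 : 2 ≤ B := by rw [hB]; nlinarith only [hg]
  have hBg : 0 < B ^ g := by positivity
  set Λ : ℕ := g * B ^ (g + 1) * (2 * q * B ^ g) with hΛ
  have hΛ0 : 0 < Λ := by positivity
  obtain ⟨H⟩ := exists_hier g Λ hΛ0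
  set m := Fintype.card ((s : Fin g) → Fin (Λ * nN Λ s)) with hm
  obtain ⟨C, hC⟩ := H.symLadder hg hB (e := m / (2 * q * B ^ g)) (by
    intro d hd
    rw [Nat.le_div_iff_mul_le (by positivity)]
    refine Nat.le_of_mul_le_mul_left (c := g * B ^ (g + 1)) ?_ (by positivity)
    calc g * B ^ (g + 1) * (d * (2 * q * B ^ g)) = d * Λ := by rw [hΛ]; ring
      _ ≤ _ := hd
      _ = _ := by ring)
  refine ⟨(s : Fin g) → Fin (Λ * nN Λ s), inferInstance, inferInstance, H.lev B,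
    m / B ^ g + 1, 2 * (m / (2 * q * B ^ g)), C, ?_, H.lev_le B, H.lev_empty hB2, ?_, hC⟩
  · refine Nat.lt_succ_of_le ?_
    rw [Nat.le_div_iff_mul_le hBg]
    calc q * (2 * (m / (2 * q * B ^ g))) * B ^ g
        = m / (2 * q * B ^ g) * (2 * q * B ^ g) := by ring
      _ ≤ m := Nat.div_mul_le_self _ _
  · intro Z hZ
    refine H.lev_full ?_
    have h1 := (Nat.le_div_iff_mul_le hBg).mp (Nat.le_of_lt_succ hZ)
    rw [mul_comm]
    exact h1

section Body

variable {d : ℕ} {W : Type} [Fintype W]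

/-- The symmetric inner body. -/
def symBody (A : W → W → ℝ) (e : Fin d ≃ W) (x0 : W) (τ : ℝ) : Set (E d) :=
  {p | ∃ a ∈ body A e x0 τ, ∃ b ∈ body A e x0 τ, a - b = p}

lemma symBody_compact (A : W → W → ℝ) (e : Fin d ≃ W) (x0 : W) (τ : ℝ) :
    IsCompact (symBody A e x0 τ) := by
  have h : symBody A e x0 τ =
      (fun q : E d × E d => q.1 - q.2) '' (body A e x0 τ ×ˢ body A e x0 τ) := by
    ext p
    constructor
    · rintro ⟨a, ha, b, hb, h⟩
      exact ⟨(a, b), ⟨ha, hb⟩, h⟩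
    · rintro ⟨⟨a, b⟩, ⟨ha, hb⟩, h⟩
      exact ⟨a, ha, b, hb, h⟩
  rw [h]
  exact ((body_compact A e x0 τ).prod (body_compact A e x0 τ)).image (by fun_prop)

lemma symBody_convex (A : W → W → ℝ) (e : Fin d ≃ W) (x0 : W) (τ : ℝ) :
    Convex ℝ (symBody A e x0 τ) := by
  rintro _ ⟨a, ha, b, hb, rfl⟩ _ ⟨a', ha', b', hb', rfl⟩ s t hs ht hst
  refine ⟨_, body_convex A e x0 τ ha ha' hs ht hst, _, body_convex A e x0 τ hb hb' hs ht hst, ?_⟩
  rw [smul_sub, smul_sub]
  abel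

lemma symBody_neg (A : W → W → ℝ) (e : Fin d ≃ W) (x0 : W) (τ : ℝ) {p : E d}
    (hp : p ∈ symBody A e x0 τ) : -p ∈ symBody A e x0 τ := by
  obtain ⟨a, ha, b, hb, rfl⟩ := hp
  exact ⟨b, hb, a, ha, (neg_sub a b).symm⟩

lemma body_subset_symBody (A : W → W → ℝ) (e : Fin d ≃ W) (x0 : W) {τ : ℝ} (hτ : 0 < τ) :
    body A e x0 τ ⊆ symBody A e x0 τ := fun p hp =>
  ⟨p, hp, 0, interior_subset (zero_mem_interior_body A e x0 hτ), sub_zero p⟩

lemma symBody_spec {A : W → W → ℝ} {e : Fin d ≃ W} {x0 : W} {τ : ℝ} {p : E d}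
    (hp : p ∈ symBody A e x0 τ) : ∃ μ κ : W → ℝ, μ ∈ stdSimplex ℝ W ∧ κ ∈ stdSimplex ℝ W ∧
      ∀ j, |p j - τ * (∑ x, μ x * A x (e j) - ∑ x, κ x * A x (e j))| ≤ 2 * τ := by
  obtain ⟨a, ⟨μ, hμ, ha⟩, b, ⟨κ, hκ, hb⟩, rfl⟩ := hp
  refine ⟨μ, κ, hμ, hκ, fun j => ?_⟩
  have h1 := abs_le.mp (ha j)
  have h2 := abs_le.mp (hb j)
  rw [coreMap_apply] at h1 h2
  have h3 : (a - b) j = a j - b j := by simp
  rw [h3, abs_le]
  constructor <;> linarith only [h1.1, h1.2, h2.1, h2.2]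

lemma symBody_subset (A : W → W → ℝ) (e : Fin d ≃ W) (x0 : W) {g : ℝ} (hg : 2 ≤ g)
    (hA : ∀ x y, 0 ≤ A x y ∧ A x y ≤ g) : symBody A e x0 (1 / (4 * g)) ⊆ cube d (1 / 2) := by
  intro p hp j
  obtain ⟨μ, κ, hμ, hκ, h⟩ := symBody_spec hp
  have h1 := abs_le.mp (h j)
  have h2 : ∀ ρ ∈ stdSimplex ℝ W, 0 ≤ ∑ x, ρ x * A x (e j) ∧ ∑ x, ρ x * A x (e j) ≤ g := by
    intro ρ hρ
    refine ⟨Finset.sum_nonneg fun x _ => mul_nonneg (hρ.1 x) (hA x _).1, ?_⟩
    calc ∑ x, ρ x * A x (e j) ≤ ∑ x, ρ x * g :=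
          Finset.sum_le_sum fun x _ => mul_le_mul_of_nonneg_left (hA x _).2 (hρ.1 x)
      _ = g := by rw [← Finset.sum_mul, hρ.2, one_mul]
  have h3 := h2 μ hμ
  have h4 := h2 κ hκ
  set τ : ℝ := 1 / (4 * g) with hτ
  have hτ0 : 0 < τ := by rw [hτ]; positivity
  have hτg : τ * g = 1 / 4 := by rw [hτ]; field_simp
  have h5 : τ * 2 ≤ τ * g := mul_le_mul_of_nonneg_left hg hτ0.le
  have h6 : τ * (∑ x, μ x * A x (e j) - ∑ x, κ x * A x (e j)) ≤ τ * g :=
    mul_le_mul_of_nonneg_left (by linarith only [h3.2, h4.1]) hτ0.le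
  have h7 : τ * (-g) ≤ τ * (∑ x, μ x * A x (e j) - ∑ x, κ x * A x (e j)) :=
    mul_le_mul_of_nonneg_left (by linarith only [h3.1, h4.2]) hτ0.le
  rw [abs_le]
  constructor <;> linarith only [hτg, h5, h7, h6, h1.1, h1.2]

end Body

theorem symBridge {W : Type} [Fintype W] [Nonempty W] (A : W → W → ℝ) (g : ℕ) (hg : 2 ≤ g)
    (hA : ∀ x y, 0 ≤ A x y ∧ A x y ≤ g) (c₀ : ℝ) (hc : 48 ≤ c₀ * g) (M L : ℕ)
    (hM : ∃ x : Fin M → W, ∀ i j, i < j → ∃ y, A (x i) y = g ∧ A (x j) y = 0)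
    (hL : ∀ (N : ℕ) (μ κ ν : Fin N → W → ℝ), (∀ k x, 0 ≤ μ k x) → (∀ k, ∑ x, μ k x = 1) →
      (∀ k x, 0 ≤ κ k x) → (∀ k, ∑ x, κ k x = 1) → (∀ k, ∑ y, |ν k y| = 1) →
      (∀ l k, l < k → 4 ≤ ∑ y, ν k y * ((∑ x, μ k x * A x y - ∑ x, μ l x * A x y) -
        (∑ x, κ k x * A x y - ∑ x, κ l x * A x y))) → N ≤ L) :
    ∃ G : Set (E (Fintype.card W)), Admissible G (cube _ 1) ∧ (∀ x ∈ G, -x ∈ G) ∧
      G ⊆ cube _ (1 / 2) ∧ M ≤ packing G (cube _ 1) (1 / 12) ∧
      convPacking G (cube _ 1) (c₀ * (1 / 12)) ≤ L + 1 := by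
  classical
  obtain ⟨x0⟩ := ‹Nonempty W›
  set d := Fintype.card W with hd
  let e : Fin d ≃ W := (Fintype.equivFin W).symm
  have hg' : (2 : ℝ) ≤ g := by exact_mod_cast hg
  set τ : ℝ := 1 / (4 * (g : ℝ)) with hτ
  have hτ0 : 0 < τ := by rw [hτ]; positivity
  have hτg : τ * g = 1 / 4 := by rw [hτ]; field_simp
  have hsub : symBody A e x0 τ ⊆ cube d (1 / 2) := symBody_subset A e x0 hg' hA
  have hGK : symBody A e x0 τ ⊆ interior (cube d 1) := fun p hp => half_mem_interior (hsub hp)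
  have h0 : (0 : E d) ∈ interior (symBody A e x0 τ) :=
    interior_mono (body_subset_symBody A e x0 hτ0) (zero_mem_interior_body A e x0 hτ0)
  refine ⟨symBody A e x0 τ, ⟨⟨symBody_compact A e x0 τ, symBody_convex A e x0 τ, ⟨0, h0⟩⟩,
    ⟨cube_compact 1, cube_convex 1, ⟨0, hGK (interior_subset h0)⟩⟩, h0, hGK⟩,
    fun x hx => symBody_neg A e x0 τ hx, hsub, ?_, ?_⟩
  · obtain ⟨x, hx⟩ := hM
    have hmem : ∀ i, coreMap A e x0 τ (Pi.single (x i) 1) ∈ symBody A e x0 τ := fun i =>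
      body_subset_symBody A e x0 hτ0
        ⟨Pi.single (x i) 1, single_mem_stdSimplex ℝ (x i), fun j => by simpa using hτ0.le⟩
    apply le_csSup (packing_bdd (symBody_compact A e x0 τ) hGK (by norm_num))
    refine ⟨fun i => coreMap A e x0 τ (Pi.single (x i) 1), hmem, ?_⟩
    intro i j hij
    obtain ⟨y, hy1, hy2⟩ := hx i j hij
    apply hilbert_cube_ge (hsub (hmem i)) (hsub (hmem j)) (e.symm y)
    rw [coreMap_single, coreMap_single, e.apply_symm_apply, hy1, hy2]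
    linarith only [hτg]
  · apply csSup_le'
    rintro N ⟨x, hx, hsep⟩
    rcases N with _ | n
    · exact Nat.zero_le _
    have hc0 : 0 < c₀ := by
      by_contra hcon
      push Not at hcon
      nlinarith only [hc, hcon, hg']
    have hρ : 0 < c₀ / 24 := by linarith only [hc0]
    have hρτ : 8 * τ ≤ c₀ / 24 := by
      have h1 : (8 * τ) * g ≤ (c₀ / 24) * g := by linarith only [hc, hτg]
      exact le_of_mul_le_mul_right h1 (by linarith only [hg'])
    have hsepn : ∀ k : Fin n, ∃ v : Fin d → ℝ, ∑ j, |v j| = 1 ∧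
        ∀ c ∈ convexHull ℝ (x '' {i | i < k.succ}), c₀ / 24 ≤ ∑ j, v j * (x k.succ j - c j) := by
      intro k
      have hsubG : convexHull ℝ (x '' {i | i < k.succ}) ⊆ symBody A e x0 τ :=
        convexHull_min (by rintro _ ⟨i, _, rfl⟩; exact hx i) (symBody_convex A e x0 τ)
      have hne : (convexHull ℝ (x '' {i | i < k.succ})).Nonempty :=
        ⟨x 0, subset_convexHull ℝ (x '' {i | i < k.succ}) ⟨0, Fin.succ_pos k, rfl⟩⟩
      apply sep_cube (x k.succ) (convex_convexHull ℝ _) hne hρ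
      intro c hc hlt
      have h1 := hsep k.succ (by simp)
      have h2 : hilbertInf (cube d 1) (x k.succ) (convexHull ℝ (x '' {i | i < k.succ})) ≤
          hilbertDist (cube d 1) (x k.succ) c := by
        refine csInf_le ⟨0, ?_⟩ ⟨c, hc, rfl⟩
        rintro _ ⟨c', hc', rfl⟩
        exact hilbertDist_nonneg (hGK (hx _)) (hGK (hsubG hc'))
      have h3 := hilbert_cube_lt (hsub (hx k.succ)) (hsub (hsubG hc)) hρ (fun j => (hlt j).le)
      linarith only [h1, h2, h3]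
    choose v hv1 hv2 using hsepn
    choose μ κ hμ1 hκ1 hμ2 using fun i => symBody_spec (hx i)
    apply Nat.succ_le_succ
    apply hL n (fun k => μ k.succ) (fun k => κ k.succ) (fun k y => v k (e.symm y))
      (fun k y => (hμ1 k.succ).1 y) (fun k => (hμ1 k.succ).2)
      (fun k y => (hκ1 k.succ).1 y) (fun k => (hκ1 k.succ).2)
    · intro k
      rw [← hv1 k]
      exact Equiv.sum_comp e.symm (fun j => |v k j|)
    · intro l k hlk
      have h1 := hv2 k (x l.succ) (subset_convexHull ℝ (x '' {i | i < k.succ})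
        ⟨l.succ, Fin.succ_lt_succ_iff.mpr hlk, rfl⟩)
      have h2 : ∑ y, v k (e.symm y) * ((∑ z, μ k.succ z * A z y - ∑ z, μ l.succ z * A z y) -
            (∑ z, κ k.succ z * A z y - ∑ z, κ l.succ z * A z y)) =
          ∑ j, v k j * ((∑ z, μ k.succ z * A z (e j) - ∑ z, μ l.succ z * A z (e j)) -
            (∑ z, κ k.succ z * A z (e j) - ∑ z, κ l.succ z * A z (e j))) := by
        rw [← Equiv.sum_comp e]
        simp only [Equiv.symm_apply_apply]
      rw [h2]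
      have h3 : ∑ j, v k j * (x k.succ j - x l.succ j) ≤
          ∑ j, (τ * (v k j * ((∑ z, μ k.succ z * A z (e j) - ∑ z, μ l.succ z * A z (e j)) -
            (∑ z, κ k.succ z * A z (e j) - ∑ z, κ l.succ z * A z (e j)))) +
            4 * τ * |v k j|) := by
        apply Finset.sum_le_sum
        intro j _
        have a1 := hμ2 k.succ j
        have a2 := hμ2 l.succ j
        set P := ∑ z, μ k.succ z * A z (e j)
        set Q := ∑ z, μ l.succ z * A z (e j)
        set P' := ∑ z, κ k.succ z * A z (e j)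
        set Q' := ∑ z, κ l.succ z * A z (e j)
        have a3 : |(x k.succ j - τ * (P - P')) - (x l.succ j - τ * (Q - Q'))| ≤ 4 * τ := by
          have b1 := abs_le.mp a1
          have b2 := abs_le.mp a2
          rw [abs_le]
          constructor <;> linarith only [b1.1, b1.2, b2.1, b2.2]
        have a4 : v k j * ((x k.succ j - τ * (P - P')) - (x l.succ j - τ * (Q - Q'))) ≤
            |v k j| * (4 * τ) := by
          refine (le_abs_self _).trans ?_
          rw [abs_mul]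
          exact mul_le_mul_of_nonneg_left a3 (abs_nonneg _)
        linarith only [a4]
      rw [Finset.sum_add_distrib, ← Finset.mul_sum, ← Finset.mul_sum, hv1 k] at h3
      have h4 : τ * 4 ≤ τ * ∑ j, v k j *
          ((∑ z, μ k.succ z * A z (e j) - ∑ z, μ l.succ z * A z (e j)) -
            (∑ z, κ k.succ z * A z (e j) - ∑ z, κ l.succ z * A z (e j))) := by
        linarith only [hρτ, h1, h3]
      exact le_of_mul_le_mul_left h4 hτ0

open Finset in
theorem symNoPoly (C₀ c₀ q : ℝ) (hC : 0 < C₀) (hc : 0 < c₀) (hq : 1 ≤ q) :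
    ∃ (d : ℕ) (G : Set (E d)), 1 ≤ d ∧ Admissible G (cube d 1) ∧ (∀ x ∈ G, -x ∈ G) ∧
      G ⊆ cube d (1 / 2) ∧
      C₀ * (convPacking G (cube d 1) (c₀ * (1 / 12)) : ℝ) ^ q <
        (packing G (cube d 1) (1 / 12) : ℝ) := by
  have hg : 48 ≤ c₀ * (⌈48 / c₀⌉₊ + 2 : ℕ) := by
    have h := Nat.le_ceil (48 / c₀)
    rw [div_le_iff₀' hc] at h
    push_cast
    linarith only [hc, h]
  have hg2 : 2 ≤ ⌈48 / c₀⌉₊ + 2 := Nat.le_add_left _ _
  generalize ⌈48 / c₀⌉₊ + 2 = g at hg hg2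
  have hg1 : 1 ≤ g := by omega
  have hq1 : q ≤ ⌈q⌉₊ := Nat.le_ceil q
  have hq2 : 1 ≤ ⌈q⌉₊ := Nat.one_le_cast.1 (hq.trans hq1)
  generalize ⌈q⌉₊ = r at hq1 hq2
  obtain ⟨V, _, _, lev, k, e, C, hk, h1, h2, h3, h4⟩ := symComb g r hg1 hq2
  obtain ⟨B, hB⟩ : ∃ B : ℕ, B = C * (Fintype.card V + 1) ^ e + 1 := ⟨_, rfl⟩
  obtain ⟨Q, hQ, hp⟩ := Nat.exists_infinite_primes (Fintype.card V + ⌈C₀ * (B : ℝ) ^ r⌉₊ + 1)
  have := Fact.mk hp
  obtain ⟨ξ⟩ : Nonempty (V ↪ ZMod Q) :=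
    Function.Embedding.nonempty_of_card_le (by rw [ZMod.card]; omega)
  obtain ⟨w⟩ : Nonempty (Fin (Q ^ k) ≃ (Fin k → ZMod Q)) :=
    Fintype.card_eq.1 (by simp)
  have h0 : ∀ x x' : V → ZMod Q, (univ.filter fun v => x v = x' v).card < k → ∃ y : V → ZMod Q,
      (lev (univ.filter fun v => x v = y v) : ℝ) = g ∧
        (lev (univ.filter fun v => x' v = y v) : ℝ) = 0 := fun x x' h => by
    refine ⟨fun v => if x v = x' v then x v + 1 else x v, ?_, ?_⟩
    · rw [h3 _ (lt_of_le_of_lt (card_le_card fun v hv => ?_) h)]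
      by_contra h5
      simp only [mem_filter, mem_univ, true_and, mem_sdiff] at hv h5
      exact hv (by rw [if_neg h5])
    · rw [filter_eq_empty_iff.2 fun v _ => ?_, h2, Nat.cast_zero]
      beta_reduce
      split_ifs with h5
      · rw [h5]
        simp
      · exact fun h6 => h5 h6.symm
  obtain ⟨G, hA, hs, hh, hM, hL⟩ := symBridge (W := V → ZMod Q)
    (fun x y => (lev (univ.filter fun v => x v = y v) : ℝ)) g hg2
    (fun x y => ⟨Nat.cast_nonneg _, Nat.cast_le.2 (h1 _)⟩) c₀ hg (Q ^ k) _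
    ⟨fun i v => ∑ j, w i j * ξ v ^ (j : ℕ), fun i i' hi =>
      h0 _ _ (NoMain_agree ξ (w.injective.ne hi.ne))⟩ (h4 (ZMod Q))
  refine ⟨_, G, Fintype.card_pos, hA, hs, hh, ?_⟩
  have hQ1 : 1 ≤ Q := hp.one_le
  have h5 : convPacking G (cube _ 1) (c₀ * (1 / 12)) ≤ B * Q ^ e := by
    refine hL.trans ?_
    rw [ZMod.card, hB, add_mul, one_mul, mul_assoc, ← mul_pow]
    exact add_le_add (Nat.mul_le_mul_left _ (Nat.pow_le_pow_left (by linarith only [hQ]) _))
      (Nat.one_le_pow _ _ hQ1)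
  have hB1 : (1 : ℝ) ≤ B := Nat.one_le_cast.2 (by omega)
  have hQ2 : (1 : ℝ) ≤ Q := Nat.one_le_cast.2 hQ1
  have h6 : C₀ * (B : ℝ) ^ r < Q :=
    (Nat.le_ceil _).trans_lt (Nat.cast_lt.2 (by omega))
  have h7 : (convPacking G (cube _ 1) (c₀ * (1 / 12)) : ℝ) ^ q ≤ (B * Q ^ e : ℝ) ^ r := by
    rw [← Real.rpow_natCast _ r]
    exact (Real.rpow_le_rpow (Nat.cast_nonneg _) (by exact_mod_cast h5)
      (by linarith only [hq])).trans
      (Real.rpow_le_rpow_of_exponent_le (one_le_mul_of_one_le_of_one_le hB1 (one_le_pow₀ hQ2)) hq1)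
  calc _ ≤ C₀ * (B * Q ^ e : ℝ) ^ r := mul_le_mul_of_nonneg_left h7 hC.le
    _ = C₀ * (B : ℝ) ^ r * Q ^ (r * e) := by rw [mul_pow, ← pow_mul, mul_assoc, mul_comm e]
    _ < Q * Q ^ (r * e) := mul_lt_mul_of_pos_right h6 (by positivity)
    _ ≤ (Q : ℝ) ^ k := by rw [← pow_succ']; exact pow_le_pow_right₀ hQ2 hk
    _ ≤ _ := by exact_mod_cast hM

end Pool.Agent.Work.MP_0e72ae_gt
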